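import Pool.Agent.SIE.Defs

/-!
# Counting box patterns with product weights (module of MP_7034eb_an)

PAPER PROOF.  Hypothesis (*): `∑_{s : H p s, V q s} W s * T s = lam * W p * T q` for all symbols
`p` (left neighbour) and `q` (lower neighbour).

(1) Rows.  For `N`, a symbol `p` (to the left of the row) and symbols `q m`, `m : Fin N` (below the
row), call `r : Fin N → S` a valid row if `H p (r 0)`, `H (r i) (r (i+1))` and `V (q m) (r m)` for
all `m`; let `last` be the last symbol of the row (`p` if `N = 0`).  Then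
`∑_{r valid} W last * ∏ m, T (r m) = lam ^ N * W p * ∏ m, T (q m)`.
Induction on `N`, splitting off the first site `r 0` and using (*) with `p`, `q 0`.

(2) Boxes.  For `M` rows of length `N`, left symbols `p n` (`n : Fin M`) and bottom symbols `q m`:
the sum over all valid fillings `R : Fin M → Fin N → S` of `∏_n W (last of row n) * ∏_m T (top
row symbol m)` is `lam ^ (N * M) * ∏_n W (p n) * ∏_m T (q m)`.  Induction on `M`, splitting off the
first (lowest) row and using (1).

(3) Hence with `w₁ ≤ W, T ≤ w₂` (`w₁ > 0`), for every choice of left and bottom symbols the number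
`F` of valid fillings of the `N × N` box satisfies
`F * w₁^(2N) ≤ lam^(N*N) * w₂^(2N)` and `F * w₂^(2N) ≥ lam^(N*N) * w₁^(2N)`.

(4) Upper bound: a globally admissible box pattern is a valid filling for the symbols of `x` to the
left of and below the box; the number of choices of these is `card S ^ (2N)`.

(5) Lower bound: fix `y ∈ Sys2 H V`.  Every valid filling `p` of the box for the left and bottom
symbols given by `y` (columns `-1`, row `-1`) is globally admissible: extend by `y` outside the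
quadrant `{m ≥ 0, n ≥ 0}`, and fill the quadrant site by site (the symbol at `(m, n)` outside the
box is chosen after those at `(m-1, n)` and `(m, n-1)`; there is a choice since the right side of
(*) is positive).  For example define `z : ℕ → ℕ → S` by recursion using
`f p q = choice of s with H p s ∧ V q s`.

Combine with `C = max` of the constants `(card S)^2 * (w₂/w₁)^2`, etc.
(`open Classical` for the decidability of `H p s ∧ V q s`.)
-/

set_option autoImplicit false

namespace SIE

/-- a valid row -/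
def CntRow {S : Type} (H V : S → S → Prop) {N : ℕ} (p : S) (q r : Fin N → S) : Prop :=
  ∀ i : Fin N, H ((Fin.cons p r : Fin (N + 1) → S) i.castSucc) (r i) ∧ V (q i) (r i)

/-- a valid box -/
def CntBox {S : Type} (H V : S → S → Prop) {M N : ℕ} (P : Fin M → S) (q : Fin N → S)
    (R : Fin M → Fin N → S) : Prop :=
  ∀ n : Fin M, CntRow H V (P n) ((Fin.cons q R : Fin (M + 1) → (Fin N → S)) n.castSucc) (R n)

theorem cntRow_cons {S : Type} (H V : S → S → Prop) {N : ℕ} (p s : S) (q : Fin (N + 1) → S)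
    (r : Fin N → S) : CntRow H V p q (Fin.cons s r : Fin (N + 1) → S) ↔
      ((H p s ∧ V (q 0) s) ∧ CntRow H V s (Fin.tail q) r) := by
  unfold CntRow
  rw [Fin.forall_fin_succ]
  simp only [Fin.castSucc_zero, Fin.cons_zero, Fin.castSucc_succ, Fin.cons_succ, Fin.tail]

theorem cntBox_cons {S : Type} (H V : S → S → Prop) {M N : ℕ} (P : Fin (M + 1) → S)
    (q r : Fin N → S) (R : Fin M → Fin N → S) :
    CntBox H V P q (Fin.cons r R : Fin (M + 1) → (Fin N → S)) ↔
      (CntRow H V (P 0) q r ∧ CntBox H V (Fin.tail P) r R) := by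
  unfold CntBox
  rw [Fin.forall_fin_succ]
  simp only [Fin.castSucc_zero, Fin.cons_zero, Fin.castSucc_succ, Fin.cons_succ, Fin.tail]

theorem cnt_sum_cons {α : Type} [Fintype α] (n : ℕ) (F : (Fin (n + 1) → α) → ℝ) :
    ∑ r, F r = ∑ s, ∑ r', F (Fin.cons s r' : Fin (n + 1) → α) := by
  rw [← (Fin.consEquiv (fun _ => α)).sum_comp, Fintype.sum_prod_type]
  rfl

open Classical in
theorem cnt_row_sum {S : Type} [Fintype S] (H V : S → S → Prop) (W T : S → ℝ) (lam : ℝ)
    (hst : ∀ p q, ∑ s, (if H p s ∧ V q s then W s * T s else 0) = lam * (W p * T q))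
    (N : ℕ) : ∀ (p : S) (q : Fin N → S),
    ∑ r : Fin N → S, (if CntRow H V p q r then
      W ((Fin.cons p r : Fin (N + 1) → S) (Fin.last N)) * ∏ i, T (r i) else 0) =
      lam ^ N * (W p * ∏ i, T (q i)) := by
  induction N with
  | zero =>
    intro p q
    simp [CntRow]
  | succ N ih =>
    intro p q
    rw [cnt_sum_cons]
    simp only [cntRow_cons]
    have h1 : ∀ s : S, ∑ r : Fin N → S, (if (H p s ∧ V (q 0) s) ∧ CntRow H V s (Fin.tail q) r then
        W ((Fin.cons p (Fin.cons s r : Fin (N + 1) → S) : Fin (N + 1 + 1) → S) (Fin.last (N + 1))) *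
          ∏ i, T ((Fin.cons s r : Fin (N + 1) → S) i) else 0) =
        (if H p s ∧ V (q 0) s then W s * T s else 0) * (lam ^ N * ∏ i, T (Fin.tail q i)) := by
      intro s
      by_cases hs : H p s ∧ V (q 0) s
      · simp only [hs, true_and, and_self, if_true]
        have h2 : ∀ r : Fin N → S, (if CntRow H V s (Fin.tail q) r then
            W ((Fin.cons p (Fin.cons s r : Fin (N + 1) → S) : Fin (N + 1 + 1) → S)
              (Fin.last (N + 1))) * ∏ i, T ((Fin.cons s r : Fin (N + 1) → S) i) else 0) =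
            T s * (if CntRow H V s (Fin.tail q) r then
              W ((Fin.cons s r : Fin (N + 1) → S) (Fin.last N)) * ∏ i, T (r i) else 0) := by
          intro r
          rw [Fin.prod_univ_succ]
          simp only [Fin.cons_zero, Fin.cons_succ, ← Fin.succ_last]
          split_ifs
          · ring
          · ring
        rw [Finset.sum_congr rfl fun r _ => h2 r, ← Finset.mul_sum, ih]
        ring
      · simp only [hs, false_and, if_false, Finset.sum_const_zero, zero_mul]
    rw [Finset.sum_congr rfl fun s _ => h1 s, ← Finset.sum_mul, hst, Fin.prod_univ_succ (fun i => T (q i))]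
    simp only [Fin.tail]
    ring

open Classical in
theorem cnt_box_sum {S : Type} [Fintype S] (H V : S → S → Prop) (W T : S → ℝ) (lam : ℝ)
    (hst : ∀ p q, ∑ s, (if H p s ∧ V q s then W s * T s else 0) = lam * (W p * T q))
    (N M : ℕ) : ∀ (P : Fin M → S) (q : Fin N → S),
    ∑ R : Fin M → Fin N → S, (if CntBox H V P q R then
      (∏ n, W ((Fin.cons (P n) (R n) : Fin (N + 1) → S) (Fin.last N))) *
        ∏ i, T ((Fin.cons q R : Fin (M + 1) → (Fin N → S)) (Fin.last M) i) else 0) =
      lam ^ (N * M) * ((∏ n, W (P n)) * ∏ i, T (q i)) := by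
  induction M with
  | zero =>
    intro P q
    simp [CntBox]
  | succ M ih =>
    intro P q
    rw [cnt_sum_cons]
    simp only [cntBox_cons]
    have h1 : ∀ r : Fin N → S, ∑ R : Fin M → Fin N → S,
        (if CntRow H V (P 0) q r ∧ CntBox H V (Fin.tail P) r R then
        (∏ n, W ((Fin.cons (P n) ((Fin.cons r R : Fin (M + 1) → (Fin N → S)) n) :
          Fin (N + 1) → S) (Fin.last N))) *
          ∏ i, T ((Fin.cons q (Fin.cons r R : Fin (M + 1) → (Fin N → S)) :
            Fin (M + 1 + 1) → (Fin N → S)) (Fin.last (M + 1)) i) else 0) =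
        (if CntRow H V (P 0) q r then
          W ((Fin.cons (P 0) r : Fin (N + 1) → S) (Fin.last N)) * ∏ i, T (r i) else 0) *
          (lam ^ (N * M) * ∏ n, W (Fin.tail P n)) := by
      intro r
      by_cases hr : CntRow H V (P 0) q r
      · simp only [hr, true_and, if_true]
        have h2 : ∀ R : Fin M → Fin N → S, (if CntBox H V (Fin.tail P) r R then
            (∏ n, W ((Fin.cons (P n) ((Fin.cons r R : Fin (M + 1) → (Fin N → S)) n) :
              Fin (N + 1) → S) (Fin.last N))) *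
              ∏ i, T ((Fin.cons q (Fin.cons r R : Fin (M + 1) → (Fin N → S)) :
                Fin (M + 1 + 1) → (Fin N → S)) (Fin.last (M + 1)) i) else 0) =
            W ((Fin.cons (P 0) r : Fin (N + 1) → S) (Fin.last N)) *
            (if CntBox H V (Fin.tail P) r R then
              (∏ n, W ((Fin.cons (Fin.tail P n) (R n) : Fin (N + 1) → S) (Fin.last N))) *
                ∏ i, T ((Fin.cons r R : Fin (M + 1) → (Fin N → S)) (Fin.last M) i) else 0) := by
          intro R
          rw [Fin.prod_univ_succ]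
          simp only [Fin.cons_zero, Fin.cons_succ, ← Fin.succ_last, Fin.tail]
          split_ifs
          · ring
          · ring
        rw [Finset.sum_congr rfl fun R _ => h2 R, ← Finset.mul_sum, ih]
        ring
      · simp only [hr, false_and, if_false, Finset.sum_const_zero, zero_mul]
    rw [Finset.sum_congr rfl fun r _ => h1 r, ← Finset.sum_mul, cnt_row_sum H V W T lam hst,
      Fin.prod_univ_succ (fun n => W (P n))]
    simp only [Fin.tail]
    ring

/-- the extension of a filling of the box to the quadrant, indices shifted by one -/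
noncomputable def cntExt {S : Type} (f : S → S → S) (y : ℤ → ℤ → S) (N : ℕ)
    (R : Fin N → Fin N → S) : ℕ → ℕ → S
  | 0, n => y (-1) ((n : ℤ) - 1)
  | (m + 1), 0 => y (m : ℤ) (-1)
  | (m + 1), (n + 1) =>
    if h : m < N ∧ n < N then R ⟨n, h.2⟩ ⟨m, h.1⟩
    else f (cntExt f y N R m (n + 1)) (cntExt f y N R (m + 1) n)
  termination_by m n => (m, n)

theorem cnt_cons_castSucc {α : Type} {N : ℕ} (p : α) (r : Fin N → α) (i : Fin N) :
    (Fin.cons p r : Fin (N + 1) → α) i.castSucc =
      if h : (i : ℕ) = 0 then p else r ⟨(i : ℕ) - 1, by omega⟩ := by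
  obtain ⟨k, hk⟩ := i
  cases k with
  | zero => rfl
  | succ k => rfl

theorem cntExt_rel {S : Type} (H V : S → S → Prop) (f : S → S → S)
    (hf : ∀ p q, H p (f p q) ∧ V q (f p q)) (y : ℤ → ℤ → S) (N : ℕ)
    (R : Fin N → Fin N → S)
    (hR : CntBox H V (fun n : Fin N => y (-1) ((n : ℕ) : ℤ)) (fun m : Fin N => y ((m : ℕ) : ℤ) (-1)) R)
    (m n : ℕ) :
    H (cntExt f y N R m (n + 1)) (cntExt f y N R (m + 1) (n + 1)) ∧
      V (cntExt f y N R (m + 1) n) (cntExt f y N R (m + 1) (n + 1)) := by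
  have e1 : cntExt f y N R (m + 1) (n + 1) = if h : m < N ∧ n < N then R ⟨n, h.2⟩ ⟨m, h.1⟩
    else f (cntExt f y N R m (n + 1)) (cntExt f y N R (m + 1) n) := by rw [cntExt]
  by_cases h : m < N ∧ n < N
  · rw [dif_pos h] at e1
    have hh := hR ⟨n, h.2⟩ ⟨m, h.1⟩
    rw [cnt_cons_castSucc, cnt_cons_castSucc] at hh
    rw [e1]
    constructor
    · have h1 := hh.1
      cases m with
      | zero =>
        rw [cntExt]
        simp only [dite_true] at h1
        have e2 : (((n + 1 : ℕ) : ℤ) - 1) = (n : ℤ) := by push_cast; ring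
        rw [e2]
        exact h1
      | succ m =>
        rw [cntExt, dif_pos ⟨by omega, h.2⟩]
        rw [dif_neg (by simp)] at h1
        exact h1
    · have h1 := hh.2
      cases n with
      | zero =>
        rw [cntExt]
        exact h1
      | succ n =>
        rw [cntExt, dif_pos ⟨h.1, by omega⟩]
        rw [dif_neg (by simp)] at h1
        exact h1
  · rw [dif_neg h] at e1
    rw [e1]
    exact hf _ _

theorem cnt_ext_exists {S : Type} (H V : S → S → Prop) (f : S → S → S)
    (hf : ∀ p q, H p (f p q) ∧ V q (f p q)) (y : ℤ → ℤ → S) (hy : y ∈ Sys2 H V) (N : ℕ)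
    (R : Fin N → Fin N → S)
    (hR : CntBox H V (fun n : Fin N => y (-1) ((n : ℕ) : ℤ))
      (fun m : Fin N => y ((m : ℕ) : ℤ) (-1)) R) :
    ∃ x ∈ Sys2 H V, ∀ i j : Fin N, R j i = x ((i : ℕ) : ℤ) ((j : ℕ) : ℤ) := by
  set z := cntExt f y N R with hz
  have hrel := cntExt_rel H V f hf y N R hR
  set x : ℤ → ℤ → S := fun m n =>
    if 0 ≤ m ∧ 0 ≤ n then z (m.toNat + 1) (n.toNat + 1) else y m n with hx
  have x1 : ∀ m n : ℕ, x (m : ℤ) (n : ℤ) = z (m + 1) (n + 1) := by
    intro m n
    simp [hx]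
  have x2 : ∀ m n : ℤ, (m < 0 ∨ n < 0) → x m n = y m n := by
    intro m n h
    have : ¬ (0 ≤ m ∧ 0 ≤ n) := by omega
    simp only [hx, if_neg this]
  have z0 : ∀ n : ℕ, z 0 (n + 1) = y (-1) (n : ℤ) := by
    intro n
    rw [hz, cntExt]
    congr 1
    push_cast; ring
  have z1 : ∀ m : ℕ, z (m + 1) 0 = y (m : ℤ) (-1) := by
    intro m
    rw [hz, cntExt]
  refine ⟨x, ?_, ?_⟩
  · intro m n
    constructor
    · rcases lt_or_ge n 0 with hn | hn
      · rw [x2 m n (Or.inr hn), x2 (m + 1) n (Or.inr hn)]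
        exact (hy m n).1
      · obtain ⟨n, rfl⟩ := Int.eq_ofNat_of_zero_le hn
        rcases lt_trichotomy m (-1) with hm | hm | hm
        · rw [x2 m n (Or.inl (by omega)), x2 (m + 1) n (Or.inl (by omega))]
          exact (hy m n).1
        · subst hm
          have e : ((-1 : ℤ) + 1) = ((0 : ℕ) : ℤ) := by norm_num
          rw [x2 (-1) n (Or.inl (by omega)), e, x1, ← z0]
          exact (hrel 0 n).1
        · obtain ⟨m, rfl⟩ := Int.eq_ofNat_of_zero_le (show 0 ≤ m by omega)
          have e : ((m : ℤ) + 1) = ((m + 1 : ℕ) : ℤ) := by push_cast; ring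
          rw [e, x1, x1]
          exact (hrel (m + 1) n).1
    · rcases lt_or_ge m 0 with hm | hm
      · rw [x2 m n (Or.inl hm), x2 m (n + 1) (Or.inl hm)]
        exact (hy m n).2
      · obtain ⟨m, rfl⟩ := Int.eq_ofNat_of_zero_le hm
        rcases lt_trichotomy n (-1) with hn | hn | hn
        · rw [x2 m n (Or.inr (by omega)), x2 m (n + 1) (Or.inr (by omega))]
          exact (hy m n).2
        · subst hn
          have e : ((-1 : ℤ) + 1) = ((0 : ℕ) : ℤ) := by norm_num
          rw [x2 m (-1) (Or.inr (by omega)), e, x1, ← z1]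
          exact (hrel m 0).2
        · obtain ⟨n, rfl⟩ := Int.eq_ofNat_of_zero_le (show 0 ≤ n by omega)
          have e : ((n : ℤ) + 1) = ((n + 1 : ℕ) : ℤ) := by push_cast; ring
          rw [e, x1, x1]
          exact (hrel m (n + 1)).2
  · intro i j
    rw [x1, hz, cntExt, dif_pos ⟨i.2, j.2⟩]

theorem cnt_of_sys {S : Type} (H V : S → S → Prop) (x : ℤ → ℤ → S) (hx : x ∈ Sys2 H V) (N : ℕ) :
    CntBox H V (fun n : Fin N => x (-1) ((n : ℕ) : ℤ)) (fun m : Fin N => x ((m : ℕ) : ℤ) (-1))
      (fun (j i : Fin N) => x ((i : ℕ) : ℤ) ((j : ℕ) : ℤ)) := by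
  intro n i
  rw [cnt_cons_castSucc, cnt_cons_castSucc]
  constructor
  · by_cases h : (i : ℕ) = 0
    · rw [dif_pos h]
      have := (hx (-1) ((n : ℕ) : ℤ)).1
      show H (x (-1) ((n : ℕ) : ℤ)) (x ((i : ℕ) : ℤ) ((n : ℕ) : ℤ))
      rw [h]
      simpa using this
    · rw [dif_neg h]
      have := (hx (((i : ℕ) - 1 : ℕ) : ℤ) ((n : ℕ) : ℤ)).1
      have e : ((((i : ℕ) - 1 : ℕ) : ℤ) + 1) = ((i : ℕ) : ℤ) := by omega
      rw [e] at this
      exact this
  · by_cases h : (n : ℕ) = 0
    · rw [dif_pos h]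
      have := (hx ((i : ℕ) : ℤ) (-1)).2
      show V (x ((i : ℕ) : ℤ) (-1)) (x ((i : ℕ) : ℤ) ((n : ℕ) : ℤ))
      rw [h]
      simpa using this
    · rw [dif_neg h]
      have := (hx ((i : ℕ) : ℤ) (((n : ℕ) - 1 : ℕ) : ℤ)).2
      have e : ((((n : ℕ) - 1 : ℕ) : ℤ) + 1) = ((n : ℕ) : ℤ) := by omega
      rw [e] at this
      exact this

open Classical in
theorem cnt_F_bounds {S : Type} [Fintype S] (H V : S → S → Prop) (W T : S → ℝ) (lam : ℝ)
    (hst : ∀ p q, ∑ s, (if H p s ∧ V q s then W s * T s else 0) = lam * (W p * T q))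
    (hlam : 0 < lam) (w1 w2 : ℝ) (h1 : 0 < w1) (hW : ∀ s, w1 ≤ W s ∧ W s ≤ w2)
    (hT : ∀ s, w1 ≤ T s ∧ T s ≤ w2) (N : ℕ) (P q : Fin N → S) :
    ((Finset.univ.filter fun R : Fin N → Fin N → S => CntBox H V P q R).card : ℝ) *
        (w1 ^ N * w1 ^ N) ≤ lam ^ (N * N) * (w2 ^ N * w2 ^ N) ∧
      lam ^ (N * N) * (w1 ^ N * w1 ^ N) ≤
        ((Finset.univ.filter fun R : Fin N → Fin N → S => CntBox H V P q R).card : ℝ) *
          (w2 ^ N * w2 ^ N) := by
  have hs := cnt_box_sum H V W T lam hst N N P q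
  rw [← Finset.sum_filter] at hs
  have lowP : ∀ (U : S → ℝ) (g : Fin N → S), (∀ s, w1 ≤ U s ∧ U s ≤ w2) →
      w1 ^ N ≤ ∏ i, U (g i) ∧ ∏ i, U (g i) ≤ w2 ^ N := by
    intro U g hU
    constructor
    · have := Finset.prod_le_prod (s := (Finset.univ : Finset (Fin N))) (f := fun _ => w1)
        (g := fun i => U (g i)) (fun _ _ => h1.le) (fun i _ => (hU _).1)
      simpa using this
    · have := Finset.prod_le_prod (s := (Finset.univ : Finset (Fin N))) (f := fun i => U (g i))
        (g := fun _ => w2) (fun i _ => h1.le.trans (hU _).1) (fun i _ => (hU _).2)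
      simpa using this
  have w1N : 0 < w1 ^ N := pow_pos h1 N
  have lamN : 0 < lam ^ (N * N) := pow_pos hlam _
  have hterm : ∀ A B : ℝ, (w1 ^ N ≤ A ∧ A ≤ w2 ^ N) → (w1 ^ N ≤ B ∧ B ≤ w2 ^ N) →
      w1 ^ N * w1 ^ N ≤ A * B ∧ A * B ≤ w2 ^ N * w2 ^ N := by
    intro A B hA hB
    constructor
    · exact mul_le_mul hA.1 hB.1 w1N.le (w1N.le.trans hA.1)
    · exact mul_le_mul hA.2 hB.2 (w1N.le.trans hB.1) ((w1N.le.trans hA.1).trans hA.2)
  have hRHS := hterm _ _ (lowP W P hW) (lowP T q hT)
  have hL : ∀ R : Fin N → Fin N → S, _ := fun R => hterm _ _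
    (lowP W (fun n => (Fin.cons (P n) (R n) : Fin (N + 1) → S) (Fin.last N)) hW)
    (lowP T (fun i => (Fin.cons q R : Fin (N + 1) → (Fin N → S)) (Fin.last N) i) hT)
  constructor
  · calc _ = ∑ R ∈ Finset.univ.filter (fun R : Fin N → Fin N → S => CntBox H V P q R),
          (w1 ^ N * w1 ^ N) := by rw [Finset.sum_const, nsmul_eq_mul]
      _ ≤ _ := Finset.sum_le_sum fun R _ => (hL R).1
      _ = _ := hs
      _ ≤ _ := mul_le_mul_of_nonneg_left hRHS.2 lamN.le
  · calc _ ≤ lam ^ (N * N) * ((∏ n, W (P n)) * ∏ i, T (q i)) :=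
          mul_le_mul_of_nonneg_left hRHS.1 lamN.le
      _ = _ := hs.symm
      _ ≤ ∑ R ∈ Finset.univ.filter (fun R : Fin N → Fin N → S => CntBox H V P q R),
          (w2 ^ N * w2 ^ N) := Finset.sum_le_sum fun R _ => (hL R).2
      _ = _ := by rw [Finset.sum_const, nsmul_eq_mul]

open Classical in
theorem count_bounds {S : Type} [Fintype S] (H V : S → S → Prop) (W T : S → ℝ)
    (hW : ∀ s, 0 < W s) (hT : ∀ s, 0 < T s) (lam : ℝ) (hlam : 0 < lam)
    (hst : ∀ p q, ∑ s, (if H p s ∧ V q s then W s * T s else 0) = lam * (W p * T q))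
    (hne : (Sys2 H V).Nonempty) :
    ∃ C : ℝ, 1 ≤ C ∧ ∀ N : ℕ, lam ^ (N * N) ≤ C ^ N * (boxCount H V N : ℝ) ∧
      (boxCount H V N : ℝ) ≤ C ^ N * lam ^ (N * N) := by
  obtain ⟨y, hy⟩ := hne
  have : Nonempty S := ⟨y 0 0⟩
  -- the choice function
  have hf : ∀ p q : S, ∃ s, H p s ∧ V q s := by
    intro p q
    by_contra hcon
    push Not at hcon
    have h0 := hst p q
    rw [Finset.sum_eq_zero (fun s _ => if_neg (fun h => hcon s h.1 h.2))] at h0
    have := mul_pos hlam (mul_pos (hW p) (hT q))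
    linarith
  choose f hf using hf
  -- the bounds for the weights
  obtain ⟨s0, hs0⟩ := Finite.exists_min (fun s : S => min (W s) (T s))
  obtain ⟨s1, hs1⟩ := Finite.exists_max (fun s : S => max (W s) (T s))
  set w1 := min (W s0) (T s0) with hw1
  set w2 := max (W s1) (T s1) with hw2
  have h1 : 0 < w1 := lt_min (hW s0) (hT s0)
  have hWb : ∀ s, w1 ≤ W s ∧ W s ≤ w2 := fun s =>
    ⟨(hs0 s).trans (min_le_left _ _), (le_max_left _ _).trans (hs1 s)⟩
  have hTb : ∀ s, w1 ≤ T s ∧ T s ≤ w2 := fun s =>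
    ⟨(hs0 s).trans (min_le_right _ _), (le_max_right _ _).trans (hs1 s)⟩
  have h12 : w1 ≤ w2 := (hWb s0).1.trans (hWb s0).2
  have hw2pos : 0 < w2 := h1.trans_le h12
  set K : ℝ := (Fintype.card S : ℝ) with hK
  have hK1 : 1 ≤ K := by
    rw [hK]; exact_mod_cast Fintype.card_pos
  set ρ : ℝ := w2 / w1 with hρ
  have hρ1 : 1 ≤ ρ := by rw [hρ, le_div_iff₀ h1]; linarith
  refine ⟨K ^ 2 * ρ ^ 2, ?_, fun N => ?_⟩
  · have a1 : 1 ≤ K ^ 2 := one_le_pow₀ hK1
    have a2 : 1 ≤ ρ ^ 2 := one_le_pow₀ hρ1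
    calc (1 : ℝ) = 1 * 1 := by ring
      _ ≤ _ := mul_le_mul a1 a2 zero_le_one (zero_le_one.trans a1)
  · set B' : Finset (Fin N → Fin N → S) := Finset.univ.filter
      (fun R => ∃ x ∈ Sys2 H V, ∀ i j : Fin N, R j i = x ((i : ℕ) : ℤ) ((j : ℕ) : ℤ)) with hB'
    have hBc : boxCount H V N = B'.card := by
      unfold boxCount
      have : {p : Fin N → Fin N → S | ∃ x ∈ Sys2 H V, ∀ i j : Fin N,
          p i j = x ((i : ℕ) : ℤ) ((j : ℕ) : ℤ)} =
          (fun R : Fin N → Fin N → S => fun i j => R j i) '' (B' : Set (Fin N → Fin N → S)) := by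
        ext p
        simp only [Set.mem_ofPred_eq, Set.mem_image, hB', Finset.coe_filter, Finset.mem_univ,
          true_and]
        constructor
        · rintro ⟨x, hx, hp⟩
          exact ⟨fun j i => p i j, ⟨x, hx, hp⟩, rfl⟩
        · rintro ⟨R, ⟨x, hx, hR⟩, rfl⟩
          exact ⟨x, hx, hR⟩
      rw [this, Set.ncard_image_of_injective, Set.ncard_coe_finset]
      intro R R' h
      funext j i
      exact congrFun (congrFun h i) j
    set F : (Fin N → S) → (Fin N → S) → Finset (Fin N → Fin N → S) := fun P q =>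
      Finset.univ.filter (fun R => CntBox H V P q R) with hF
    have hFb := cnt_F_bounds H V W T lam hst hlam w1 w2 h1 hWb hTb N
    have lamN : 0 < lam ^ (N * N) := pow_pos hlam _
    have w1N : 0 < w1 ^ N := pow_pos h1 N
    have w2N : 0 < w2 ^ N := pow_pos hw2pos N
    have hρN : ρ ^ N * w1 ^ N = w2 ^ N := by
      rw [← mul_pow, hρ, div_mul_cancel₀ _ h1.ne']
    have hCN : (K ^ 2 * ρ ^ 2) ^ N = (K ^ N * K ^ N) * (ρ ^ N * ρ ^ N) := by
      rw [← mul_pow, ← mul_pow, ← mul_pow]
      ring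
    have hKN : 1 ≤ K ^ N := one_le_pow₀ hK1
    have hρNpos : 0 < ρ ^ N := pow_pos (zero_lt_one.trans_le hρ1) N
    constructor
    · -- lower bound
      set P : Fin N → S := fun n => y (-1) ((n : ℕ) : ℤ) with hP
      set q : Fin N → S := fun m => y ((m : ℕ) : ℤ) (-1) with hq
      have hsub : F P q ⊆ B' := by
        intro R hR
        simp only [hF, Finset.mem_filter, Finset.mem_univ, true_and] at hR
        simp only [hB', Finset.mem_filter, Finset.mem_univ, true_and]
        exact cnt_ext_exists H V f hf y hy N R hR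
      have hcard : ((F P q).card : ℝ) ≤ (B'.card : ℝ) := by
        exact_mod_cast Finset.card_le_card hsub
      have h3 : lam ^ (N * N) * (w1 ^ N * w1 ^ N) ≤
          (ρ ^ N * ρ ^ N) * (B'.card : ℝ) * (w1 ^ N * w1 ^ N) := by
        calc _ ≤ ((F P q).card : ℝ) * (w2 ^ N * w2 ^ N) := (hFb P q).2
          _ ≤ (B'.card : ℝ) * (w2 ^ N * w2 ^ N) :=
            mul_le_mul_of_nonneg_right hcard (mul_pos w2N w2N).le
          _ = _ := by rw [← hρN]; ring
      have h4 : lam ^ (N * N) ≤ (ρ ^ N * ρ ^ N) * (B'.card : ℝ) :=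
        le_of_mul_le_mul_right h3 (mul_pos w1N w1N)
      rw [hBc, hCN]
      calc _ ≤ (ρ ^ N * ρ ^ N) * (B'.card : ℝ) := h4
        _ = 1 * ((ρ ^ N * ρ ^ N) * (B'.card : ℝ)) := by ring
        _ ≤ (K ^ N * K ^ N) * ((ρ ^ N * ρ ^ N) * (B'.card : ℝ)) := by
            apply mul_le_mul_of_nonneg_right
            · calc (1 : ℝ) = 1 * 1 := by ring
                _ ≤ _ := mul_le_mul hKN hKN zero_le_one (zero_le_one.trans hKN)
            · positivity
        _ = _ := by ring
    · -- upper bound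
      have hsub : B' ⊆ (Finset.univ : Finset ((Fin N → S) × (Fin N → S))).biUnion
          (fun Pq => F Pq.1 Pq.2) := by
        intro R hR
        simp only [hB', Finset.mem_filter, Finset.mem_univ, true_and] at hR
        obtain ⟨x, hx, hR⟩ := hR
        simp only [Finset.mem_biUnion, Finset.mem_univ, true_and]
        refine ⟨(fun n : Fin N => x (-1) ((n : ℕ) : ℤ), fun m : Fin N => x ((m : ℕ) : ℤ) (-1)), ?_⟩
        simp only [hF, Finset.mem_filter, Finset.mem_univ, true_and]
        have hRx : R = fun (j i : Fin N) => x ((i : ℕ) : ℤ) ((j : ℕ) : ℤ) := by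
          funext j i; exact hR i j
        rw [hRx]
        exact cnt_of_sys H V x hx N
      have hFle : ∀ Pq : (Fin N → S) × (Fin N → S), ((F Pq.1 Pq.2).card : ℝ) ≤
          lam ^ (N * N) * (ρ ^ N * ρ ^ N) := by
        intro Pq
        have h3 := (hFb Pq.1 Pq.2).1
        rw [← hρN] at h3
        have h4 : ((F Pq.1 Pq.2).card : ℝ) * (w1 ^ N * w1 ^ N) ≤
            (lam ^ (N * N) * (ρ ^ N * ρ ^ N)) * (w1 ^ N * w1 ^ N) := by
          calc _ ≤ _ := h3
            _ = _ := by ring
        exact le_of_mul_le_mul_right h4 (mul_pos w1N w1N)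
      have hcard : (B'.card : ℝ) ≤ ∑ Pq : (Fin N → S) × (Fin N → S), ((F Pq.1 Pq.2).card : ℝ) := by
        have := (Finset.card_le_card hsub).trans Finset.card_biUnion_le
        exact_mod_cast this
      have hnum : (Fintype.card ((Fin N → S) × (Fin N → S)) : ℝ) = K ^ N * K ^ N := by
        rw [Fintype.card_prod, Fintype.card_fun, Fintype.card_fin, hK]
        push_cast
        ring
      rw [hBc, hCN]
      calc (B'.card : ℝ) ≤ _ := hcard
        _ ≤ ∑ _Pq : (Fin N → S) × (Fin N → S), lam ^ (N * N) * (ρ ^ N * ρ ^ N) :=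
            Finset.sum_le_sum fun Pq _ => hFle Pq
        _ = (K ^ N * K ^ N) * (lam ^ (N * N) * (ρ ^ N * ρ ^ N)) := by
            rw [Finset.sum_const, nsmul_eq_mul, Finset.card_univ, hnum]
        _ = _ := by ring

end SIE
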