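import Pool.Agent.SIE.Defs

/-!
# From a nonnegative eigenvector to a primitive matrix (module of MP_7034eb_an)

PAPER PROOF.  Let `Q p` be the statement: `0 < p` and there are `k ≥ 1`, a matrix
`P : Matrix (Fin p) (Fin p) ℕ` and `ψ : Fin p → ℝ` with all `ψ v > 0` and
`∑ w, P v w * ψ w = exp (k * h) * ψ v` for all `v`.

(a) some `Q p` holds: let `U = {v : 0 < φ v}`, nonempty.  For `v ∈ U` the sum
`∑ w, B v w φ w` only sees `w ∈ U`.  So the restriction of `B` to `U` (reindexed by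
`Fin (card U)`) with `ψ = φ` on `U` and `k = 1` shows `Q (card U)`.

(b) Let `p` be minimal with `Q p`, with data `k, P, ψ`.
General fact (*): if `k' ≥ 1`, `P' : Matrix (Fin p) (Fin p) ℕ` satisfies
`P' ψ = exp (k' h) ψ` and `U ⊆ Fin p` is nonempty and closed under successors of `P'`
(`u ∈ U`, `P' u w ≠ 0` imply `w ∈ U`), then `U = univ`: the restriction of `P'` to `U` with
`ψ` restricted shows `Q (card U)`, so `card U ≥ p`.
For `j ≥ 1`, `P ^ j` satisfies this with `k' = k * j`.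

(c) `P` is primitive.  First, for all `v` there is `j ≥ 1` with `0 < (P ^ j) v v`: the set
`U = {w : ∃ j ≥ 1, 0 < (P ^ j) v w}` is nonempty (row `v` of `P` is not zero as
`(P ψ) v > 0`) and closed under successors of `P`, so it is everything by (*).
Let `J` be the product of such `j`'s over all `v`; then `J ≥ 1` and `0 < (P ^ J) v v` for all `v`
(`(P^(a*b)) v v ≥ ((P^a) v v)^b`).  Let `R = P ^ J`.  For fixed `v` let
`U_n = {w : 0 < (R ^ n) v w}`; `U_n ⊆ U_{n+1}` because of the positive diagonal.  The union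
`⋃ U_n` is closed under successors of `R`, so it is everything by (*); since `Fin p` is finite
some `n` has `U_n = univ` for all `v` at once.  So `P ^ (J*n)` is entrywise positive, and then
so is `P ^ r` for all `r ≥ J*n`, because every row of `P` is nonzero
(`(P^(r+1)) v w = ∑ u, P v u * (P^r) u w`).
-/

set_option autoImplicit false

namespace SIE

namespace DecompAux

/-- the property minimised -/
def QQ (h : ℝ) (p : ℕ) : Prop :=
  0 < p ∧ ∃ (k : ℕ) (P : Matrix (Fin p) (Fin p) ℕ) (ψ : Fin p → ℝ), 1 ≤ k ∧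
    (∀ v, 0 < ψ v) ∧ ∀ v, ∑ w, (P v w : ℝ) * ψ w = Real.exp (k * h) * ψ v

theorem restr {q : ℕ} (P : Matrix (Fin q) (Fin q) ℕ) (h : ℝ) (k : ℕ) (hk : 1 ≤ k)
    (φ : Fin q → ℝ) (U : Finset (Fin q)) (hU : U.Nonempty) (hpos : ∀ v ∈ U, 0 < φ v)
    (hz : ∀ v ∈ U, ∀ w, w ∉ U → (P v w : ℝ) * φ w = 0)
    (hB : ∀ v ∈ U, ∑ w, (P v w : ℝ) * φ w = Real.exp (k * h) * φ v) : QQ h U.card := by
  refine ⟨hU.card_pos, k, fun i j => P (U.equivFin.symm i) (U.equivFin.symm j),
    fun i => φ (U.equivFin.symm i), hk, fun i => hpos _ (U.equivFin.symm i).2, fun i => ?_⟩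
  rw [← hB _ (U.equivFin.symm i).2]
  have h1 := Equiv.sum_comp U.equivFin.symm
    (fun w : U => (P (U.equivFin.symm i) (w : Fin q) : ℝ) * φ (w : Fin q))
  refine h1.trans ?_
  rw [Finset.sum_coe_sort U (fun w => (P (U.equivFin.symm i) w : ℝ) * φ w)]
  exact Finset.sum_subset (Finset.subset_univ U) fun w _ hw =>
    hz _ (U.equivFin.symm i).2 w hw

theorem closed_univ {h : ℝ} {p : ℕ} (hmin : ∀ m < p, ¬ QQ h m) (P : Matrix (Fin p) (Fin p) ℕ)
    (k : ℕ) (hk : 1 ≤ k) (ψ : Fin p → ℝ) (hψ : ∀ v, 0 < ψ v)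
    (hP : ∀ v, ∑ w, (P v w : ℝ) * ψ w = Real.exp (k * h) * ψ v) (U : Set (Fin p))
    (hU : U.Nonempty) (hcl : ∀ u ∈ U, ∀ w, 0 < P u w → w ∈ U) (w : Fin p) : w ∈ U := by
  classical
  by_contra hw
  obtain ⟨u, hu⟩ := hU
  have hlt : (Finset.univ.filter fun v => v ∈ U).card < p := by
    have h1 : (Finset.univ.filter fun v => v ∈ U).card < (Finset.univ : Finset (Fin p)).card := by
      apply Finset.card_lt_card
      rw [Finset.ssubset_iff_of_subset (Finset.subset_univ _)]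
      exact ⟨w, Finset.mem_univ w, by simpa using hw⟩
    rwa [Finset.card_univ, Fintype.card_fin] at h1
  refine hmin _ hlt (restr P h k hk ψ _ ⟨u, by simpa using hu⟩ (fun v _ => hψ v) ?_
    (fun v _ => hP v))
  intro v hv w' hw'
  have hv' : v ∈ U := by simpa using hv
  have hw'' : w' ∉ U := by simpa using hw'
  have h2 : P v w' = 0 := by
    by_contra h3
    exact hw'' (hcl v hv' w' (Nat.pos_of_ne_zero h3))
  rw [h2, Nat.cast_zero, zero_mul]

theorem pos_mul {p : ℕ} {A B : Matrix (Fin p) (Fin p) ℕ} {v u w : Fin p} (hA : 0 < A v u)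
    (hB : 0 < B u w) : 0 < (A * B) v w := by
  rw [Matrix.mul_apply]
  exact Finset.sum_pos' (fun _ _ => Nat.zero_le _) ⟨u, Finset.mem_univ u, Nat.mul_pos hA hB⟩

theorem eig_pow {p : ℕ} {P : Matrix (Fin p) (Fin p) ℕ} {ψ : Fin p → ℝ} {h : ℝ} {k : ℕ}
    (hP : ∀ v, ∑ w, (P v w : ℝ) * ψ w = Real.exp (k * h) * ψ v) (j : ℕ) (v : Fin p) :
    ∑ w, ((P ^ j) v w : ℝ) * ψ w = Real.exp ((k * j : ℕ) * h) * ψ v := by
  induction j with
  | zero =>
    rw [pow_zero, mul_zero, Nat.cast_zero, zero_mul, Real.exp_zero, one_mul]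
    rw [Finset.sum_eq_single v]
    · simp
    · intro w _ hw
      rw [Matrix.one_apply_ne (Ne.symm hw)]
      simp
    · intro h1
      exact absurd (Finset.mem_univ v) h1
  | succ j ih =>
    have h1 : ∀ w, ((P ^ (j + 1)) v w : ℝ) * ψ w =
        ∑ u, ((P ^ j) v u : ℝ) * ((P u w : ℝ) * ψ w) := by
      intro w
      rw [pow_succ, Matrix.mul_apply, Nat.cast_sum, Finset.sum_mul]
      refine Finset.sum_congr rfl fun u _ => ?_
      rw [Nat.cast_mul]
      ring
    rw [Finset.sum_congr rfl fun w _ => h1 w, Finset.sum_comm]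
    have h2 : ∀ u, ∑ w, ((P ^ j) v u : ℝ) * ((P u w : ℝ) * ψ w) =
        Real.exp (k * h) * (((P ^ j) v u : ℝ) * ψ u) := by
      intro u
      rw [← Finset.mul_sum, hP u]
      ring
    rw [Finset.sum_congr rfl fun u _ => h2 u, ← Finset.mul_sum, ih]
    rw [← mul_assoc, ← Real.exp_add]
    congr 2
    push_cast
    ring

theorem diag_pow {p : ℕ} {P : Matrix (Fin p) (Fin p) ℕ} {v : Fin p} {j : ℕ}
    (hj : 0 < (P ^ j) v v) (m : ℕ) : 0 < (P ^ (j * m)) v v := by
  induction m with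
  | zero =>
    rw [mul_zero, pow_zero, Matrix.one_apply_eq]
    exact one_pos
  | succ m ih =>
    rw [mul_add, mul_one, pow_add]
    exact pos_mul ih hj

end DecompAux

open DecompAux in
theorem exists_primitive {q : ℕ} (B : Matrix (Fin q) (Fin q) ℕ) (h : ℝ) (φ : Fin q → ℝ)
    (h0 : ∀ v, 0 ≤ φ v) (h1 : ∃ v, 0 < φ v)
    (hB : ∀ v, ∑ w, (B v w : ℝ) * φ w = Real.exp h * φ v) :
    ∃ (k p : ℕ) (P : Matrix (Fin p) (Fin p) ℕ) (ψ : Fin p → ℝ), 1 ≤ k ∧ 0 < p ∧
      (∀ v, 0 < ψ v) ∧ (∀ v, ∑ w, (P v w : ℝ) * ψ w = Real.exp (k * h) * ψ v) ∧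
      ∃ r0 : ℕ, ∀ r, r0 ≤ r → ∀ v w, 0 < (P ^ r) v w := by
  classical
  have ha : ∃ p, QQ h p := by
    obtain ⟨v0, hv0⟩ := h1
    refine ⟨_, restr B h 1 le_rfl φ (Finset.univ.filter fun v => 0 < φ v) ⟨v0, by simpa using hv0⟩
      (fun v hv => by simpa using hv) ?_ ?_⟩
    · intro v _ w hw
      have h2 : ¬ 0 < φ w := by simpa using hw
      have h3 : φ w = 0 := le_antisymm (not_lt.1 h2) (h0 w)
      rw [h3, mul_zero]
    · intro v _
      rw [hB v, Nat.cast_one, one_mul]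
  obtain ⟨p, hp, hmin⟩ : ∃ p, QQ h p ∧ ∀ m < p, ¬ QQ h m :=
    ⟨Nat.find ha, Nat.find_spec ha, fun m hm => Nat.find_min ha hm⟩
  obtain ⟨hp0, k, P, ψ, hk, hψ, hP⟩ := hp
  have hrow : ∀ v, ∃ u, 0 < P v u := by
    intro v
    by_contra hcon
    push Not at hcon
    have h2 : ∑ w, (P v w : ℝ) * ψ w = 0 := by
      refine Finset.sum_eq_zero fun w _ => ?_
      have h3 : P v w = 0 := by have := hcon w; omega
      rw [h3, Nat.cast_zero, zero_mul]
    rw [hP v] at h2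
    exact (mul_pos (Real.exp_pos _) (hψ v)).ne' h2
  have hcyc : ∀ v, ∃ j, 1 ≤ j ∧ 0 < (P ^ j) v v := by
    intro v
    have h2 := closed_univ hmin P k hk ψ hψ hP {w | ∃ j, 1 ≤ j ∧ 0 < (P ^ j) v w} (by
      obtain ⟨u, hu⟩ := hrow v
      exact ⟨u, 1, le_rfl, by rwa [pow_one]⟩) (by
      rintro u ⟨j, hj, hu⟩ w hw
      refine ⟨j + 1, by omega, ?_⟩
      rw [pow_succ]
      exact pos_mul hu hw) v
    exact h2
  choose j hj1 hj2 using hcyc
  obtain ⟨J, hJ, hJd⟩ : ∃ J, 1 ≤ J ∧ ∀ v, 0 < (P ^ J) v v := by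
    refine ⟨∏ v, j v, Nat.succ_le_of_lt (Finset.prod_pos fun v _ => hj1 v), fun v => ?_⟩
    obtain ⟨m, hm⟩ := Finset.dvd_prod_of_mem j (Finset.mem_univ v)
    rw [hm]
    exact diag_pow (hj2 v) m
  have hkJ : 1 ≤ k * J := Nat.mul_pos hk hJ
  have hreach : ∀ v w, ∃ n, 0 < ((P ^ J) ^ n) v w := by
    intro v w
    have h2 := closed_univ hmin (P ^ J) (k * J) hkJ ψ hψ (eig_pow hP J)
      {w | ∃ n, 0 < ((P ^ J) ^ n) v w} ⟨v, 0, by
        rw [pow_zero, Matrix.one_apply_eq]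
        exact one_pos⟩ (by
      rintro u ⟨n, hu⟩ w hw
      refine ⟨n + 1, ?_⟩
      rw [pow_succ]
      exact pos_mul hu hw) w
    exact h2
  choose n hn using hreach
  have hmono : ∀ v w a b, a ≤ b → 0 < ((P ^ J) ^ a) v w → 0 < ((P ^ J) ^ b) v w := by
    intro v w a b hab h2
    induction b, hab using Nat.le_induction with
    | base => exact h2
    | succ b _ ih =>
      rw [pow_succ']
      exact pos_mul (hJd v) ih
  have hall : ∀ v w, 0 < (P ^ (J * ∑ v, ∑ w, n v w)) v w := by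
    intro v w
    rw [pow_mul]
    refine hmono v w (n v w) _ ?_ (hn v w)
    exact (Finset.single_le_sum (f := fun w => n v w) (fun _ _ => Nat.zero_le _)
      (Finset.mem_univ w)).trans (Finset.single_le_sum (f := fun v => ∑ w, n v w)
      (fun _ _ => Nat.zero_le _) (Finset.mem_univ v))
  refine ⟨k, p, P, ψ, hk, hp0, hψ, hP, J * ∑ v, ∑ w, n v w, fun r hr => ?_⟩
  induction r, hr using Nat.le_induction with
  | base => exact hall
  | succ r _ ih =>
    intro v w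
    obtain ⟨u, hu⟩ := hrow v
    rw [pow_succ']
    exact pos_mul hu (ih u w)

end SIE
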