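import Mathlib

/-!
# Strongly irreducible `ℤ^d`-shifts of finite type (MP_7034eb_an): the definitions

`E d` is the set of entropies of nonempty strongly irreducible `ℤ^d`-SFTs.
`Sys2 H V` is the `ℤ²`-system given by two nearest neighbour relations.
-/

set_option autoImplicit false

namespace SIE

open Filter Topology

/-- the sites of `ℤ^d` -/
abbrev Site (d : ℕ) := Fin d → ℤ

/-- a configuration over the alphabet `A` -/
abbrev Conf (d : ℕ) (A : Type) := Site d → A

/-- `X` is a shift of finite type: for some finite set of forbidden finite patterns (a pattern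
is a finite support together with values, of which only those on the support matter) `X` is the
set of all configurations containing no translate of a forbidden pattern. -/
def IsSFT {d : ℕ} {A : Type} (X : Set (Conf d A)) : Prop :=
  ∃ P : Set (Finset (Site d) × Conf d A), P.Finite ∧
    X = {x | ∀ p ∈ P, ∀ t : Site d, ∃ s ∈ p.1, x (t + s) ≠ p.2 s}

/-- strong irreducibility (distances in the maximum norm) -/
def StronglyIrreducible {d : ℕ} {A : Type} (X : Set (Conf d A)) : Prop :=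
  ∃ M : ℕ, 1 ≤ M ∧ ∀ F G : Set (Site d),
    (∀ s ∈ F, ∀ t ∈ G, ∃ i, (M : ℤ) ≤ |s i - t i|) →
    ∀ x ∈ X, ∀ y ∈ X, ∃ z ∈ X, (∀ s ∈ F, z s = x s) ∧ (∀ t ∈ G, z t = y t)

/-- the cube `Q_k = {0, …, k-1}^d` -/
def cube (d k : ℕ) : Set (Site d) := {s | ∀ i, 0 ≤ s i ∧ s i < (k : ℤ)}

/-- the number `N_k(X)` of admissible patterns on `Q_k` -/
noncomputable def numPatterns {d : ℕ} {A : Type} (X : Set (Conf d A)) (k : ℕ) : ℕ :=
  ((fun (x : Conf d A) (s : cube d k) => x s) '' X).ncard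

/-- `h` is the entropy of `X` -/
def HasEntropy {d : ℕ} {A : Type} (X : Set (Conf d A)) (h : ℝ) : Prop :=
  Tendsto (fun k : ℕ => Real.log (numPatterns X k) / (k : ℝ) ^ d) atTop (𝓝 h)

/-- the set of entropies of nonempty strongly irreducible `ℤ^d`-SFTs -/
def E (d : ℕ) : Set ℝ :=
  {h | ∃ (A : Type) (_ : Finite A) (X : Set (Conf d A)),
    IsSFT X ∧ X.Nonempty ∧ StronglyIrreducible X ∧ HasEntropy X h}

/-! ### the two dimensional auxiliary notions -/

/-- the `ℤ²`-system of two nearest neighbour relations, `H` horizontally, `V` vertically -/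
def Sys2 {S : Type} (H V : S → S → Prop) : Set (ℤ → ℤ → S) :=
  {x | ∀ m n : ℤ, H (x m n) (x (m + 1) n) ∧ V (x m n) (x m (n + 1))}

/-- the number of globally admissible patterns of `Sys2 H V` in an `N × N` box -/
noncomputable def boxCount {S : Type} (H V : S → S → Prop) (N : ℕ) : ℕ :=
  {p : Fin N → Fin N → S | ∃ x ∈ Sys2 H V, ∀ i j : Fin N,
    p i j = x ((i : ℕ) : ℤ) ((j : ℕ) : ℤ)}.ncard

/-- strong irreducibility of a set of two dimensional configurations -/
def SI2 {S : Type} (X : Set (ℤ → ℤ → S)) : Prop :=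
  ∃ M : ℕ, 1 ≤ M ∧ ∀ F G : Set (ℤ × ℤ),
    (∀ s ∈ F, ∀ t ∈ G, (M : ℤ) ≤ |s.1 - t.1| ∨ (M : ℤ) ≤ |s.2 - t.2|) →
    ∀ x ∈ X, ∀ y ∈ X, ∃ z ∈ X, (∀ s ∈ F, z s.1 s.2 = x s.1 s.2) ∧
      (∀ t ∈ G, z t.1 t.2 = y t.1 t.2)

/-- `n` steps along a relation -/
def Steps {G : Type} (R : G → G → Prop) : ℕ → G → G → Prop
  | 0, g, g' => g = g'
  | (n + 1), g, g' => ∃ h, R g h ∧ Steps R n h g'

end SIE
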