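import Pool.Agent.SIE.Defs

/-!
# Gluing in one dimension, and potentials in the plane (module of MP_7034eb_an)

PAPER PROOF of `glue1`.  Divide `ℤ` into the closed blocks `B_t = [t N, (t+1) N]`.  Call `t` of
type X if `B_t` meets `U`, of type Y if it meets `U'`.  Since points of `U` and `U'` are at distance
`> 2N`, no block is of both types and two adjacent blocks are not of different types X and Y.
Put `bd t = y (t N)` if block `t - 1` or block `t` is of type Y, and `bd t = x (t N)` otherwise.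
For every `t` there is `Z_t : ℕ → G` with `Z_t 0 = bd t`, `Z_t N = bd (t+1)`,
`R (Z_t j) (Z_t (j+1))` for `j < N`, with `Z_t j = x (t N + j)` (`j ≤ N`) if `t` is of type X and
`Z_t j = y (t N + j)` if `t` is of type Y: for types X and Y check the end points; otherwise use
`hmix (bd t) (bd (t+1))` (turn `Steps` into a function `ℕ → G`).
Let `z m = Z_t j` with `t = m / N`, `j = m % N` (floor division).  Then `R (z m) (z (m+1))`: either
`j + 1 < N`, same block, or `j + 1 = N` and `z (m+1) = Z_{t+1} 0 = bd (t+1) = Z_t N`.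

PAPER PROOF of `exists_potential`.  For `f : ℤ → G` there is `F : ℤ → G` with
`F (m+1) = F m + f m` (and `F 0 = 0`).  Let `F` be such a primitive of `m ↦ f m 0`, and for every
`m` let `G m` be a primitive of `n ↦ g m n` with `G m 0 = 0`; put `K m n = F m + G m n`.  The
second equation is clear; the first one, `K (m+1) n = K m n + f m n`, holds for `n = 0`, and by the
hypothesis it holds for `n + 1` if and only if it holds for `n` (`Int.induction_on`).
-/

set_option autoImplicit false

namespace SIE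

theorem Glue1.steps_fun {G : Type} (R : G → G → Prop) (n : ℕ) : ∀ g g' : G, Steps R n g g' →
    ∃ Z : ℕ → G, Z 0 = g ∧ Z n = g' ∧ ∀ j < n, R (Z j) (Z (j + 1)) := by
  induction n with
  | zero =>
    intro g g' h
    exact ⟨fun _ => g, rfl, h, fun j hj => absurd hj (Nat.not_lt_zero j)⟩
  | succ n ih =>
    intro g g' h
    obtain ⟨a, h1, h2⟩ := h
    obtain ⟨Z, hZ0, hZn, hZ⟩ := ih a g' h2
    refine ⟨fun j => Nat.casesOn j g Z, rfl, hZn, ?_⟩
    intro j hj
    cases j with
    | zero =>
      show R g (Z 0)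
      rw [hZ0]
      exact h1
    | succ j =>
      show R (Z j) (Z (j + 1))
      exact hZ j (by omega)

theorem glue1 {G : Type} (R : G → G → Prop) (N : ℕ) (hN : 1 ≤ N)
    (hmix : ∀ g g', Steps R N g g') (x y : ℤ → G) (hx : ∀ m, R (x m) (x (m + 1)))
    (hy : ∀ m, R (y m) (y (m + 1))) (U U' : Set ℤ)
    (hU : ∀ m ∈ U, ∀ m' ∈ U', 2 * (N : ℤ) + 1 ≤ |m - m'|) :
    ∃ z : ℤ → G, (∀ m, R (z m) (z (m + 1))) ∧ (∀ m ∈ U, z m = x m) ∧ (∀ m ∈ U', z m = y m) := by
  classical
  have hN' : (0 : ℤ) < N := by exact_mod_cast hN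
  set X : ℤ → Prop := fun t => ∃ m ∈ U, t * N ≤ m ∧ m ≤ (t + 1) * N with hX
  set Y : ℤ → Prop := fun t => ∃ m ∈ U', t * N ≤ m ∧ m ≤ (t + 1) * N with hY
  have hXY : ∀ t t' : ℤ, X t → Y t' → (t' = t ∨ t' = t + 1 ∨ t' = t - 1) → False := by
    rintro t t' ⟨m, hm, h1, h2⟩ ⟨m', hm', h3, h4⟩ h
    have h5 := hU m hm m' hm'
    rcases le_abs'.1 h5 with h6 | h6 <;> rcases h with rfl | rfl | rfl <;> nlinarith
  set bd : ℤ → G := fun t => if Y (t - 1) ∨ Y t then y (t * N) else x (t * N) with hbd
  have hZ : ∀ t : ℤ, ∃ Z : ℕ → G, Z 0 = bd t ∧ Z N = bd (t + 1) ∧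
      (∀ j < N, R (Z j) (Z (j + 1))) ∧ (X t → ∀ j ≤ N, Z j = x (t * N + j)) ∧
      (Y t → ∀ j ≤ N, Z j = y (t * N + j)) := by
    intro t
    by_cases hXt : X t
    · have hY1 : ¬ Y (t - 1) := fun h => hXY t _ hXt h (Or.inr (Or.inr rfl))
      have hY2 : ¬ Y t := fun h => hXY t _ hXt h (Or.inl rfl)
      have hY3 : ¬ Y (t + 1) := fun h => hXY t _ hXt h (Or.inr (Or.inl rfl))
      refine ⟨fun j => x (t * N + j), ?_, ?_, ?_, fun _ j _ => rfl, fun h => absurd h hY2⟩
      · simp only [hbd]
        rw [if_neg (fun h => h.elim hY1 hY2)]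
        simp
      · simp only [hbd]
        have : t + 1 - 1 = t := by ring
        rw [this, if_neg (fun h => h.elim hY2 hY3)]
        congr 1
        ring
      · intro j _
        have h1 := hx (t * N + j)
        have h2 : t * (N : ℤ) + j + 1 = t * N + ((j + 1 : ℕ) : ℤ) := by push_cast; ring
        rw [h2] at h1
        exact h1
    · by_cases hYt : Y t
      · refine ⟨fun j => y (t * N + j), ?_, ?_, ?_, fun h => absurd h hXt, fun _ j _ => rfl⟩
        · simp only [hbd]
          rw [if_pos (Or.inr hYt)]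
          simp
        · simp only [hbd]
          have : t + 1 - 1 = t := by ring
          rw [this, if_pos (Or.inl hYt)]
          congr 1
          ring
        · intro j _
          have h1 := hy (t * N + j)
          have h2 : t * (N : ℤ) + j + 1 = t * N + ((j + 1 : ℕ) : ℤ) := by push_cast; ring
          rw [h2] at h1
          exact h1
      · obtain ⟨Z, h1, h2, h3⟩ := Glue1.steps_fun R N _ _ (hmix (bd t) (bd (t + 1)))
        exact ⟨Z, h1, h2, h3, fun h => absurd h hXt, fun h => absurd h hYt⟩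
  choose Z hZ0 hZN hZR hZX hZY using hZ
  have hdecomp : ∀ m : ℤ, ∃ j : ℕ, j < N ∧ m = (m / N) * N + j ∧ (m % N).toNat = j := by
    intro m
    have h1 := Int.emod_nonneg m hN'.ne'
    have h2 := Int.emod_lt_of_pos m hN'
    have h3 := Int.ediv_mul_add_emod m N
    refine ⟨(m % N).toNat, by omega, ?_, rfl⟩
    rw [Int.toNat_of_nonneg h1]
    exact h3.symm
  refine ⟨fun m => Z (m / N) (m % N).toNat, ?_, ?_, ?_⟩
  · intro m
    obtain ⟨j, hj, hm, hjm⟩ := hdecomp m
    show R (Z (m / N) (m % N).toNat) (Z ((m + 1) / N) ((m + 1) % N).toNat)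
    rw [hjm]
    by_cases hj1 : j + 1 < N
    · have h1 : (m + 1) / (N : ℤ) = m / N ∧ (m + 1) % (N : ℤ) = ((j + 1 : ℕ) : ℤ) := by
        rw [Int.ediv_emod_unique hN']
        refine ⟨?_, by positivity, by exact_mod_cast hj1⟩
        push_cast
        linarith [mul_comm (N : ℤ) (m / N)]
      rw [h1.1, h1.2, Int.toNat_natCast]
      exact hZR _ j hj
    · have hj2 : j + 1 = N := by omega
      have h1 : (m + 1) / (N : ℤ) = m / N + 1 ∧ (m + 1) % (N : ℤ) = 0 := by
        rw [Int.ediv_emod_unique hN']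
        refine ⟨?_, le_rfl, hN'⟩
        have : (j : ℤ) + 1 = N := by exact_mod_cast hj2
        linarith [mul_comm (N : ℤ) (m / N)]
      rw [h1.1, h1.2]
      have h2 := hZR (m / N) j hj
      rw [hj2, hZN] at h2
      have h3 : (0 : ℤ).toNat = 0 := rfl
      rw [h3, hZ0]
      exact h2
  · intro m hm
    obtain ⟨j, hj, hmj, hjm⟩ := hdecomp m
    have hXt : X (m / N) := ⟨m, hm, by
      have : (0 : ℤ) ≤ j := by positivity
      linarith, by
      have : (j : ℤ) < N := by exact_mod_cast hj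
      linarith⟩
    show Z (m / N) (m % N).toNat = x m
    rw [hjm, hZX _ hXt j hj.le, ← hmj]
  · intro m hm
    obtain ⟨j, hj, hmj, hjm⟩ := hdecomp m
    have hYt : Y (m / N) := ⟨m, hm, by
      have : (0 : ℤ) ≤ j := by positivity
      linarith, by
      have : (j : ℤ) < N := by exact_mod_cast hj
      linarith⟩
    show Z (m / N) (m % N).toNat = y m
    rw [hjm, hZY _ hYt j hj.le, ← hmj]

theorem Glue1.exists_prim {G : Type} [AddCommGroup G] (f : ℤ → G) :
    ∃ F : ℤ → G, F 0 = 0 ∧ ∀ m, F (m + 1) = F m + f m := by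
  refine ⟨fun m => (∑ i ∈ Finset.range m.toNat, f i) -
    ∑ i ∈ Finset.range (-m).toNat, f (-((i : ℤ) + 1)), by simp, ?_⟩
  intro m
  rcases lt_or_ge m 0 with hm | hm
  · obtain ⟨k, rfl⟩ : ∃ k : ℕ, m = -((k : ℤ) + 1) := ⟨(-m - 1).toNat, by omega⟩
    have h1 : (-((k : ℤ) + 1) + 1).toNat = 0 := by omega
    have h2 : (-((k : ℤ) + 1)).toNat = 0 := by omega
    have h3 : (-(-((k : ℤ) + 1) + 1)).toNat = k := by omega
    have h4 : (-(-((k : ℤ) + 1))).toNat = k + 1 := by omega
    beta_reduce
    rw [h1, h2, h3, h4, Finset.sum_range_succ]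
    simp only [Finset.range_zero, Finset.sum_empty]
    abel
  · obtain ⟨k, rfl⟩ := Int.eq_ofNat_of_zero_le hm
    have h1 : ((k : ℤ) + 1).toNat = k + 1 := by omega
    have h2 : ((k : ℤ)).toNat = k := by omega
    have h3 : (-((k : ℤ) + 1)).toNat = 0 := by omega
    have h4 : (-((k : ℤ))).toNat = 0 := by omega
    beta_reduce
    rw [h1, h2, h3, h4, Finset.sum_range_succ]
    simp

theorem exists_potential {G : Type} [AddCommGroup G] (f g : ℤ → ℤ → G)
    (h : ∀ m n, f m n + g (m + 1) n = g m n + f m (n + 1)) :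
    ∃ K : ℤ → ℤ → G, (∀ m n, K (m + 1) n = K m n + f m n) ∧
      (∀ m n, K m (n + 1) = K m n + g m n) := by
  obtain ⟨F, _, hF⟩ := Glue1.exists_prim (fun m => f m 0)
  choose P hP0 hP using fun m => Glue1.exists_prim (fun n => g m n)
  refine ⟨fun m n => F m + P m n, ?_, ?_⟩
  · intro m n
    show F (m + 1) + P (m + 1) n = F m + P m n + f m n
    induction n using Int.induction_on with
    | zero => rw [hP0, hP0, hF]; simp
    | succ n ih =>
      have e1 := hP (m + 1) n
      have e2 := hP m n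
      have e3 := h m n
      rw [e1, e2]
      have : F (m + 1) + (P (m + 1) n + g (m + 1) n) =
          (F (m + 1) + P (m + 1) n) + g (m + 1) n := by abel
      rw [this, ih]
      have : F m + P m n + f m n + g (m + 1) n = F m + P m n + (f m n + g (m + 1) n) := by abel
      rw [this, e3]
      abel
    | pred n ih =>
      have e1 := hP (m + 1) (-(n : ℤ) - 1)
      have e2 := hP m (-(n : ℤ) - 1)
      have e3 := h m (-(n : ℤ) - 1)
      simp only [sub_add_cancel] at e1 e2 e3
      rw [e1, e2] at ih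
      have h1 : F (m + 1) + P (m + 1) (-(n : ℤ) - 1) + g (m + 1) (-(n : ℤ) - 1) =
          F m + P m (-(n : ℤ) - 1) + (f m (-(n : ℤ) - 1) + g (m + 1) (-(n : ℤ) - 1)) := by
        rw [e3, add_assoc, ih]
        abel
      have h2 : F m + P m (-(n : ℤ) - 1) + (f m (-(n : ℤ) - 1) + g (m + 1) (-(n : ℤ) - 1)) =
          F m + P m (-(n : ℤ) - 1) + f m (-(n : ℤ) - 1) + g (m + 1) (-(n : ℤ) - 1) := by abel
      rw [h2] at h1
      exact add_right_cancel h1
  · intro m n
    show F m + P m (n + 1) = F m + P m n + g m n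
    rw [hP m n]
    abel

end SIE
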