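import Pool.Agent.SIE.SysDefs

set_option autoImplicit false

/-!
# The skeleton is mixing (module of MP_7034eb_an)

PAPER PROOF.  `D = 2k`; packets have length `D` (types `τ < k`) or `D + 1` (types `k ≤ τ < 2k`).
The potential `κ` is constant during a packet and increases by `em τ` when the packet ends; the
type of the next packet is free.
(1) From `(τ, s, κ)` there are exactly `len τ - s` steps to `(τ', 0, κ + em τ)`, for every
`τ' < 2k`.
(2) Write `P n κ κ'` for: for every type `τ'` there is a type `τ` with `Steps n (τ, 0, κ)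
(τ', 0, κ')`.  By (1), `P D κ (κ + c)` and `P (D+1) κ (κ + c)` for all `c : ZMod k`
(types `c.val` and `k + c.val`).  `P n κ κ'` and `P n' κ' κ''` give `P (n + n') κ κ''`.
(3) If `n ≥ D^2 + D` then `P n κ κ'` for all `κ, κ'`: write `n = D * p + u` with `u < D`, so
`p ≥ D + 1 > u`; use one packet of length `D` with emission `κ' - κ`, then `p - u - 1` packets of
length `D` and `u` packets of length `D + 1` without emission.
(4) From `(τ, s, κ)` to `(τ₂, s₂, κ₂)` in exactly `N = D^2 + 4 * D + 4` steps: first `len τ - s`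
steps to `(τ₁, 0, κ + em τ)`, with `τ₁` free; then `n = N - (len τ - s) - s₂ ≥ D^2 + D` steps to
`(τ₂, 0, κ₂)` by (3); then `s₂` steps inside the packet to `(τ₂, s₂, κ₂)`.
-/

namespace SIE

namespace SkelAux

theorem steps_add {G : Type} {R : G → G → Prop} (m n : ℕ) :
    ∀ g h g' : G, Steps R m g h → Steps R n h g' → Steps R (m + n) g g' := by
  induction m with
  | zero =>
    intro g h g' h1 h2
    rw [Nat.zero_add]
    have : g = h := h1
    rw [this]
    exact h2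
  | succ m ih =>
    intro g h g' h1 h2
    obtain ⟨x, hx, hx'⟩ := h1
    rw [show m + 1 + n = (m + n) + 1 by ring]
    exact ⟨x, hx, ih x h g' hx' h2⟩

theorem sk_ext {k : ℕ} {g g' : Sk k} (h1 : g'.τ = g.τ) (h2 : g'.s = g.s) (h3 : g'.κ = g.κ) :
    g = g' := by
  cases g
  cases g'
  simp only at h1 h2 h3
  subst h1
  subst h2
  subst h3
  rfl

theorem inside {k : ℕ} (t : ℕ) : ∀ g g' : Sk k, g'.τ = g.τ → g'.s = g.s + t → g'.κ = g.κ →
    Steps (SkR k) t g g' := by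
  induction t with
  | zero =>
    intro g g' h1 h2 h3
    exact sk_ext h1 h2 h3
  | succ t ih =>
    intro g g' h1 h2 h3
    have hs' := g'.hs
    rw [h1, h2] at hs'
    refine ⟨⟨g.τ, g.s + 1, g.κ, g.hτ, by omega⟩, ⟨fun _ => ⟨rfl, rfl⟩, fun h => ?_, ?_⟩,
      ih _ g' h1 ?_ h3⟩
    · omega
    · unfold emit
      rw [if_neg (by omega)]
      simp
    · rw [h2]
      show g.s + (t + 1) = g.s + 1 + t
      omega

theorem finish {k : ℕ} (g g' : Sk k) (h1 : g'.s = 0) (h2 : g'.κ = g.κ + (em k g.τ : ℕ)) :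
    Steps (SkR k) (len k g.τ - g.s) g g' := by
  have hs := g.hs
  obtain ⟨h, hh⟩ : ∃ h : Sk k, h = ⟨g.τ, len k g.τ - 1, g.κ, g.hτ, by omega⟩ := ⟨_, rfl⟩
  have e1 : h.τ = g.τ := by rw [hh]
  have e2 : h.s = len k g.τ - 1 := by rw [hh]
  have e3 : h.κ = g.κ := by rw [hh]
  have s1 : Steps (SkR k) (len k g.τ - 1 - g.s) g h := inside _ g h e1 (by omega) e3
  have s2 : Steps (SkR k) 1 h g' := by
    refine ⟨g', ⟨fun hne => ?_, fun _ => h1, ?_⟩, rfl⟩
    · exfalso
      apply hne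
      rw [e1, e2]
      omega
    · have he : h.s + 1 = len k h.τ := by
        rw [e1, e2]
        omega
      unfold emit
      rw [if_pos he, e1, e3, h2]
  have s3 := steps_add _ _ _ _ _ s1 s2
  rw [show len k g.τ - 1 - g.s + 1 = len k g.τ - g.s by omega] at s3
  exact s3

/-- for every type of the next packet there is a suitable type of the first packet -/
def P (k n : ℕ) (κ κ' : ZMod k) : Prop :=
  ∀ g' : Sk k, g'.s = 0 → g'.κ = κ' → ∃ g : Sk k, g.s = 0 ∧ g.κ = κ ∧ Steps (SkR k) n g g'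

theorem P_trans {k n n' : ℕ} {κ κ' κ'' : ZMod k} (h : P k n κ κ') (h' : P k n' κ' κ'') :
    P k (n + n') κ κ'' := by
  intro g'' h1 h2
  obtain ⟨g', a1, a2, a3⟩ := h' g'' h1 h2
  obtain ⟨g, b1, b2, b3⟩ := h g' a1 a2
  exact ⟨g, b1, b2, steps_add _ _ _ _ _ b3 a3⟩

theorem P_type {k : ℕ} (τ : ℕ) (hτ : τ < 2 * k) (hk : 1 ≤ k) (κ : ZMod k) :
    P k (len k τ) κ (κ + (em k τ : ℕ)) := by
  intro g' h1 h2
  have hl : 0 < len k τ := by
    unfold len
    exact Nat.lt_of_lt_of_le (by omega : 0 < 2 * k) (Nat.le_add_right _ _)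
  refine ⟨⟨τ, 0, κ, hτ, hl⟩, rfl, rfl, ?_⟩
  have := finish ⟨τ, 0, κ, hτ, hl⟩ g' h1 h2
  simpa using this

theorem P_D {k : ℕ} (hk : 1 ≤ k) (κ κ' : ZMod k) : P k (2 * k) κ κ' := by
  have : NeZero k := ⟨by omega⟩
  have hv := ZMod.val_lt (κ' - κ)
  have h := P_type (k := k) (κ' - κ).val (by omega) hk κ
  have e1 : len k (κ' - κ).val = 2 * k := by
    unfold len
    rw [Nat.div_eq_of_lt hv]
    rfl
  have e2 : ((em k (κ' - κ).val : ℕ) : ZMod k) = κ' - κ := by
    unfold em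
    rw [Nat.mod_eq_of_lt hv]
    exact ZMod.natCast_zmod_val _
  rw [e1, e2, add_sub_cancel] at h
  exact h

theorem P_D1 {k : ℕ} (hk : 1 ≤ k) (κ κ' : ZMod k) : P k (2 * k + 1) κ κ' := by
  have : NeZero k := ⟨by omega⟩
  have hv := ZMod.val_lt (κ' - κ)
  have h := P_type (k := k) (k + (κ' - κ).val) (by omega) hk κ
  have e1 : len k (k + (κ' - κ).val) = 2 * k + 1 := by
    unfold len
    rw [Nat.add_div_left _ (by omega : 0 < k), Nat.div_eq_of_lt hv]
  have e2 : ((em k (k + (κ' - κ).val) : ℕ) : ZMod k) = κ' - κ := by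
    unfold em
    rw [Nat.add_mod_left, Nat.mod_eq_of_lt hv]
    exact ZMod.natCast_zmod_val _
  rw [e1, e2, add_sub_cancel] at h
  exact h

theorem P_many {k : ℕ} (hk : 1 ≤ k) (a b : ℕ) (κ κ' : ZMod k) :
    P k (2 * k + a * (2 * k) + b * (2 * k + 1)) κ κ' := by
  induction b with
  | zero =>
    induction a with
    | zero =>
      simpa using P_D hk κ κ'
    | succ a ih =>
      have := P_trans ih (P_D hk κ' κ')
      rw [show 2 * k + (a + 1) * (2 * k) + 0 * (2 * k + 1) =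
        2 * k + a * (2 * k) + 0 * (2 * k + 1) + 2 * k by ring]
      exact this
  | succ b ih =>
    have := P_trans ih (P_D1 hk κ' κ')
    rw [show 2 * k + a * (2 * k) + (b + 1) * (2 * k + 1) =
      2 * k + a * (2 * k) + b * (2 * k + 1) + (2 * k + 1) by ring]
    exact this

theorem P_large {k : ℕ} (hk : 1 ≤ k) (n : ℕ) (hn : (2 * k) ^ 2 + 2 * k ≤ n) (κ κ' : ZMod k) :
    P k n κ κ' := by
  obtain ⟨D, hD⟩ : ∃ D, D = 2 * k := ⟨_, rfl⟩
  have hD0 : 0 < D := by omega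
  have h1 := Nat.div_add_mod n D
  have h2 := Nat.mod_lt n hD0
  have h3 : D + 1 ≤ n / D := by
    rw [Nat.le_div_iff_mul_le hD0]
    calc (D + 1) * D = D ^ 2 + D := by ring
      _ ≤ n := by rw [hD]; exact hn
  obtain ⟨a, ha⟩ : ∃ a, n / D = a + n % D + 1 := ⟨n / D - n % D - 1, by omega⟩
  have h4 := P_many hk a (n % D) κ κ'
  have h5 : 2 * k + a * (2 * k) + n % D * (2 * k + 1) = n := by
    rw [← hD]
    calc D + a * D + n % D * (D + 1) = D * (a + n % D + 1) + n % D := by ring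
      _ = n := by rw [← ha]; exact h1
  rw [h5] at h4
  exact h4

end SkelAux

open SkelAux

theorem skel_mix (k : ℕ) (hk : 1 ≤ k) :
    ∃ N : ℕ, 1 ≤ N ∧ ∀ g g' : Sk k, Steps (SkR k) N g g' := by
  refine ⟨(2 * k) ^ 2 + 4 * (2 * k) + 4, by omega, ?_⟩
  intro g g'
  have hlen : ∀ τ, τ < 2 * k → len k τ ≤ 2 * k + 1 := by
    intro τ hτ
    unfold len
    have : τ / k < 2 := Nat.div_lt_of_lt_mul (by omega)
    omega
  have l1 := hlen g.τ g.hτ
  have l2 := hlen g'.τ g'.hτ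
  have s1 := g.hs
  have s2 := g'.hs
  obtain ⟨n, hn⟩ : ∃ n, (2 * k) ^ 2 + 4 * (2 * k) + 4 = (len k g.τ - g.s) + (n + g'.s) :=
    ⟨(2 * k) ^ 2 + 4 * (2 * k) + 4 - (len k g.τ - g.s) - g'.s, by omega⟩
  have hn2 : (2 * k) ^ 2 + 2 * k ≤ n := by omega
  have hl0 : 0 < len k g'.τ := by omega
  obtain ⟨g1, a1, a2, a3⟩ := P_large hk n hn2 (g.κ + (em k g.τ : ℕ)) g'.κ
    ⟨g'.τ, 0, g'.κ, g'.hτ, hl0⟩ rfl rfl
  have b1 := finish g g1 a1 a2
  have b2 : Steps (SkR k) g'.s ⟨g'.τ, 0, g'.κ, g'.hτ, hl0⟩ g' :=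
    inside _ _ _ rfl (by simp) rfl
  rw [hn]
  exact steps_add _ _ _ _ _ b1 (steps_add _ _ _ _ _ a3 b2)

end SIE
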