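import Pool.Agent.SIE.Sys
import Pool.Agent.SIE.Glue1
import Pool.Agent.SIE.Skel

set_option autoImplicit false

/-!
# The explicit system is strongly irreducible (module of MP_7034eb_an)

PAPER PROOF.  For `x ∈ Sys2 (HA k A) (VA k A)` write `x.J m n` etc. for the components.
In `ZMod k` one has `J (m+1) n = J m n + 1 + b m n - b m (n+1)`, so by `exists_potential` there is
`K : ℤ → ℤ → ZMod k` with `K (m+1) n = K m n + b m n` and `K m (n+1) = K m n + (m - J m n)`.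
With `κ m n = K m (n+1)` the sequences `g m = (τ m n, s m n, κ m n)` are paths of the skeleton
`SkR k`, for every row `n`; and `J m n = m - κ m n + κ m (n-1)` in `ZMod k`.

Let `x, y` be points with potentials `κx, κy`, and `F, G ⊆ ℤ²` at distance `≥ M`,
`M = 2 * N + 1 + 2 * (2k + 3)` with `N` from `skel_mix`.  Put
`U n = {m : ∃ m', |m - m'| ≤ 2k + 3 ∧ ((m', n) ∈ F ∨ (m', n+1) ∈ F)}` and `U' n` similarly with
`G`; their points are at distance `≥ 2N + 1`.  By `glue1` there are skeleton paths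
`gz m n = (τz, sz, κz)` in every row which agree with those of `x` on `U n` and with those of `y`
on `U' n`.  Define `z`:
* `bz m n = emit (τz m (n-1)) (sz m (n-1))`,
* `θ m n = m - κz m n + κz m (n-1) ∈ ZMod k`, which satisfies `θ (m+1) n = θ m n + 1 + bz m n -
  emit (τz m n) (sz m n)`,
* `Jz m n = (θ (m - sz m n) n).val + ∑_{r < sz m n} (1 + bz (m - 1 - r) n)`; then
  `Jz m n = θ m n` in `ZMod k`, `s ≤ Jz < k * (s+1)`, and `Jz` satisfies the recursion,
* `vz m n = V (m - sz m n) n` where `V m₀ n = vx m₀ n` if `m₀ ∈ U n` and `vy m₀ n` otherwise,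
* `az m n`: `0` if `m` is not the last site of its packet; at the last site, some
  `a < (A ^ e) (vz m n) (vz (m+1) n)` with `a % (2k) = τz (m+1) n`; such `a` exists, e.g.
  `a = τz (m+1) n`, because `e ≥ 1` and then all entries of `A ^ e` are `≥ 2k`.  At sites of `F`
  take the `a` of `x` and at sites of `G` the `a` of `y`.
At `(m, n) ∈ F`: `m, m - s, …, m` and `m + 1` lie in `U n` and `U (n-1)`, so `τ, s, b, J` of `z` are
those of `x` there (the phase at the start `m₀ = m - s` of the packet is `θ m₀ n`, equal to that of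
`x`), `vz m n = vx m₀ n = vx m n`, `vz (m+1) n = vx (m+1) n` if `m + 1` starts a packet;
so the `a` of `x` is allowed.
-/

namespace SIE

variable {q : ℕ} {k : ℕ} {A : Matrix (Fin q) (Fin q) ℕ}

lemma em_le_of_good {p : Sym q} (hp : Good k A p) (hs : p.s + 1 = len k p.τ) :
    em k p.τ ≤ p.J + 1 + p.b := by
  have h1 := le_len k p.τ
  have h2 := hp.2.2.1
  have h3 : em k p.τ < k := em_lt (by have := hp.1; omega) _
  omega

lemma phase {p p' : Sym q} (hp : Good k A p) (h : Hr k A p p') :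
    (p'.J : ZMod k) = (p.J : ZMod k) + 1 + (p.b : ZMod k) - (emit k p.τ p.s : ℕ) := by
  by_cases hs : p.s + 1 = len k p.τ
  · obtain ⟨-, h2, -, -⟩ := h.2 hs
    rw [h2, ZMod.natCast_mod, Nat.cast_sub (em_le_of_good hp hs)]
    unfold emit
    rw [if_pos hs]
    push_cast
    ring
  · obtain ⟨-, h2, -, -⟩ := h.1 hs
    rw [h2]
    unfold emit
    rw [if_neg hs]
    push_cast
    ring

lemma exists_kappa (x : ℤ → ℤ → Al k A) (hx : x ∈ Sys2 (HA k A) (VA k A)) :
    ∃ κ : ℤ → ℤ → ZMod k,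
      (∀ m n, κ (m + 1) n = κ m n + (emit k (x m n).1.τ (x m n).1.s : ℕ)) ∧
      (∀ m n, ((x m n).1.J : ZMod k) = (m : ZMod k) - κ m n + κ m (n - 1)) := by
  obtain ⟨K, hK1, hK2⟩ := exists_potential (fun m n => ((x m n).1.b : ZMod k))
    (fun m n => (m : ZMod k) - ((x m n).1.J : ZMod k)) (by
      intro m n
      have h1 := phase (x m n).2 (hx m n).1
      have h2 : (x m (n + 1)).1.b = emit k (x m n).1.τ (x m n).1.s := (hx m n).2
      rw [h1, h2]
      push_cast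
      ring)
  refine ⟨fun m n => K m (n + 1), fun m n => ?_, fun m n => ?_⟩
  · have h2 : (x m (n + 1)).1.b = emit k (x m n).1.τ (x m n).1.s := (hx m n).2
    show K (m + 1) (n + 1) = K m (n + 1) + _
    rw [hK1, h2]
  · show _ = (m : ZMod k) - K m (n + 1) + K m (n - 1 + 1)
    rw [hK2, sub_add_cancel]
    ring

lemma packet (x : ℤ → Al k A) (hx : ∀ m, HA k A (x m) (x (m + 1))) (m : ℤ) :
    ∀ r : ℕ, r ≤ (x m).1.s → (x (m - r)).1.s = (x m).1.s - r ∧
      (x (m - r)).1.τ = (x m).1.τ ∧ (x (m - r)).1.v = (x m).1.v ∧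
      (x m).1.J = (x (m - r)).1.J + ∑ i ∈ Finset.range r, (1 + (x (m - 1 - i)).1.b) := by
  intro r
  induction r with
  | zero => intro _; simp
  | succ r ih =>
    intro hr
    obtain ⟨h1, h2, h3, h4⟩ := ih (by omega)
    have hstep := hx (m - ((r + 1 : ℕ) : ℤ))
    have he : m - ((r + 1 : ℕ) : ℤ) + 1 = m - r := by push_cast; ring
    rw [he] at hstep
    have hnl : (x (m - ((r + 1 : ℕ) : ℤ))).1.s + 1 ≠ len k (x (m - ((r + 1 : ℕ) : ℤ))).1.τ := by
      intro hl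
      have := (hstep.2 hl).1
      omega
    obtain ⟨g1, g2, g3, g4⟩ := hstep.1 hnl
    refine ⟨by omega, by rw [← g3, h2], by rw [← g4, h3], ?_⟩
    rw [h4, g2, Finset.sum_range_succ]
    have : m - 1 - (r : ℤ) = m - ((r + 1 : ℕ) : ℤ) := by push_cast; ring
    rw [this]
    ring

section construction

variable (g : ℤ → ℤ → Sk k) (Vst : ℤ → ℤ → Fin q)

/-- emitted charge -/
def eg (m n : ℤ) : ℕ := emit k (g n m).τ (g n m).s
/-- charge from below -/
def bg (m n : ℤ) : ℕ := eg g m (n - 1)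
/-- the phase -/
def θg (m n : ℤ) : ZMod k := (m : ZMod k) - (g n m).κ + (g (n - 1) m).κ
/-- the accumulated exponent -/
def Jg (m n : ℤ) : ℕ := (θg g (m - (g n m).s) n).val +
  ∑ r ∈ Finset.range (g n m).s, (1 + bg g (m - 1 - r) n)
/-- the state -/
def vg (m n : ℤ) : Fin q := Vst (m - (g n m).s) n

variable {g} {Vst}

lemma θg_step (hg : ∀ n m, SkR k (g n m) (g n (m + 1))) (m n : ℤ) :
    θg g (m + 1) n = θg g m n + 1 + (bg g m n : ℕ) - (eg g m n : ℕ) := by
  unfold θg bg eg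
  rw [(hg n m).2.2, (hg (n - 1) m).2.2]
  push_cast
  ring

lemma s_pred (hg : ∀ n m, SkR k (g n m) (g n (m + 1))) (m n : ℤ) (s : ℕ)
    (hs : (g n m).s = s + 1) : (g n (m - 1)).s = s ∧
      (g n (m - 1)).s + 1 ≠ len k (g n (m - 1)).τ := by
  have h := hg n (m - 1)
  rw [sub_add_cancel] at h
  have hnl : (g n (m - 1)).s + 1 ≠ len k (g n (m - 1)).τ := by
    intro hl
    have := h.2.1 hl
    omega
  exact ⟨by have := (h.1 hnl).1; omega, hnl⟩

lemma Jg_step (hg : ∀ n m, SkR k (g n m) (g n (m + 1))) (m n : ℤ)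
    (hs : (g n m).s + 1 ≠ len k (g n m).τ) : Jg g (m + 1) n = Jg g m n + 1 + bg g m n := by
  have h := ((hg n m).1 hs).1
  unfold Jg
  rw [h, Finset.sum_range_succ']
  have h1 : m + 1 - (((g n m).s + 1 : ℕ) : ℤ) = m - (g n m).s := by push_cast; ring
  rw [h1]
  have h2 : ∀ i : ℕ, m + 1 - 1 - ((i + 1 : ℕ) : ℤ) = m - 1 - i := by
    intro i; push_cast; ring
  simp_rw [h2]
  have h3 : m + 1 - 1 - ((0 : ℕ) : ℤ) = m := by push_cast; ring
  rw [h3]
  ring

lemma vg_step (hg : ∀ n m, SkR k (g n m) (g n (m + 1))) (m n : ℤ)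
    (hs : (g n m).s + 1 ≠ len k (g n m).τ) : vg g Vst (m + 1) n = vg g Vst m n := by
  have h := ((hg n m).1 hs).1
  unfold vg
  rw [h]
  congr 1
  push_cast
  ring

lemma Jg_cast [NeZero k] (hg : ∀ n m, SkR k (g n m) (g n (m + 1))) (n : ℤ) : ∀ (s : ℕ) (m : ℤ),
    (g n m).s = s → (Jg g m n : ZMod k) = θg g m n := by
  intro s
  induction s with
  | zero =>
    intro m hm
    unfold Jg
    rw [hm]
    simp
  | succ s ih =>
    intro m hm
    obtain ⟨h1, h2⟩ := s_pred hg m n s hm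
    have h3 := ih (m - 1) h1
    have h4 := Jg_step hg (m - 1) n h2
    have h5 := θg_step hg (m - 1) n
    rw [sub_add_cancel] at h4 h5
    have h6 : eg g (m - 1) n = 0 := by
      unfold eg emit
      rw [if_neg h2]
    rw [h4, h5, h6]
    push_cast
    rw [h3]
    ring

lemma bg_lt (hk : 1 ≤ k) (m n : ℤ) : bg g m n < k := emit_lt hk _ _

lemma Jg_bounds [NeZero k] (m n : ℤ) :
    (g n m).s ≤ Jg g m n ∧ Jg g m n < k * ((g n m).s + 1) := by
  have hk : 1 ≤ k := Nat.one_le_iff_ne_zero.2 (NeZero.ne k)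
  unfold Jg
  have h1 : (θg g (m - (g n m).s) n).val < k := ZMod.val_lt _
  have h2 : (g n m).s ≤ ∑ r ∈ Finset.range (g n m).s, (1 + bg g (m - 1 - r) n) := by
    calc (g n m).s = ∑ r ∈ Finset.range (g n m).s, 1 := by simp
      _ ≤ _ := Finset.sum_le_sum fun r _ => by omega
  have h3 : ∑ r ∈ Finset.range (g n m).s, (1 + bg g (m - 1 - r) n) ≤ (g n m).s * k := by
    calc _ ≤ ∑ r ∈ Finset.range (g n m).s, k := Finset.sum_le_sum fun r _ => by
          have := bg_lt (g := g) hk (m - 1 - r) n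
          omega
      _ = (g n m).s * k := by simp
  constructor
  · omega
  · calc _ < k + (g n m).s * k := by omega
      _ = _ := by ring

/-- agreement with a point `w` of the system -/
lemma agree [NeZero k] (w : ℤ → ℤ → Al k A)
    (hw : w ∈ Sys2 (HA k A) (VA k A)) (κ : ℤ → ℤ → ZMod k)
    (hκ : ∀ m n, ((w m n).1.J : ZMod k) = (m : ZMod k) - κ m n + κ m (n - 1)) (m n : ℤ)
    (h : ∀ m' : ℤ, |m' - m| ≤ 2 * (k : ℤ) + 3 →
      ((g n m').τ = (w m' n).1.τ ∧ (g n m').s = (w m' n).1.s ∧ (g n m').κ = κ m' n) ∧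
      ((g (n - 1) m').τ = (w m' (n - 1)).1.τ ∧ (g (n - 1) m').s = (w m' (n - 1)).1.s ∧
        (g (n - 1) m').κ = κ m' (n - 1)) ∧ Vst m' n = (w m' n).1.v) :
    vg g Vst m n = (w m n).1.v ∧ Jg g m n = (w m n).1.J ∧ (g n m).τ = (w m n).1.τ ∧
      (g n m).s = (w m n).1.s ∧ bg g m n = (w m n).1.b ∧
      ((w m n).1.s + 1 = len k (w m n).1.τ → (w m n).1.a % (2 * k) = (g n (m + 1)).τ ∧
        (w m n).1.a < (A ^ stp k (w m n).1) (vg g Vst m n) (vg g Vst (m + 1) n)) := by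
  have hk : 1 ≤ k := Nat.one_le_iff_ne_zero.2 (NeZero.ne k)
  obtain ⟨⟨a1, a2, a3⟩, -, -⟩ := h m (by simp; omega)
  have hslt : (w m n).1.s < 2 * k + 1 := by
    have h1 := (w m n).2.2.1
    have h2 := len_lt (w m n).2.1
    omega
  have hrow : ∀ m, HA k A (w m n) (w (m + 1) n) := fun m => (hw m n).1
  -- the start of the packet
  obtain ⟨p1, p2, p3, p4⟩ := packet (fun m => w m n) hrow m (w m n).1.s le_rfl
  rw [Nat.sub_self] at p1
  have hm0 : |(m - ((w m n).1.s : ℤ)) - m| ≤ 2 * (k : ℤ) + 3 := by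
    rw [abs_le]; constructor <;> omega
  obtain ⟨⟨b1, b2, b3⟩, ⟨b4, b5, b6⟩, b7⟩ := h _ hm0
  have hv : vg g Vst m n = (w m n).1.v := by
    unfold vg
    rw [a2, b7, p3]
  -- charges from below
  have hb : ∀ m' : ℤ, |m' - m| ≤ 2 * (k : ℤ) + 3 → bg g m' n = (w m' n).1.b := by
    intro m' hm'
    obtain ⟨-, ⟨c1, c2, -⟩, -⟩ := h m' hm'
    have h2 : (w m' (n - 1 + 1)).1.b = emit k (w m' (n - 1)).1.τ (w m' (n - 1)).1.s :=
      (hw m' (n - 1)).2
    rw [sub_add_cancel] at h2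
    unfold bg eg
    rw [c1, c2, h2]
  have hJ : Jg g m n = (w m n).1.J := by
    unfold Jg
    rw [a2]
    have h1 : θg g (m - ((w m n).1.s : ℤ)) n = ((w (m - ((w m n).1.s : ℤ)) n).1.J : ZMod k) := by
      unfold θg
      rw [b3, b6, hκ]
    have h2 : (w (m - ((w m n).1.s : ℤ)) n).1.J < k := by
      have := (w (m - ((w m n).1.s : ℤ)) n).2.2.2.2.1
      rw [p1] at this
      simpa using this
    rw [h1, ZMod.val_natCast, Nat.mod_eq_of_lt h2]
    conv_rhs => rw [p4]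
    congr 1
    refine Finset.sum_congr rfl fun r hr => ?_
    rw [Finset.mem_range] at hr
    rw [hb]
    rw [abs_le]; constructor <;> omega
  refine ⟨hv, hJ, a1, a2, hb m (by simp; omega), ?_⟩
  intro hl
  obtain ⟨e1, e2, e3, e4⟩ := (hrow m).2 hl
  obtain ⟨⟨d1, d2, d3⟩, -, d7⟩ := h (m + 1) (by
    rw [show m + 1 - m = 1 by ring, abs_one]; omega)
  refine ⟨by rw [d1, e3], ?_⟩
  have hv' : vg g Vst (m + 1) n = (w (m + 1) n).1.v := by
    unfold vg
    rw [d2, e1]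
    simpa using d7
  rw [hv, hv']
  exact e4

end construction

lemma entries_ge (hq : 0 < q) (hA : ∀ v w, 2 * k ≤ A v w) (hk : 1 ≤ k) :
    ∀ e : ℕ, 1 ≤ e → ∀ v w, 2 * k ≤ (A ^ e) v w := by
  intro e he
  induction e, he using Nat.le_induction with
  | base => intro v w; rw [pow_one]; exact hA v w
  | succ n hn ih =>
    intro v w
    rw [pow_succ, Matrix.mul_apply]
    calc 2 * k ≤ (A ^ n) v ⟨0, hq⟩ * A ⟨0, hq⟩ w := by
          have h1 := ih v ⟨0, hq⟩
          have h2 := hA ⟨0, hq⟩ w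
          calc 2 * k = 2 * k * 1 := by ring
            _ ≤ (A ^ n) v ⟨0, hq⟩ * A ⟨0, hq⟩ w := Nat.mul_le_mul h1 (by omega)
      _ ≤ _ := Finset.single_le_sum (f := fun u => (A ^ n) v u * A u w)
          (fun _ _ => Nat.zero_le _) (Finset.mem_univ _)

/-- every skeleton together with a choice of states carries a point of the system, with
prescribed copy indices where these are allowed -/
lemma exists_point [NeZero k] (hq : 0 < q) (hA : ∀ v w, 2 * k ≤ A v w) (g : ℤ → ℤ → Sk k)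
    (hg : ∀ n m, SkR k (g n m) (g n (m + 1))) (Vst : ℤ → ℤ → Fin q) (pref : ℤ → ℤ → ℕ) :
    ∃ z ∈ Sys2 (HA k A) (VA k A), ∀ m n, (z m n).1.v = vg g Vst m n ∧
      (z m n).1.J = Jg g m n ∧ (z m n).1.τ = (g n m).τ ∧ (z m n).1.s = (g n m).s ∧
      (z m n).1.b = bg g m n ∧
      ((g n m).s + 1 ≠ len k (g n m).τ → (z m n).1.a = 0) ∧
      ((g n m).s + 1 = len k (g n m).τ → pref m n % (2 * k) = (g n (m + 1)).τ →
        pref m n < (A ^ ((Jg g m n + 1 + bg g m n - em k (g n m).τ) / k)) (vg g Vst m n)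
          (vg g Vst (m + 1) n) → (z m n).1.a = pref m n) := by
  classical
  have hk : 1 ≤ k := Nat.one_le_iff_ne_zero.2 (NeZero.ne k)
  -- the copy index
  have hex : ∀ m n : ℤ, ∃ a : ℕ, ((g n m).s + 1 ≠ len k (g n m).τ → a = 0) ∧
      ((g n m).s + 1 = len k (g n m).τ → a % (2 * k) = (g n (m + 1)).τ ∧
        a < (A ^ ((Jg g m n + 1 + bg g m n - em k (g n m).τ) / k)) (vg g Vst m n)
          (vg g Vst (m + 1) n)) ∧
      ((g n m).s + 1 = len k (g n m).τ → pref m n % (2 * k) = (g n (m + 1)).τ →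
        pref m n < (A ^ ((Jg g m n + 1 + bg g m n - em k (g n m).τ) / k)) (vg g Vst m n)
          (vg g Vst (m + 1) n) → a = pref m n) := by
    intro m n
    by_cases hl : (g n m).s + 1 = len k (g n m).τ
    · by_cases hp : pref m n % (2 * k) = (g n (m + 1)).τ ∧
          pref m n < (A ^ ((Jg g m n + 1 + bg g m n - em k (g n m).τ) / k)) (vg g Vst m n)
            (vg g Vst (m + 1) n)
      · exact ⟨pref m n, fun h => absurd hl h, fun _ => hp, fun _ _ _ => rfl⟩
      · refine ⟨(g n (m + 1)).τ, fun h => absurd hl h, fun _ => ⟨?_, ?_⟩,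
          fun _ h1 h2 => absurd ⟨h1, h2⟩ hp⟩
        · exact Nat.mod_eq_of_lt (g n (m + 1)).hτ
        · refine lt_of_lt_of_le (g n (m + 1)).hτ (entries_ge hq hA hk _ ?_ _ _)
          rw [Nat.le_div_iff_mul_le hk]
          have h1 := (Jg_bounds (g := g) m n).1
          have h2 := le_len k (g n m).τ
          have h3 := em_lt hk (g n m).τ
          omega
    · exact ⟨0, fun _ => rfl, fun h => absurd h hl, fun h => absurd h hl⟩
  choose a ha1 ha2 ha3 using hex
  have hgood : ∀ m n : ℤ, Good k A (⟨vg g Vst m n, Jg g m n, (g n m).τ, (g n m).s, bg g m n,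
      a m n⟩ : Sym q) := by
    intro m n
    refine ⟨(g n m).hτ, (g n m).hs, (Jg_bounds m n).1, (Jg_bounds m n).2, bg_lt hk m n,
      ha1 m n, fun hl => ⟨vg g Vst (m + 1) n, (ha2 m n hl).2⟩⟩
  refine ⟨fun m n => ⟨_, hgood m n⟩, fun m n => ⟨⟨?_, ?_⟩, ?_⟩, fun m n =>
    ⟨rfl, rfl, rfl, rfl, rfl, ha1 m n, ha3 m n⟩⟩
  · intro hl
    have h := (hg n m).1 hl
    exact ⟨h.1, Jg_step hg m n hl, h.2, vg_step hg m n hl⟩
  · intro hl
    have hs : (g n (m + 1)).s = 0 := (hg n m).2.1 hl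
    refine ⟨hs, ?_, ((ha2 m n hl).1).symm, (ha2 m n hl).2⟩
    have h1 : Jg g (m + 1) n < k := by
      have := (Jg_bounds (g := g) (m + 1) n).2
      rw [hs] at this
      simpa using this
    have h2 : ((Jg g (m + 1) n : ℕ) : ZMod k) =
        ((Jg g m n + 1 + bg g m n - em k (g n m).τ : ℕ) : ZMod k) := by
      have hle : em k (g n m).τ ≤ Jg g m n + 1 + bg g m n := by
        have h1 := (Jg_bounds (g := g) m n).1
        have h2 := le_len k (g n m).τ
        have h3 := em_lt hk (g n m).τ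
        simp only at hl
        omega
      rw [Jg_cast hg n 0 (m + 1) hs, θg_step hg m n, Nat.cast_sub hle]
      have h4 : eg g m n = em k (g n m).τ := by
        unfold eg emit
        rw [if_pos hl]
      rw [h4]
      push_cast
      rw [Jg_cast hg n _ m rfl]
    have h3 := (ZMod.natCast_eq_natCast_iff' _ _ _).1 h2
    rw [Nat.mod_eq_of_lt h1] at h3
    exact h3
  · show bg g m (n + 1) = emit k (g n m).τ (g n m).s
    unfold bg eg
    rw [add_sub_cancel_right]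

theorem sys_SI {q : ℕ} (k : ℕ) (A : Matrix (Fin q) (Fin q) ℕ) (hk : 1 ≤ k) (hq : 0 < q)
    (hA : ∀ v w, 2 * k ≤ A v w) : SI2 (Sys2 (HA k A) (VA k A)) := by
  classical
  have : NeZero k := ⟨by omega⟩
  obtain ⟨N, hN, hmix⟩ := skel_mix k hk
  refine ⟨2 * N + 1 + 2 * (2 * k + 3), by omega, ?_⟩
  intro F G hFG x hx y hy
  obtain ⟨κx, hκx1, hκx2⟩ := exists_kappa x hx
  obtain ⟨κy, hκy1, hκy2⟩ := exists_kappa y hy
  -- skeletons
  let gx : ℤ → ℤ → Sk k := fun n m =>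
    ⟨(x m n).1.τ, (x m n).1.s, κx m n, (x m n).2.1, (x m n).2.2.1⟩
  let gy : ℤ → ℤ → Sk k := fun n m =>
    ⟨(y m n).1.τ, (y m n).1.s, κy m n, (y m n).2.1, (y m n).2.2.1⟩
  have hgx : ∀ n m, SkR k (gx n m) (gx n (m + 1)) := fun n m =>
    ⟨fun h => ⟨((hx m n).1.1 h).1, ((hx m n).1.1 h).2.2.1⟩, fun h => ((hx m n).1.2 h).1,
      hκx1 m n⟩
  have hgy : ∀ n m, SkR k (gy n m) (gy n (m + 1)) := fun n m =>
    ⟨fun h => ⟨((hy m n).1.1 h).1, ((hy m n).1.1 h).2.2.1⟩, fun h => ((hy m n).1.2 h).1,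
      hκy1 m n⟩
  let U : ℤ → Set ℤ := fun n => {m | ∃ m', |m - m'| ≤ 2 * (k : ℤ) + 3 ∧
    ((m', n) ∈ F ∨ (m', n + 1) ∈ F)}
  let U' : ℤ → Set ℤ := fun n => {m | ∃ m', |m - m'| ≤ 2 * (k : ℤ) + 3 ∧
    ((m', n) ∈ G ∨ (m', n + 1) ∈ G)}
  have hUU : ∀ n, ∀ m ∈ U n, ∀ m' ∈ U' n, 2 * (N : ℤ) + 1 ≤ |m - m'| := by
    rintro n m1 ⟨m1', h1, h1F⟩ m2 ⟨m2', h2, h2G⟩
    have key : ∀ n1 n2 : ℤ, |n1 - n2| ≤ 1 → (m1', n1) ∈ F → (m2', n2) ∈ G →
        2 * (N : ℤ) + 1 ≤ |m1 - m2| := by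
      intro n1 n2 h12 hF hG
      rcases hFG _ hF _ hG with h | h
      · simp only at h
        push_cast at h
        have e1 : |m1' - m2'| ≤ |m1 - m1'| + |m1 - m2| + |m2 - m2'| := by
          have : m1' - m2' = -(m1 - m1') + (m1 - m2) + (m2 - m2') := by ring
          rw [this]
          calc _ ≤ |-(m1 - m1') + (m1 - m2)| + |m2 - m2'| := abs_add_le _ _
            _ ≤ |-(m1 - m1')| + |m1 - m2| + |m2 - m2'| := by
                have := abs_add_le (-(m1 - m1')) (m1 - m2)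
                omega
            _ = _ := by rw [abs_neg]
        omega
      · simp only at h
        push_cast at h
        omega
    rcases h1F with hF | hF <;> rcases h2G with hG | hG
    · exact key n n (by simp) hF hG
    · exact key n (n + 1) (by simp) hF hG
    · exact key (n + 1) n (by simp) hF hG
    · exact key (n + 1) (n + 1) (by simp) hF hG
  have hrow : ∀ n, ∃ z : ℤ → Sk k, (∀ m, SkR k (z m) (z (m + 1))) ∧
      (∀ m ∈ U n, z m = gx n m) ∧ (∀ m ∈ U' n, z m = gy n m) := fun n =>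
    glue1 (SkR k) N hN hmix (gx n) (gy n) (hgx n) (hgy n) (U n) (U' n) (hUU n)
  choose g hg hgU hgU' using hrow
  let Vst : ℤ → ℤ → Fin q := fun m n => if m ∈ U n then (x m n).1.v else (y m n).1.v
  obtain ⟨z, hz, hzd⟩ := exists_point hq hA g hg Vst
    (fun m n => if (m, n) ∈ F then (x m n).1.a else (y m n).1.a)
  have hdisj : ∀ s : ℤ × ℤ, s ∈ F → s ∉ G := by
    intro s hs hs'
    rcases hFG s hs s hs' with h | h <;> · simp at h; omega
  have final : ∀ (w : ℤ → ℤ → Al k A) (_ : w ∈ Sys2 (HA k A) (VA k A)) (κ : ℤ → ℤ → ZMod k)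
      (_ : ∀ m n, ((w m n).1.J : ZMod k) = (m : ZMod k) - κ m n + κ m (n - 1)) (m n : ℤ)
      (_ : ∀ m' : ℤ, |m' - m| ≤ 2 * (k : ℤ) + 3 →
      ((g n m').τ = (w m' n).1.τ ∧ (g n m').s = (w m' n).1.s ∧ (g n m').κ = κ m' n) ∧
      ((g (n - 1) m').τ = (w m' (n - 1)).1.τ ∧ (g (n - 1) m').s = (w m' (n - 1)).1.s ∧
        (g (n - 1) m').κ = κ m' (n - 1)) ∧ Vst m' n = (w m' n).1.v)
      (_ : (if (m, n) ∈ F then (x m n).1.a else (y m n).1.a) = (w m n).1.a),
      z m n = w m n := by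
    intro w hw κ hκ m n h hpref
    obtain ⟨c1, c2, c3, c4, c5, c6⟩ := agree (g := g) (Vst := Vst) w hw κ hκ m n h
    obtain ⟨d1, d2, d3, d4, d5, d6, d7⟩ := hzd m n
    have ha : (z m n).1.a = (w m n).1.a := by
      by_cases hl : (g n m).s + 1 = len k (g n m).τ
      · have hl' : (w m n).1.s + 1 = len k (w m n).1.τ := by rw [← c4, ← c3]; exact hl
        obtain ⟨f1, f2⟩ := c6 hl'
        rw [← hpref]
        apply d7 hl
        · rw [hpref]; exact f1
        · rw [hpref, c2, c5, c3]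
          exact f2
      · have hl' : (w m n).1.s + 1 ≠ len k (w m n).1.τ := by rw [← c4, ← c3]; exact hl
        rw [d6 hl, (w m n).2.2.2.2.2.2.1 hl']
    apply Subtype.ext
    have e1 : (z m n).1.v = (w m n).1.v := by rw [d1, c1]
    have e2 : (z m n).1.J = (w m n).1.J := by rw [d2, c2]
    have e3 : (z m n).1.τ = (w m n).1.τ := by rw [d3, c3]
    have e4 : (z m n).1.s = (w m n).1.s := by rw [d4, c4]
    have e5 : (z m n).1.b = (w m n).1.b := by rw [d5, c5]
    generalize (z m n).1 = p at *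
    generalize (w m n).1 = p' at *
    rcases p with ⟨v, J, τ, s, b, a⟩
    rcases p' with ⟨v', J', τ', s', b', a'⟩
    simp only at e1 e2 e3 e4 e5 ha
    subst e1 e2 e3 e4 e5 ha
    rfl
  refine ⟨z, hz, ?_, ?_⟩
  · rintro ⟨m, n⟩ hmn
    simp only
    refine final x hx κx hκx2 m n ?_ (if_pos hmn)
    intro m' hm'
    have hU1 : m' ∈ U n := ⟨m, hm', Or.inl hmn⟩
    have hU2 : m' ∈ U (n - 1) := ⟨m, hm', Or.inr (by rw [sub_add_cancel]; exact hmn)⟩
    rw [hgU n m' hU1, hgU (n - 1) m' hU2]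
    exact ⟨⟨rfl, rfl, rfl⟩, ⟨rfl, rfl, rfl⟩, if_pos hU1⟩
  · rintro ⟨m, n⟩ hmn
    simp only
    refine final y hy κy hκy2 m n ?_ (if_neg fun h => hdisj _ h hmn)
    intro m' hm'
    have hU1 : m' ∈ U' n := ⟨m, hm', Or.inl hmn⟩
    have hU2 : m' ∈ U' (n - 1) := ⟨m, hm', Or.inr (by rw [sub_add_cancel]; exact hmn)⟩
    rw [hgU' n m' hU1, hgU' (n - 1) m' hU2]
    refine ⟨⟨rfl, rfl, rfl⟩, ⟨rfl, rfl, rfl⟩, if_neg ?_⟩
    intro hU
    have := hUU n m' hU m' hU1
    simp at this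
    omega

end SIE
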