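import Pool.Agent.SIE.Defs

/-!
# Exponential growth of all entries (module of MP_7034eb_an)

PAPER PROOF.  Let `L = exp g > 1`, `P ψ = L ψ`, `ψ > 0`, `P ^ r > 0` entrywise for `r ≥ r0`.
For `r ≥ r0` put `n = r - r0`: `(P ^ r) v w = ∑ u, (P ^ n) v u * (P ^ r0) u w ≥ ∑ u, (P ^ n) v u`
(entries of `P ^ r0` are `≥ 1`), and `∑ u, (P ^ n) v u * M ≥ ∑ u, (P ^ n) v u * ψ u = L ^ n * ψ v
≥ L ^ n * m` where `0 < m ≤ ψ ≤ M`.  So `(P ^ r) v w ≥ (m / M) * L ^ (r - r0)`, which exceeds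
`K * r` for all large `r`.
-/

set_option autoImplicit false

namespace SIE

open Filter Topology

theorem grow_pow {p : ℕ} (P : Matrix (Fin p) (Fin p) ℕ) (ψ : Fin p → ℝ) (g : ℝ)
    (hP : ∀ v, ∑ w, (P v w : ℝ) * ψ w = Real.exp g * ψ v) (n : ℕ) (v : Fin p) :
    ∑ w, ((P ^ n) v w : ℝ) * ψ w = Real.exp g ^ n * ψ v := by
  induction n generalizing v with
  | zero =>
    simp only [pow_zero, one_mul, Matrix.one_apply]
    rw [Finset.sum_eq_single v]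
    · simp
    · intro w _ hw
      rw [if_neg (Ne.symm hw)]
      simp
    · intro h
      exact absurd (Finset.mem_univ v) h
  | succ n ih =>
    have h1 : ∀ w, (((P ^ (n + 1)) v w : ℕ) : ℝ) * ψ w =
        ∑ u, ((P ^ n) v u : ℝ) * ((P u w : ℝ) * ψ w) := by
      intro w
      rw [pow_succ, Matrix.mul_apply]
      push_cast
      rw [Finset.sum_mul]
      refine Finset.sum_congr rfl fun u _ => ?_
      ring
    simp only [h1]
    rw [Finset.sum_comm]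
    have h2 : ∀ u, ∑ w, ((P ^ n) v u : ℝ) * ((P u w : ℝ) * ψ w) =
        Real.exp g * (((P ^ n) v u : ℝ) * ψ u) := by
      intro u
      rw [← Finset.mul_sum, hP u]
      ring
    simp only [h2]
    rw [← Finset.mul_sum, ih v]
    ring

theorem grow {p : ℕ} (hp : 0 < p) (P : Matrix (Fin p) (Fin p) ℕ) (ψ : Fin p → ℝ) (g : ℝ)
    (hg : 0 < g) (hψ : ∀ v, 0 < ψ v)
    (hP : ∀ v, ∑ w, (P v w : ℝ) * ψ w = Real.exp g * ψ v)
    (hprim : ∃ r0 : ℕ, ∀ r, r0 ≤ r → ∀ v w, 0 < (P ^ r) v w) (K : ℕ) :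
    ∃ r : ℕ, 1 ≤ r ∧ ∀ v w, K * r ≤ (P ^ r) v w := by
  obtain ⟨r0, hr0⟩ := hprim
  set L := Real.exp g with hL
  have hL1 : 1 < L := Real.one_lt_exp_iff.2 hg
  have hL0 : 0 < L := by linarith
  set M : ℝ := ∑ u, ψ u with hM
  have hMle : ∀ u, ψ u ≤ M := fun u =>
    Finset.single_le_sum (fun i _ => (hψ i).le) (Finset.mem_univ u)
  have hMpos : 0 < M := lt_of_lt_of_le (hψ ⟨0, hp⟩) (hMle ⟨0, hp⟩)
  have ht1 : Tendsto (fun n : ℕ => (n : ℝ) ^ 1 / L ^ n) atTop (𝓝 0) :=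
    tendsto_pow_const_div_const_pow_of_one_lt 1 hL1
  have ht0 : Tendsto (fun n : ℕ => (n : ℝ) ^ 0 / L ^ n) atTop (𝓝 0) :=
    tendsto_pow_const_div_const_pow_of_one_lt 0 hL1
  have ht : Tendsto (fun n : ℕ => (K : ℝ) * ((n : ℝ) ^ 1 / L ^ n) +
      (K : ℝ) * r0 * ((n : ℝ) ^ 0 / L ^ n)) atTop (𝓝 0) := by
    have := (ht1.const_mul (K : ℝ)).add (ht0.const_mul ((K : ℝ) * r0))
    simpa using this
  have hev : ∀ᶠ n : ℕ in atTop, ∀ v, (K : ℝ) * ((n : ℝ) ^ 1 / L ^ n) +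
      (K : ℝ) * r0 * ((n : ℝ) ^ 0 / L ^ n) < ψ v / M :=
    eventually_all.2 fun v => ht.eventually (gt_mem_nhds (div_pos (hψ v) hMpos))
  obtain ⟨n, hn, hn1⟩ := (hev.and (eventually_ge_atTop 1)).exists
  refine ⟨n + r0, by omega, fun v w => ?_⟩
  have h1 : ∑ u, (P ^ n) v u ≤ (P ^ (n + r0)) v w := by
    rw [pow_add, Matrix.mul_apply]
    refine Finset.sum_le_sum fun u _ => ?_
    exact Nat.le_mul_of_pos_right _ (hr0 r0 le_rfl u w)
  have h2 : L ^ n * ψ v ≤ (∑ u, ((P ^ n) v u : ℝ)) * M := by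
    rw [← grow_pow P ψ g hP n v, Finset.sum_mul]
    refine Finset.sum_le_sum fun u _ => ?_
    exact mul_le_mul_of_nonneg_left (hMle u) (Nat.cast_nonneg _)
  have h3 := hn v
  have hLn : 0 < L ^ n := pow_pos hL0 n
  have h4 : (K : ℝ) * ((n : ℝ) + r0) ≤ L ^ n * (ψ v / M) := by
    have e : (K : ℝ) * ((n : ℝ) ^ 1 / L ^ n) + (K : ℝ) * r0 * ((n : ℝ) ^ 0 / L ^ n) =
        (K : ℝ) * ((n : ℝ) + r0) / L ^ n := by
      field_simp
    rw [e, div_lt_iff₀ hLn] at h3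
    linarith
  have h5 : L ^ n * (ψ v / M) ≤ ∑ u, ((P ^ n) v u : ℝ) := by
    rw [← mul_div_assoc, div_le_iff₀ hMpos]
    exact h2
  have h6 : ((K * (n + r0) : ℕ) : ℝ) ≤ ((∑ u, (P ^ n) v u : ℕ) : ℝ) := by
    push_cast
    linarith
  exact le_trans (Nat.cast_le.1 h6) h1

end SIE
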