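import Pool.Agent.SIE.Perron

/-!
# A nonnegative eigenvector for the growth rate (module of MP_7034eb_an)

PAPER PROOF.  `S n = ∑ v w, (B ^ n) v w`, `log (S n) / n → h`.  For `ε > 0` (say `ε = 1/(m+1)`)
the matrix `B_ε v w = B v w + ε` is entrywise positive; let `μ_ε > 0`, `φ_ε > 0` be as in
`perron_exists`, normalised by `∑ φ_ε = 1`.
* `exp h ≤ μ_ε`: `B_ε^n ≥ B^n` entrywise, so `(S n) * min φ_ε ≤ ∑_{v,w} (B^n) v w φ_ε w ≤
  ∑_{v,w} (B_ε^n) v w φ_ε w = μ_ε^n`; take logarithms, divide by `n`, `n → ∞`.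
* `μ_ε ≤ C := ∑_{v,w} (B v w + 1)`: sum the eigenvalue equation over `v`, `φ_ε w ≤ 1`.
So `(μ_ε, φ_ε) ∈ [exp h, C] × Δ`, a compact set: a subsequence converges to `(μ, φ)`,
`φ ≥ 0`, `∑ φ = 1`, `B φ = μ φ` (pass to the limit, finite sums), `μ ≥ exp h`.
* `μ ≤ exp h`: `μ^n = ∑_v (B^n φ) v ≤ (S n) * 1`, so `log μ ≤ log (S n) / n → h`.
Hence `μ = exp h`.
(If you prefer, avoid subsequences by the cluster point / `IsCompact` nonempty intersection
argument.)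
-/

set_option autoImplicit false

namespace SIE

open Filter Topology

/-- powers of a nonnegative matrix acting on a supersolution -/
theorem ne_pow_le {q : ℕ} (B : Matrix (Fin q) (Fin q) ℕ) (φ : Fin q → ℝ) (μ : ℝ) (hμ : 0 ≤ μ)
    (hφ : ∀ v, ∑ w, (B v w : ℝ) * φ w ≤ μ * φ v) (n : ℕ) (v : Fin q) :
    ∑ w, ((B ^ n) v w : ℝ) * φ w ≤ μ ^ n * φ v := by
  induction n generalizing v with
  | zero =>
    simp [Matrix.one_apply]
  | succ n ih =>
    have h1 : ∑ w, ((B ^ (n + 1)) v w : ℝ) * φ w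
        = ∑ u, (B v u : ℝ) * ∑ w, ((B ^ n) u w : ℝ) * φ w := by
      rw [pow_succ']
      simp only [Matrix.mul_apply, Nat.cast_sum, Nat.cast_mul, Finset.sum_mul, Finset.mul_sum]
      rw [Finset.sum_comm]
      refine Finset.sum_congr rfl fun u _ => Finset.sum_congr rfl fun w _ => by ring
    rw [h1]
    calc ∑ u, (B v u : ℝ) * ∑ w, ((B ^ n) u w : ℝ) * φ w
        ≤ ∑ u, (B v u : ℝ) * (μ ^ n * φ u) :=
          Finset.sum_le_sum fun u _ => mul_le_mul_of_nonneg_left (ih u) (Nat.cast_nonneg _)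
      _ = μ ^ n * ∑ u, (B v u : ℝ) * φ u := by
          rw [Finset.mul_sum]
          exact Finset.sum_congr rfl fun u _ => by ring
      _ ≤ μ ^ n * (μ * φ v) := mul_le_mul_of_nonneg_left (hφ v) (pow_nonneg hμ n)
      _ = μ ^ (n + 1) * φ v := by ring

theorem ne_pow_eq {q : ℕ} (B : Matrix (Fin q) (Fin q) ℕ) (φ : Fin q → ℝ) (μ : ℝ)
    (hφ : ∀ v, ∑ w, (B v w : ℝ) * φ w = μ * φ v) (n : ℕ) (v : Fin q) :
    ∑ w, ((B ^ n) v w : ℝ) * φ w = μ ^ n * φ v := by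
  induction n generalizing v with
  | zero =>
    simp [Matrix.one_apply]
  | succ n ih =>
    have h1 : ∑ w, ((B ^ (n + 1)) v w : ℝ) * φ w
        = ∑ u, (B v u : ℝ) * ∑ w, ((B ^ n) u w : ℝ) * φ w := by
      rw [pow_succ']
      simp only [Matrix.mul_apply, Nat.cast_sum, Nat.cast_mul, Finset.sum_mul, Finset.mul_sum]
      rw [Finset.sum_comm]
      refine Finset.sum_congr rfl fun u _ => Finset.sum_congr rfl fun w _ => by ring
    rw [h1]
    simp only [ih]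
    rw [show ∑ u, (B v u : ℝ) * (μ ^ n * φ u) = μ ^ n * ∑ u, (B v u : ℝ) * φ u by
      rw [Finset.mul_sum]
      exact Finset.sum_congr rfl fun u _ => by ring]
    rw [hφ v]
    ring

theorem ne_lower {q : ℕ} (B : Matrix (Fin q) (Fin q) ℕ) (h : ℝ)
    (hS : ∀ n : ℕ, 0 < ∑ v, ∑ w, (B ^ n) v w)
    (ht : Tendsto (fun n : ℕ => Real.log ((∑ v, ∑ w, (B ^ n) v w : ℕ) : ℝ) / (n : ℝ)) atTop
      (𝓝 h)) [Nonempty (Fin q)] (φ : Fin q → ℝ) (μ : ℝ) (hμ : 0 < μ)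
    (hpos : ∀ v, 0 < φ v)
    (hφ : ∀ v, ∑ w, (B v w : ℝ) * φ w ≤ μ * φ v) : Real.exp h ≤ μ := by
  obtain ⟨i0, hi0⟩ := Finite.exists_min φ
  have hc := hpos i0
  set D : ℝ := ∑ v, φ v with hD
  have hDpos : 0 < D := Finset.sum_pos (fun v _ => hpos v) Finset.univ_nonempty
  have key : ∀ n : ℕ, ((∑ v, ∑ w, (B ^ n) v w : ℕ) : ℝ) * φ i0 ≤ μ ^ n * D := by
    intro n
    push_cast
    rw [Finset.sum_mul, hD, Finset.mul_sum]
    refine Finset.sum_le_sum fun v _ => ?_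
    rw [Finset.sum_mul]
    refine le_trans ?_ (ne_pow_le B φ μ hμ.le hφ n v)
    exact Finset.sum_le_sum fun w _ => mul_le_mul_of_nonneg_left (hi0 w) (Nat.cast_nonneg _)
  have key2 : ∀ n : ℕ, 1 ≤ n → Real.log ((∑ v, ∑ w, (B ^ n) v w : ℕ) : ℝ) / (n : ℝ)
      ≤ Real.log μ + (Real.log D - Real.log (φ i0)) / (n : ℝ) := by
    intro n hn
    have hn' : (0 : ℝ) < n := by exact_mod_cast hn
    have hSn : (0 : ℝ) < ((∑ v, ∑ w, (B ^ n) v w : ℕ) : ℝ) := by exact_mod_cast hS n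
    have h1 := Real.log_le_log (mul_pos hSn hc) (key n)
    rw [Real.log_mul hSn.ne' hc.ne', Real.log_mul (pow_pos hμ n).ne' hDpos.ne',
      Real.log_pow] at h1
    rw [div_le_iff₀ hn', add_mul, div_mul_cancel₀ _ hn'.ne']
    linarith
  have hlim : Tendsto (fun n : ℕ => Real.log μ + (Real.log D - Real.log (φ i0)) / (n : ℝ)) atTop
      (𝓝 (Real.log μ + 0)) :=
    tendsto_const_nhds.add (tendsto_const_div_atTop_nhds_zero_nat _)
  rw [add_zero] at hlim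
  have hle : h ≤ Real.log μ := by
    refine le_of_tendsto_of_tendsto ht hlim ?_
    filter_upwards [eventually_ge_atTop 1] with n hn using key2 n hn
  calc Real.exp h ≤ Real.exp (Real.log μ) := Real.exp_le_exp.2 hle
    _ = μ := Real.exp_log hμ

theorem ne_upper {q : ℕ} (B : Matrix (Fin q) (Fin q) ℕ) (h : ℝ)
    (hS : ∀ n : ℕ, 0 < ∑ v, ∑ w, (B ^ n) v w)
    (ht : Tendsto (fun n : ℕ => Real.log ((∑ v, ∑ w, (B ^ n) v w : ℕ) : ℝ) / (n : ℝ)) atTop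
      (𝓝 h)) (φ : Fin q → ℝ) (μ : ℝ) (hμ : 0 < μ)
    (hnn : ∀ v, 0 ≤ φ v) (hsum : ∑ v, φ v = 1)
    (hφ : ∀ v, ∑ w, (B v w : ℝ) * φ w = μ * φ v) : μ ≤ Real.exp h := by
  have hle1 : ∀ v, φ v ≤ 1 := by
    intro v
    rw [← hsum]
    exact Finset.single_le_sum (fun w _ => hnn w) (Finset.mem_univ v)
  have key : ∀ n : ℕ, μ ^ n ≤ ((∑ v, ∑ w, (B ^ n) v w : ℕ) : ℝ) := by
    intro n
    have h1 : μ ^ n = ∑ v, ∑ w, ((B ^ n) v w : ℝ) * φ w := by
      rw [Finset.sum_congr rfl fun v _ => ne_pow_eq B φ μ hφ n v, ← Finset.mul_sum, hsum, mul_one]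
    rw [h1]
    push_cast
    refine Finset.sum_le_sum fun v _ => Finset.sum_le_sum fun w _ => ?_
    calc ((B ^ n) v w : ℝ) * φ w ≤ ((B ^ n) v w : ℝ) * 1 :=
          mul_le_mul_of_nonneg_left (hle1 w) (Nat.cast_nonneg _)
      _ = ((B ^ n) v w : ℝ) := mul_one _
  have hle : Real.log μ ≤ h := by
    refine ge_of_tendsto ht ?_
    filter_upwards [eventually_ge_atTop 1] with n hn
    have hn' : (0 : ℝ) < n := by exact_mod_cast hn
    rw [le_div_iff₀ hn']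
    have h2 := Real.log_le_log (pow_pos hμ n) (key n)
    rw [Real.log_pow] at h2
    linarith
  calc μ = Real.exp (Real.log μ) := (Real.exp_log hμ).symm
    _ ≤ Real.exp h := Real.exp_le_exp.2 hle

theorem nonneg_eig {q : ℕ} (B : Matrix (Fin q) (Fin q) ℕ) (h : ℝ)
    (hS : ∀ n : ℕ, 0 < ∑ v, ∑ w, (B ^ n) v w)
    (ht : Tendsto (fun n : ℕ => Real.log ((∑ v, ∑ w, (B ^ n) v w : ℕ) : ℝ) / (n : ℝ)) atTop
      (𝓝 h)) :
    ∃ φ : Fin q → ℝ, (∀ v, 0 ≤ φ v) ∧ (∃ v, 0 < φ v) ∧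
      ∀ v, ∑ w, (B v w : ℝ) * φ w = Real.exp h * φ v := by
  have hne : Nonempty (Fin q) := by
    by_contra hcon
    rw [not_nonempty_iff] at hcon
    have h0 := hS 0
    simp at h0
  have step : ∀ m : ℕ, ∃ (μ : ℝ) (φ : Fin q → ℝ), 0 < μ ∧ (∀ i, 0 < φ i) ∧ ∑ i, φ i = 1 ∧
      ∀ i, ∑ j, ((B i j : ℝ) + 1 / ((m : ℝ) + 1)) * φ j = μ * φ i := by
    intro m
    obtain ⟨μ, φ, hμ, hφ, hA⟩ := perron_exists
      (fun i j : Fin q => (B i j : ℝ) + 1 / ((m : ℝ) + 1)) (fun i j => by positivity)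
    have hDpos : 0 < ∑ v, φ v := Finset.sum_pos (fun v _ => hφ v) Finset.univ_nonempty
    refine ⟨μ, fun i => φ i / ∑ v, φ v, hμ, fun i => div_pos (hφ i) hDpos, ?_, fun i => ?_⟩
    · rw [← Finset.sum_div, div_self hDpos.ne']
    · have h1 := hA i
      simp only at h1 ⊢
      calc ∑ j, ((B i j : ℝ) + 1 / ((m : ℝ) + 1)) * (φ j / ∑ v, φ v)
          = (∑ j, ((B i j : ℝ) + 1 / ((m : ℝ) + 1)) * φ j) / ∑ v, φ v := by
            rw [Finset.sum_div]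
            exact Finset.sum_congr rfl fun j _ => by ring
        _ = μ * (φ i / ∑ v, φ v) := by rw [h1]; ring
  choose μ φ hμ hφ hsum hA using step
  set C : ℝ := ∑ v, ∑ w, ((B v w : ℝ) + 1) with hC
  have hle1 : ∀ m v, φ m v ≤ 1 := by
    intro m v
    rw [← hsum m]
    exact Finset.single_le_sum (fun w _ => (hφ m w).le) (Finset.mem_univ v)
  have hlow : ∀ m, Real.exp h ≤ μ m := by
    intro m
    refine ne_lower B h hS ht (φ m) (μ m) (hμ m) (hφ m) fun v => ?_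
    rw [← hA m v]
    refine Finset.sum_le_sum fun w _ => mul_le_mul_of_nonneg_right ?_ (hφ m w).le
    have : (0 : ℝ) ≤ 1 / ((m : ℝ) + 1) := by positivity
    linarith
  have hup : ∀ m, μ m ≤ C := by
    intro m
    have h1 : μ m = ∑ v, ∑ w, ((B v w : ℝ) + 1 / ((m : ℝ) + 1)) * φ m w := by
      rw [Finset.sum_congr rfl fun v _ => hA m v, ← Finset.mul_sum, hsum m, mul_one]
    rw [h1, hC]
    refine Finset.sum_le_sum fun v _ => Finset.sum_le_sum fun w _ => ?_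
    have h2 : (1 : ℝ) / ((m : ℝ) + 1) ≤ 1 := by
      rw [div_le_one (by positivity)]
      have : (0 : ℝ) ≤ m := Nat.cast_nonneg m
      linarith
    have h3 : (0 : ℝ) ≤ (B v w : ℝ) := Nat.cast_nonneg _
    have h4 : (0 : ℝ) ≤ 1 / ((m : ℝ) + 1) := by positivity
    calc ((B v w : ℝ) + 1 / ((m : ℝ) + 1)) * φ m w ≤ ((B v w : ℝ) + 1 / ((m : ℝ) + 1)) * 1 :=
          mul_le_mul_of_nonneg_left (hle1 m w) (by linarith)
      _ ≤ (B v w : ℝ) + 1 := by linarith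
  have hcomp : IsCompact ((Set.Icc (Real.exp h) C) ×ˢ (stdSimplex ℝ (Fin q))) :=
    isCompact_Icc.prod (isCompact_stdSimplex ℝ (Fin q))
  have hmem : ∀ m, (μ m, φ m) ∈ (Set.Icc (Real.exp h) C) ×ˢ (stdSimplex ℝ (Fin q)) := by
    intro m
    exact ⟨⟨hlow m, hup m⟩, fun v => (hφ m v).le, hsum m⟩
  obtain ⟨⟨M, Φ⟩, hMΦ, s, hs, hlim⟩ := hcomp.tendsto_subseq hmem
  have hlim1 : Tendsto (fun k => μ (s k)) atTop (𝓝 M) :=
    (continuous_fst.tendsto _).comp hlim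
  have hlim2 : Tendsto (fun k => φ (s k)) atTop (𝓝 Φ) :=
    (continuous_snd.tendsto _).comp hlim
  have hlim3 : ∀ v, Tendsto (fun k => φ (s k) v) atTop (𝓝 (Φ v)) := fun v =>
    ((continuous_apply v).tendsto _).comp hlim2
  obtain ⟨⟨hM1, hM2⟩, hΦ0, hΦ1⟩ := hMΦ
  simp only at hM1 hM2 hΦ0 hΦ1
  have heps : Tendsto (fun k => 1 / (((s k : ℕ) : ℝ) + 1)) atTop (𝓝 0) :=
    tendsto_one_div_add_atTop_nhds_zero_nat.comp hs.tendsto_atTop
  have heig : ∀ v, ∑ w, (B v w : ℝ) * Φ w = M * Φ v := by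
    intro v
    have h1 : Tendsto (fun k => ∑ w, ((B v w : ℝ) + 1 / (((s k : ℕ) : ℝ) + 1)) * φ (s k) w) atTop
        (𝓝 (∑ w, ((B v w : ℝ) + 0) * Φ w)) :=
      tendsto_finset_sum _ fun w _ => (tendsto_const_nhds.add heps).mul (hlim3 w)
    have h2 : Tendsto (fun k => ∑ w, ((B v w : ℝ) + 1 / (((s k : ℕ) : ℝ) + 1)) * φ (s k) w) atTop
        (𝓝 (M * Φ v)) := by
      have h3 := hlim1.mul (hlim3 v)
      refine h3.congr fun k => ?_
      exact (hA (s k) v).symm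
    have h4 := tendsto_nhds_unique h1 h2
    simpa using h4
  have hMpos : 0 < M := lt_of_lt_of_le (Real.exp_pos h) hM1
  have hM3 := ne_upper B h hS ht Φ M hMpos hΦ0 hΦ1 heig
  have hM : M = Real.exp h := le_antisymm hM3 hM1
  refine ⟨Φ, hΦ0, ?_, ?_⟩
  · by_contra hcon
    push_neg at hcon
    have : ∑ v, Φ v ≤ 0 := Finset.sum_nonpos fun v _ => hcon v
    rw [hΦ1] at this
    linarith
  · intro v
    rw [heig v, hM]

end SIE
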