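import Pool.Agent.SIE.Defs

set_option autoImplicit false

/-!
# From the plane to `ℤ^d`, `d ≥ 2` (module of MP_7034eb_an)

PAPER PROOF.  Let `e0, e1 : Site (d+2)` be the first two unit vectors and
`X = {x : Conf (d+2) S | ∀ s, H (x s) (x (s + e0)) ∧ V (x s) (x (s + e1))}`.
For `u : Fin d → ℤ` the slice of `x` at `u` is `fun m n => x (Fin.cons m (Fin.cons n u))`; `x ∈ X`
iff all slices are in `Sys2 H V` (`x ↦ (u ↦ slice)` is a bijection onto all families).
* SFT: forbidden patterns: support `{0, e0}` with values `(α, β)`, `¬ H α β`, and support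
  `{0, e1}` with values `(α, β)`, `¬ V α β` (finitely many since `S` is finite).  A pattern is a
  `Finset` together with a total function; take e.g. the function with value `α` at `0` and `β`
  elsewhere.
* nonempty: all slices equal to a point of `Sys2 H V`.
* strongly irreducible: slice by slice; if `F, G` have all pairs at distance `≥ M` then so do
  the slices `{(m, n) : cons m (cons n u) ∈ F}` and the same for `G`
  (two points of the same slice differ only in the first two coordinates and `M ≥ 1`).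
* entropy: patterns of `X` on `cube (d+2) N` correspond to families, indexed by the
  `N^d` points `u` of `cube d N`, of patterns counted by `boxCount H V N`, so
  `numPatterns X N = (boxCount H V N) ^ (N ^ d)` and
  `log (numPatterns X N) / N^(d+2) = log (boxCount H V N) / N^2` (for `N ≥ 1`), which differs
  from `log lam` by at most `log C / N`.
-/

namespace SIE

namespace TransferAux

open Filter Topology

variable {d : ℕ} {S : Type}

/-- the site with given coordinates -/
def st (m n : ℤ) (u : Fin d → ℤ) : Site (d + 2) := Fin.cons m (Fin.cons n u : Fin (d + 1) → ℤ)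

theorem st_zero (m n : ℤ) (u : Fin d → ℤ) : st m n u 0 = m := rfl

theorem st_one (m n : ℤ) (u : Fin d → ℤ) : st m n u 1 = n := rfl

theorem st_ss (m n : ℤ) (u : Fin d → ℤ) (i : Fin d) : st m n u i.succ.succ = u i := rfl

theorem st_eta (s : Site (d + 2)) : st (s 0) (s 1) (fun i => s i.succ.succ) = s := by
  funext i
  refine Fin.cases ?_ (fun i => ?_) i
  · rfl
  · refine Fin.cases ?_ (fun i => ?_) i
    · rfl
    · rfl

theorem st_add (m n a b : ℤ) (u : Fin d → ℤ) :
    st m n u + st a b 0 = st (m + a) (n + b) u := by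
  funext i
  refine Fin.cases ?_ (fun i => ?_) i
  · rfl
  · refine Fin.cases ?_ (fun i => ?_) i
    · rfl
    · show u i + (0 : Fin d → ℤ) i = u i
      simp

theorem st_zero' : (st 0 0 0 : Site (d + 2)) = 0 := by
  funext i
  refine Fin.cases ?_ (fun i => ?_) i
  · rfl
  · refine Fin.cases ?_ (fun i => ?_) i
    · rfl
    · rfl

/-- the slice at `u` -/
def sl (x : Conf (d + 2) S) (u : Fin d → ℤ) : ℤ → ℤ → S := fun m n => x (st m n u)

/-- the configuration with given slices -/
def un (F : (Fin d → ℤ) → ℤ → ℤ → S) : Conf (d + 2) S := fun s =>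
  F (fun i => s i.succ.succ) (s 0) (s 1)

theorem sl_un (F : (Fin d → ℤ) → ℤ → ℤ → S) (u : Fin d → ℤ) : sl (un F) u = F u := rfl

/-- the system in dimension `d + 2` -/
def XX (d : ℕ) (H V : S → S → Prop) : Set (Conf (d + 2) S) := {x | ∀ u, sl x u ∈ Sys2 H V}

theorem XX_nonempty (H V : S → S → Prop) (hne : (Sys2 H V).Nonempty) : (XX d H V).Nonempty := by
  obtain ⟨x, hx⟩ := hne
  exact ⟨un fun _ => x, fun _ => hx⟩

theorem XX_si (H V : S → S → Prop) (hSI : SI2 (Sys2 H V)) : StronglyIrreducible (XX d H V) := by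
  obtain ⟨M, hM, h⟩ := hSI
  refine ⟨M, hM, fun F G hFG x hx y hy => ?_⟩
  have key : ∀ u : Fin d → ℤ, ∃ z ∈ Sys2 H V,
      (∀ s : ℤ × ℤ, st s.1 s.2 u ∈ F → z s.1 s.2 = sl x u s.1 s.2) ∧
      (∀ t : ℤ × ℤ, st t.1 t.2 u ∈ G → z t.1 t.2 = sl y u t.1 t.2) := by
    intro u
    refine h {s | st s.1 s.2 u ∈ F} {t | st t.1 t.2 u ∈ G} ?_ _ (hx u) _ (hy u)
    intro s hs t ht
    obtain ⟨i, hi⟩ := hFG _ hs _ ht
    revert hi
    refine Fin.cases ?_ (fun i => ?_) i
    · intro hi
      exact Or.inl hi
    · refine Fin.cases ?_ (fun i => ?_) i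
      · intro hi
        exact Or.inr hi
      · intro hi
        exfalso
        have h1 : (M : ℤ) ≤ |u i - u i| := hi
        rw [sub_self, abs_zero] at h1
        have : (1 : ℤ) ≤ M := by exact_mod_cast hM
        omega
  choose z hz1 hz2 hz3 using key
  refine ⟨un z, fun u => hz1 u, fun s hs => ?_, fun t ht => ?_⟩
  · have h1 := hz2 (fun i => s i.succ.succ) (s 0, s 1) (by
      show st (s 0) (s 1) _ ∈ F
      rw [st_eta]
      exact hs)
    refine h1.trans ?_
    show x (st (s 0) (s 1) _) = x s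
    rw [st_eta]
  · have h1 := hz3 (fun i => t i.succ.succ) (t 0, t 1) (by
      show st (t 0) (t 1) _ ∈ G
      rw [st_eta]
      exact ht)
    refine h1.trans ?_
    show y (st (t 0) (t 1) _) = y t
    rw [st_eta]

open Classical in
/-- the pattern with values `α` at `0` and `β` at `e` -/
noncomputable def pat (e : Site (d + 2)) (p : S × S) : Finset (Site (d + 2)) × Conf (d + 2) S :=
  ({0, e}, fun s => if s = 0 then p.1 else p.2)

theorem pat_avoid (R : S → S → Prop) (e : Site (d + 2)) (he : e ≠ 0) (x : Conf (d + 2) S) :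
    (∀ t, R (x t) (x (t + e))) ↔
      ∀ p ∈ {p | ∃ q : S × S, ¬ R q.1 q.2 ∧ p = pat e q}, ∀ t : Site (d + 2),
        ∃ s ∈ p.1, x (t + s) ≠ p.2 s := by
  classical
  constructor
  · rintro h p ⟨q, hq, rfl⟩ t
    by_contra hcon
    push Not at hcon
    have h0 := hcon 0 (by simp [pat])
    have h1 := hcon e (by simp [pat])
    rw [add_zero] at h0
    have e0 : (pat e q).2 0 = q.1 := by simp [pat]
    have e1 : (pat e q).2 e = q.2 := by simp [pat, he]
    rw [e0] at h0
    rw [e1] at h1
    apply hq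
    rw [← h0, ← h1]
    exact h t
  · intro h t
    by_contra hcon
    obtain ⟨s, hs, hne⟩ := h (pat e (x t, x (t + e))) ⟨(x t, x (t + e)), hcon, rfl⟩ t
    apply hne
    have hs' : s = 0 ∨ s = e := by simpa [pat] using hs
    rcases hs' with rfl | rfl
    · simp [pat]
    · simp [pat, he]

theorem XX_iff (H V : S → S → Prop) (x : Conf (d + 2) S) : x ∈ XX d H V ↔
    (∀ t, H (x t) (x (t + st 1 0 0))) ∧ ∀ t, V (x t) (x (t + st 0 1 0)) := by
  constructor
  · intro h
    constructor
    · intro t
      have h1 := (h (fun i => t i.succ.succ) (t 0) (t 1)).1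
      have e1 : sl x (fun i => t i.succ.succ) (t 0) (t 1) = x t := congrArg x (st_eta t)
      have e2 : sl x (fun i => t i.succ.succ) (t 0 + 1) (t 1) = x (t + st 1 0 0) := by
        refine congrArg x ?_
        conv_rhs => rw [← st_eta t]
        rw [st_add, add_zero]
      rw [e1, e2] at h1
      exact h1
    · intro t
      have h1 := (h (fun i => t i.succ.succ) (t 0) (t 1)).2
      have e1 : sl x (fun i => t i.succ.succ) (t 0) (t 1) = x t := congrArg x (st_eta t)
      have e2 : sl x (fun i => t i.succ.succ) (t 0) (t 1 + 1) = x (t + st 0 1 0) := by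
        refine congrArg x ?_
        conv_rhs => rw [← st_eta t]
        rw [st_add, add_zero]
      rw [e1, e2] at h1
      exact h1
  · rintro ⟨h1, h2⟩ u m n
    constructor
    · have := h1 (st m n u)
      rw [st_add, add_zero] at this
      exact this
    · have := h2 (st m n u)
      rw [st_add, add_zero] at this
      exact this

theorem XX_sft [Finite S] (H V : S → S → Prop) : IsSFT (XX d H V) := by
  have hne0 : (st 1 0 0 : Site (d + 2)) ≠ 0 := by
    intro h
    have := congrFun h 0
    rw [st_zero] at this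
    exact one_ne_zero this
  have hne1 : (st 0 1 0 : Site (d + 2)) ≠ 0 := by
    intro h
    have := congrFun h 1
    rw [st_one] at this
    exact one_ne_zero this
  have hfin : ∀ (R : S → S → Prop) (e : Site (d + 2)),
      {p | ∃ q : S × S, ¬ R q.1 q.2 ∧ p = pat e q}.Finite := by
    intro R e
    refine (Set.finite_range (fun q : S × S => pat e q)).subset ?_
    rintro p ⟨q, -, rfl⟩
    exact ⟨q, rfl⟩
  refine ⟨{p | ∃ q : S × S, ¬ H q.1 q.2 ∧ p = pat (st 1 0 0) q} ∪
    {p | ∃ q : S × S, ¬ V q.1 q.2 ∧ p = pat (st 0 1 0) q}, (hfin H _).union (hfin V _), ?_⟩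
  ext x
  rw [XX_iff, pat_avoid H _ hne0, pat_avoid V _ hne1]
  constructor
  · rintro ⟨h1, h2⟩ p hp t
    rcases hp with hp | hp
    · exact h1 p hp t
    · exact h2 p hp t
  · intro h
    exact ⟨fun p hp t => h p (Or.inl hp) t, fun p hp t => h p (Or.inr hp) t⟩

/-- the patterns of `Sys2 H V` in a box -/
def AA (H V : S → S → Prop) (N : ℕ) : Set (Fin N → Fin N → S) :=
  {p | ∃ x ∈ Sys2 H V, ∀ i j : Fin N, p i j = x ((i : ℕ) : ℤ) ((j : ℕ) : ℤ)}

theorem toNat_lt {N : ℕ} {s : Site (d + 2)} (hs : s ∈ cube (d + 2) N) (i : Fin (d + 2)) :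
    (s i).toNat < N := by
  have := hs i
  omega

theorem toNat_cast {N : ℕ} {s : Site (d + 2)} (hs : s ∈ cube (d + 2) N) (i : Fin (d + 2)) :
    (((s i).toNat : ℕ) : ℤ) = s i := Int.toNat_of_nonneg (hs i).1

/-- from families of box patterns to patterns on the cube -/
def th (H V : S → S → Prop) (N : ℕ) (f : (Fin d → Fin N) → AA H V N)
    (s : cube (d + 2) N) : S :=
  (f fun i => ⟨(s.1 i.succ.succ).toNat, toNat_lt s.2 _⟩).1 ⟨(s.1 0).toNat, toNat_lt s.2 _⟩
    ⟨(s.1 1).toNat, toNat_lt s.2 _⟩

theorem st_mem_cube {N : ℕ} (i j : Fin N) (u : Fin d → Fin N) :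
    st ((i : ℕ) : ℤ) ((j : ℕ) : ℤ) (fun l => ((u l : ℕ) : ℤ)) ∈ cube (d + 2) N := by
  intro l
  refine Fin.cases ?_ (fun l => ?_) l
  · rw [st_zero]
    have := i.2
    omega
  · refine Fin.cases ?_ (fun l => ?_) l
    · show 0 ≤ ((j : ℕ) : ℤ) ∧ ((j : ℕ) : ℤ) < N
      have := j.2
      omega
    · rw [st_ss]
      have := (u l).2
      omega

theorem th_inj (H V : S → S → Prop) (N : ℕ) :
    Function.Injective (th (d := d) H V N) := by
  intro f g h
  funext u
  apply Subtype.ext
  funext i j
  have h1 := congrFun h ⟨_, st_mem_cube i j u⟩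
  have e : ∀ f : (Fin d → Fin N) → AA H V N, th H V N f ⟨_, st_mem_cube i j u⟩ = (f u).1 i j := by
    intro f
    rfl
  rw [e, e] at h1
  exact h1

theorem th_range (H V : S → S → Prop) (hne : (Sys2 H V).Nonempty) (N : ℕ) :
    Set.range (th (d := d) H V N) =
      (fun (x : Conf (d + 2) S) (s : cube (d + 2) N) => x s) '' XX d H V := by
  classical
  obtain ⟨x0, hx0⟩ := hne
  ext p
  constructor
  · rintro ⟨f, rfl⟩
    have hf : ∀ u, ∃ x ∈ Sys2 H V, ∀ i j : Fin N, (f u).1 i j = x ((i : ℕ) : ℤ) ((j : ℕ) : ℤ) :=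
      fun u => (f u).2
    choose X hX1 hX2 using hf
    refine ⟨un fun v => if h : ∀ i, 0 ≤ v i ∧ v i < N then
      X (fun i => ⟨(v i).toNat, by have := h i; omega⟩) else x0, ?_, ?_⟩
    · intro u
      rw [sl_un]
      split_ifs with h
      · exact hX1 _
      · exact hx0
    · funext s
      have hs : ∀ i : Fin d, 0 ≤ s.1 i.succ.succ ∧ s.1 i.succ.succ < N := fun i => s.2 i.succ.succ
      show un _ s.1 = th H V N f s
      unfold un
      simp only [dif_pos hs]
      unfold th
      rw [hX2]
      simp only [toNat_cast s.2]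
  · rintro ⟨x, hx, rfl⟩
    refine ⟨fun u => ⟨fun i j => sl x (fun l => ((u l : ℕ) : ℤ)) ((i : ℕ) : ℤ) ((j : ℕ) : ℤ),
      ⟨sl x _, hx _, fun i j => rfl⟩⟩, ?_⟩
    funext s
    show x (st _ _ _) = x s.1
    congr 1
    simp only [toNat_cast s.2]
    exact st_eta s.1

theorem count (H V : S → S → Prop) (hne : (Sys2 H V).Nonempty) (N : ℕ) :
    numPatterns (XX d H V) N = boxCount H V N ^ (N ^ d) := by
  unfold numPatterns
  rw [← th_range H V hne, ← Nat.card_coe_set_eq, Nat.card_range_of_injective (th_inj H V N),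
    Nat.card_fun, Nat.card_fun, Nat.card_fin, Nat.card_fin, Nat.card_coe_set_eq]
  rfl

end TransferAux

open TransferAux Filter Topology

theorem transfer (d : ℕ) {S : Type} [Finite S] (H V : S → S → Prop)
    (hne : (Sys2 H V).Nonempty) (hSI : SI2 (Sys2 H V)) (lam : ℝ) (hlam : 0 < lam) (C : ℝ)
    (hC : 1 ≤ C)
    (hb : ∀ N : ℕ, lam ^ (N * N) ≤ C ^ N * (boxCount H V N : ℝ) ∧
      (boxCount H V N : ℝ) ≤ C ^ N * lam ^ (N * N)) :
    Real.log lam ∈ E (d + 2) := by
  refine ⟨S, inferInstance, XX d H V, XX_sft H V, XX_nonempty H V hne, XX_si H V hSI, ?_⟩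
  unfold HasEntropy
  have hC0 : 0 < C := by linarith
  have hB : ∀ N : ℕ, (0 : ℝ) < boxCount H V N := by
    intro N
    have h1 := (hb N).1
    have h2 : 0 < lam ^ (N * N) := by positivity
    have h3 : 0 < C ^ N := by positivity
    by_contra hcon
    have h4 : (boxCount H V N : ℝ) ≤ 0 := not_lt.1 hcon
    nlinarith
  have key : ∀ N : ℕ, 1 ≤ N →
      |Real.log (numPatterns (XX d H V) N) / (N : ℝ) ^ (d + 2) - Real.log lam| ≤
        Real.log C / N := by
    intro N hN
    have hN0 : (0 : ℝ) < N := by exact_mod_cast hN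
    obtain ⟨h1, h2⟩ := hb N
    have hBN := hB N
    have l1 := Real.log_le_log (by positivity) h1
    have l2 := Real.log_le_log hBN h2
    rw [Real.log_mul (by positivity) (by positivity), Real.log_pow, Real.log_pow] at l1 l2
    push_cast at l1 l2
    rw [count H V hne]
    push_cast
    rw [Real.log_pow]
    push_cast
    have e : (N : ℝ) ^ d * Real.log (boxCount H V N) / (N : ℝ) ^ (d + 2) - Real.log lam =
        (Real.log (boxCount H V N) - (N : ℝ) * N * Real.log lam) / ((N : ℝ) * N) := by
      rw [pow_add]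
      field_simp
    rw [e, abs_div, abs_of_pos (show (0 : ℝ) < (N : ℝ) * N by positivity), div_le_div_iff₀
      (by positivity) hN0]
    have h3 : |Real.log (boxCount H V N) - (N : ℝ) * N * Real.log lam| ≤ N * Real.log C := by
      rw [abs_le]
      constructor <;> linarith
    nlinarith
  rw [tendsto_iff_dist_tendsto_zero]
  refine squeeze_zero' (Eventually.of_forall fun N => dist_nonneg) ?_
    (tendsto_const_div_atTop_nhds_zero_nat (Real.log C))
  filter_upwards [eventually_ge_atTop 1] with N hN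
  rw [Real.dist_eq]
  exact key N hN

end SIE
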