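import Pool.Agent.SIE.Defs

/-!
# The transition matrix of a `ℤ`-SFT (module of MP_7034eb_an)

PAPER PROOF.  Write a configuration `x : Conf 1 A` as a sequence: `x (fun _ => m)`, `m : ℤ`.
Let `P` be the finite set of forbidden patterns.  Choose `W ≥ 1` and `a : ℤ` such that the supports
of all patterns of `P` lie in `[a, a + W)`.
(Markov property) If `u : ℤ → A` is such that for every `t` there is `x ∈ X` with `u (t + i) =
x (t + i)` for `0 ≤ i < W`, then `u ∈ X`: a forbidden pattern of `P` at position `t` of `u` lies in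
the window `[t + a, t + a + W)`, where `u` agrees with some `x ∈ X` (use the hypothesis at
`t + a`).  Also `X` is shift invariant.

States: `Q = {w : Fin W → A // ∃ x ∈ X, ∀ i, w i = x i}`, a finite nonempty type; let
`B : Q → Q → ℕ`, `B w w' = 1` if there is `x ∈ X` with `x i = w i` and `x (i + 1) = w' i` for all
`i : Fin W`, else `0`.  Reindex by `Fin (card Q)`.
For `n : ℕ` and `w' ∈ Q` let `N n w w'` be the number of `u : Fin (n + W) → A` that are admissible
(restriction of some `x ∈ X` to `[0, n + W)`) with first `W` letters `w` and last `W` letters `w'`.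
Then `N 0 w w' = if w = w' then 1 else 0`, and `N (n+1) w w'' = ∑ w', N n w w' * B w' w''`: the map
`u ↦ (u restricted to the first n + W letters)` is a bijection between the words counted on the
left and the disjoint union over `w'` with `B w' w'' = 1` of the words counted by `N n w w'`
(given `u⁻` admissible, ending with `w'`, and `B w' w'' = 1`, the word `u = u⁻` followed by the last
letter of `w''` is admissible: with `x ∈ X` extending `u⁻` and `x' ∈ X` with windows `w'`, `w''` at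
`n`, `n+1`, the sequence equal to `x` on `(-∞, n + W)` and to `x'` on `[n, ∞)` - they agree on
`[n, n+W)` - has all its `W`-windows in one of the two, so it is in `X`).
So `N n = B ^ n` and `numPatterns X (n + W) = ∑ w w', N n w w'`.

Strongly irreducible case: given states `w, w'` (from `x, y ∈ X`) and `r ≥ M + W`, the windows
`[0, W)` and `[r, r + W)` are at distance `≥ M`; so some `z ∈ X` has window `w` at `0` and `w'` at
`r` (translate `y` so that its window `w'` sits at `r`), i.e. `N r w w' ≥ 1`.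
-/

set_option autoImplicit false

namespace SIE

namespace WordsA

open Finset

variable {A : Type}

/-- a sequence as a configuration -/
def cf (u : ℤ → A) : Conf 1 A := fun s => u (s 0)

/-- the admissible words of length `k` -/
def Lang (Y : Set (ℤ → A)) (k : ℕ) : Set (Fin k → A) :=
  {w | ∃ x ∈ Y, ∀ i : Fin k, w i = x ((i : ℕ) : ℤ)}

/-- the window of length `W` at `j` -/
def win {W k : ℕ} (u : Fin k → A) (j : ℕ) (h : j + W ≤ k) : Fin W → A :=
  fun i => u ⟨j + i, by have := i.2; omega⟩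

theorem cf_surj (x : Conf 1 A) : cf (fun m => x (fun _ => m)) = x := by
  funext s
  show x (fun _ => s 0) = x s
  congr 1
  funext i
  rw [Subsingleton.elim i 0]

/-- Markov property and shift invariance -/
theorem markov (X : Set (Conf 1 A)) (hX : IsSFT X) :
    ∃ W : ℕ, 1 ≤ W ∧ (∀ u : ℤ → A, (∀ t : ℤ, ∃ x : ℤ → A, cf x ∈ X ∧
      ∀ i : ℕ, i < W → u (t + i) = x (t + i)) → cf u ∈ X) := by
  obtain ⟨P, hP, rfl⟩ := hX
  let K : ℕ := hP.toFinset.sup (fun p => p.1.sup (fun s => (s 0).natAbs))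
  have hK : ∀ p ∈ P, ∀ s ∈ p.1, (s 0).natAbs ≤ K := by
    intro p hp s hs
    have h1 : p.1.sup (fun s => (s 0).natAbs) ≤ K :=
      Finset.le_sup (f := fun p : Finset (Site 1) × Conf 1 A =>
        p.1.sup (fun s => (s 0).natAbs)) (hP.mem_toFinset.2 hp)
    exact (Finset.le_sup (f := fun s : Site 1 => (s 0).natAbs) hs).trans h1
  refine ⟨2 * K + 1, by omega, ?_⟩
  intro u hu p hp t
  obtain ⟨x, hx, hxu⟩ := hu (t 0 - K)
  obtain ⟨s, hs, hne⟩ := hx p hp t
  refine ⟨s, hs, ?_⟩
  have hb := hK p hp s hs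
  have h2 := hxu (s 0 + K).toNat (by omega)
  have h3 : t 0 - K + (((s 0 + K).toNat : ℕ) : ℤ) = t 0 + s 0 := by
    rw [Int.toNat_of_nonneg (by omega)]; ring
  rw [h3] at h2
  have h4 : cf u (t + s) = cf x (t + s) := by
    show u ((t + s) 0) = x ((t + s) 0)
    simpa using h2
  rw [h4]
  exact hne

theorem shift (X : Set (Conf 1 A)) (hX : IsSFT X) (x : ℤ → A) (hx : cf x ∈ X) (k : ℤ) :
    cf (fun m => x (m + k)) ∈ X := by
  obtain ⟨P, hP, rfl⟩ := hX
  intro p hp t
  obtain ⟨s, hs, hne⟩ := hx p hp (fun _ => t 0 + k)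
  refine ⟨s, hs, ?_⟩
  have h4 : cf (fun m => x (m + k)) (t + s) = cf x ((fun _ => t 0 + k) + s) := by
    show x ((t + s) 0 + k) = x (((fun _ => t 0 + k) + s : Site 1) 0)
    congr 1
    simp only [Pi.add_apply]
    ring
  rw [h4]
  exact hne

/-- the hypotheses used from now on -/
structure Hyp (Y : Set (ℤ → A)) (W : ℕ) : Prop where
  pos : 1 ≤ W
  mrk : ∀ u : ℤ → A, (∀ t : ℤ, ∃ x ∈ Y, ∀ i : ℕ, i < W → u (t + i) = x (t + i)) → u ∈ Y
  sh : ∀ x ∈ Y, ∀ k : ℤ, (fun m => x (m + k)) ∈ Y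

theorem Hyp.glue {Y : Set (ℤ → A)} {W : ℕ} (H : Hyp Y W) {x x' : ℤ → A} (hx : x ∈ Y)
    (hx' : x' ∈ Y) (n : ℤ) (h : ∀ i : ℕ, i < W → x (n + i) = x' (n + i)) :
    (fun m => if m < n + W then x m else x' m) ∈ Y := by
  apply H.mrk
  intro t
  by_cases ht : t ≤ n
  · refine ⟨x, hx, fun i hi => ?_⟩
    have : t + (i : ℤ) < n + W := by omega
    simp only [this, if_true]
  · refine ⟨x', hx', fun i hi => ?_⟩
    by_cases h1 : t + (i : ℤ) < n + W
    · simp only [h1, if_true]
      have h2 := h (t + i - n).toNat (by omega)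
      have h3 : n + (((t + i - n).toNat : ℕ) : ℤ) = t + i := by
        rw [Int.toNat_of_nonneg (by omega)]; ring
      rw [h3] at h2
      exact h2
    · simp only [h1, if_false]

section count

variable [Finite A] (Y : Set (ℤ → A)) (W : ℕ)

/-- states -/
abbrev St : Type := {w : Fin W → A // w ∈ Lang Y W}

/-- adjacency of states -/
def Ad (v w : St Y W) : Prop :=
  ∃ x ∈ Y, (∀ i : Fin W, v.1 i = x ((i : ℕ) : ℤ)) ∧ (∀ i : Fin W, w.1 i = x (((i : ℕ) : ℤ) + 1))

open Classical in
noncomputable instance : Fintype (St Y W) := Fintype.ofFinite _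

noncomputable instance : DecidableEq (St Y W) := Classical.decEq _

open Classical in
/-- the transition matrix -/
noncomputable def Bm : Matrix (St Y W) (St Y W) ℕ := fun v w => if Ad Y W v w then 1 else 0

/-- the words with given ends -/
def S (n : ℕ) (v w : St Y W) : Set (Fin (n + W) → A) :=
  {u | u ∈ Lang Y (n + W) ∧ win u 0 (by omega) = v.1 ∧ win u n le_rfl = w.1}

theorem fiber_empty (H : Hyp Y W) (n : ℕ) (v w w' : St Y W) (h : ¬ Ad Y W w w') :
    {u | u ∈ S Y W (n + 1) v w' ∧ win (W := W) u n (by omega) = w.1} = ∅ := by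
  rw [Set.eq_empty_iff_forall_notMem]
  rintro u ⟨⟨⟨x, hx, hux⟩, h1, h2⟩, h3⟩
  apply h
  refine ⟨_, H.sh x hx n, fun i => ?_, fun i => ?_⟩
  · rw [← h3]
    show u _ = _
    rw [hux]
    congr 1
    push_cast
    ring
  · rw [← h2]
    show u _ = _
    rw [hux]
    congr 1
    push_cast
    ring

theorem fiber_card (H : Hyp Y W) (n : ℕ) (v w w' : St Y W) (h : Ad Y W w w') :
    {u | u ∈ S Y W (n + 1) v w' ∧ win (W := W) u n (by omega) = w.1}.ncard =
      (S Y W n v w).ncard := by
  have hW := H.pos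
  refine Set.ncard_congr (fun u _ => fun i : Fin (n + W) => u ⟨i, by have := i.2; omega⟩)
    ?_ ?_ ?_
  · rintro u ⟨⟨⟨x, hx, hux⟩, h1, h2⟩, h3⟩
    refine ⟨⟨x, hx, fun i => hux _⟩, ?_, ?_⟩
    · rw [← h1]; rfl
    · rw [← h3]; rfl
  · rintro u u' ⟨⟨-, -, h2⟩, -⟩ ⟨⟨-, -, h2'⟩, -⟩ he
    funext i
    by_cases hi : (i : ℕ) < n + W
    · exact congrFun he ⟨i, hi⟩
    · have h4 := congrFun (h2.trans h2'.symm) ⟨W - 1, by omega⟩
      have h5 : i = ⟨n + 1 + (W - 1), by omega⟩ := by
        apply Fin.ext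
        have := i.2
        simp only
        omega
      rw [h5]
      exact h4
  · rintro u ⟨⟨x, hx, hux⟩, h1, h2⟩
    obtain ⟨y, hy, hyw, hyw'⟩ := h
    have hy' := H.sh y hy (-n)
    have hz := H.glue hx hy' n (by
      intro i hi
      have e1 : u ⟨n + i, by omega⟩ = w.1 ⟨i, hi⟩ := by rw [← h2]; rfl
      rw [hux, hyw] at e1
      have e2 : (n : ℤ) + i + -n = ((i : ℕ) : ℤ) := by ring
      simp only [e2]
      simpa using e1)
    refine ⟨fun i => (fun m : ℤ => if m < n + W then x m else (fun m => y (m + -n)) m)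
      ((i : ℕ) : ℤ), ⟨⟨⟨_, hz, fun i => rfl⟩, ?_, ?_⟩, ?_⟩, ?_⟩
    · rw [← h1]
      funext i
      have hi := i.2
      have : ((0 + (i : ℕ) : ℕ) : ℤ) < n + W := by omega
      show (if ((0 + (i : ℕ) : ℕ) : ℤ) < n + W then x ((0 + (i : ℕ) : ℕ) : ℤ) else _) = u _
      rw [if_pos this, hux]
    · funext i
      have hi := i.2
      show (if ((n + 1 + (i : ℕ) : ℕ) : ℤ) < n + W then x ((n + 1 + (i : ℕ) : ℕ) : ℤ) else
        y (((n + 1 + (i : ℕ) : ℕ) : ℤ) + -n)) = w'.1 i
      split_ifs with hlt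
      · have e1 : u ⟨n + (i + 1), by omega⟩ = w.1 ⟨i + 1, by omega⟩ := by rw [← h2]; rfl
        rw [hux, hyw] at e1
        rw [hyw' i]
        have e2 : ((n + (i + 1) : ℕ) : ℤ) = ((n + 1 + (i : ℕ) : ℕ) : ℤ) := by push_cast; ring
        simp only [e2] at e1
        rw [e1]
        congr 1
      · rw [hyw' i]
        congr 1
        push_cast
        ring
    · rw [← h2]
      funext i
      have hi := i.2
      have : ((n + (i : ℕ) : ℕ) : ℤ) < n + W := by omega
      show (if ((n + (i : ℕ) : ℕ) : ℤ) < n + W then x ((n + (i : ℕ) : ℕ) : ℤ) else _) = u _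
      rw [if_pos this, hux]
    · funext i
      have hi := i.2
      have : (((i : ℕ) : ℕ) : ℤ) < n + W := by omega
      show (if (((i : ℕ) : ℕ) : ℤ) < n + W then x (((i : ℕ) : ℕ) : ℤ) else _) = u _
      rw [if_pos this, hux]

theorem ncard_split {α β : Type*} [Finite α] [Fintype β] (s : Set α) (t : β → Set α)
    (h1 : s = ⋃ b, t b) (h2 : ∀ b b', b ≠ b' → Disjoint (t b) (t b')) :
    s.ncard = ∑ b, (t b).ncard := by
  classical
  haveI := Fintype.ofFinite α
  rw [Set.ncard_eq_toFinset_card']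
  have h3 : s.toFinset = Finset.univ.biUnion (fun b => (t b).toFinset) := by
    ext a
    simp [h1]
  rw [h3, Finset.card_biUnion]
  · apply Finset.sum_congr rfl
    intro b _
    rw [Set.ncard_eq_toFinset_card']
  · intro b _ b' _ hb
    show Disjoint _ _
    rw [Set.disjoint_toFinset]
    exact h2 b b' hb

theorem win_mem {k : ℕ} (H : Hyp Y W) {u : Fin k → A} (hu : u ∈ Lang Y k) (j : ℕ)
    (h : j + W ≤ k) : win u j h ∈ Lang Y W := by
  obtain ⟨x, hx, hux⟩ := hu
  refine ⟨_, H.sh x hx j, fun i => ?_⟩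
  show u _ = _
  rw [hux]
  congr 1
  push_cast
  ring

theorem pow_eq (H : Hyp Y W) (n : ℕ) (v w : St Y W) :
    (Bm Y W ^ n) v w = (S Y W n v w).ncard := by
  classical
  have hW := H.pos
  induction n generalizing w with
  | zero =>
    rw [pow_zero, Matrix.one_apply]
    split_ifs with h
    · subst h
      symm
      rw [Set.ncard_eq_one]
      refine ⟨fun i => v.1 ⟨i, by have := i.2; omega⟩, ?_⟩
      ext u
      constructor
      · rintro ⟨h1, h2, h3⟩
        rw [Set.mem_singleton_iff]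
        funext i
        rw [← h2]
        show u i = u _
        congr 1
        apply Fin.ext
        simp
      · intro hu
        rw [Set.mem_singleton_iff] at hu
        subst hu
        refine ⟨?_, ?_, ?_⟩
        · obtain ⟨x, hx, hux⟩ := v.2
          exact ⟨x, hx, fun i => hux _⟩
        · funext i
          show v.1 _ = v.1 i
          exact congrArg v.1 (Fin.ext (by simp))
        · funext i
          show v.1 _ = v.1 i
          exact congrArg v.1 (Fin.ext (by simp))
    · symm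
      rw [Set.ncard_eq_zero]
      rw [Set.eq_empty_iff_forall_notMem]
      rintro u ⟨-, h2, h3⟩
      exact h (Subtype.ext (h2.symm.trans h3))
  | succ n ih =>
    rw [pow_succ, Matrix.mul_apply]
    rw [ncard_split (S Y W (n + 1) v w)
      (fun b : St Y W => {u | u ∈ S Y W (n + 1) v w ∧ win (W := W) u n (by omega) = b.1})]
    · apply Finset.sum_congr rfl
      intro b _
      rw [ih b]
      unfold Bm
      split_ifs with hA
      · rw [mul_one, fiber_card Y W H n v b w hA]
      · rw [fiber_empty Y W H n v b w hA, mul_zero, Set.ncard_empty]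
    · ext u
      simp only [Set.mem_iUnion, Set.mem_setOf_eq, exists_and_left]
      constructor
      · intro hu
        exact ⟨hu, ⟨_, win_mem Y W H hu.1 n (by omega)⟩, rfl⟩
      · rintro ⟨hu, -⟩
        exact hu
    · intro b b' hb
      rw [Set.disjoint_left]
      rintro u ⟨-, h1⟩ ⟨-, h2⟩
      exact hb (Subtype.ext (h1.symm.trans h2))

theorem lang_card (H : Hyp Y W) (n : ℕ) :
    (Lang Y (n + W)).ncard = ∑ v, ∑ w, (Bm Y W ^ n) v w := by
  classical
  have h0 : ∀ v, ∑ w, (Bm Y W ^ n) v w =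
      {u | u ∈ Lang Y (n + W) ∧ win (W := W) u 0 (by omega) = v.1}.ncard := by
    intro v
    rw [ncard_split {u | u ∈ Lang Y (n + W) ∧ win (W := W) u 0 (by omega) = v.1}
      (fun w : St Y W => S Y W n v w)]
    · apply Finset.sum_congr rfl
      intro w _
      rw [pow_eq Y W H]
    · ext u
      simp only [Set.mem_iUnion, Set.mem_setOf_eq]
      constructor
      · rintro ⟨hu, hv⟩
        exact ⟨⟨_, win_mem Y W H hu n le_rfl⟩, hu, hv, rfl⟩
      · rintro ⟨w, hu, hv, -⟩
        exact ⟨hu, hv⟩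
    · intro b b' hb
      rw [Set.disjoint_left]
      rintro u ⟨-, -, h1⟩ ⟨-, -, h2⟩
      exact hb (Subtype.ext (h1.symm.trans h2))
  simp only [h0]
  rw [ncard_split (Lang Y (n + W))
    (fun v : St Y W => {u | u ∈ Lang Y (n + W) ∧ win (W := W) u 0 (by omega) = v.1})]
  · ext u
    simp only [Set.mem_iUnion, Set.mem_setOf_eq, exists_and_left]
    constructor
    · intro hu
      exact ⟨hu, ⟨_, win_mem Y W H hu 0 (by omega)⟩, rfl⟩
    · rintro ⟨hu, -⟩
      exact hu
  · intro b b' hb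
    rw [Set.disjoint_left]
    rintro u ⟨-, h1⟩ ⟨-, h2⟩
    exact hb (Subtype.ext (h1.symm.trans h2))

end count

theorem numPatterns_eq (X : Set (Conf 1 A)) (k : ℕ) :
    numPatterns X k = (Lang {u | cf u ∈ X} k).ncard := by
  unfold numPatterns
  let e : Fin k → cube 1 k := fun i => ⟨fun _ => ((i : ℕ) : ℤ), fun _ => by
    have := i.2
    show 0 ≤ ((i : ℕ) : ℤ) ∧ ((i : ℕ) : ℤ) < (k : ℤ)
    constructor <;> omega⟩
  have he : Function.Surjective e := by
    rintro ⟨s, hs⟩
    have h0 := hs 0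
    refine ⟨⟨(s 0).toNat, by omega⟩, ?_⟩
    apply Subtype.ext
    funext i
    rw [Subsingleton.elim i 0]
    show (((s 0).toNat : ℕ) : ℤ) = s 0
    exact Int.toNat_of_nonneg h0.1
  have hinj : Function.Injective (fun f : cube 1 k → A => f ∘ e) := he.injective_comp_right
  rw [← Set.ncard_image_of_injective _ hinj, Set.image_image]
  congr 1
  ext w
  constructor
  · rintro ⟨x, hx, rfl⟩
    refine ⟨fun m => x (fun _ => m), ?_, fun i => rfl⟩
    show cf _ ∈ X
    rw [cf_surj]
    exact hx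
  · rintro ⟨u, hu, huw⟩
    refine ⟨cf u, hu, ?_⟩
    funext i
    rw [huw i]
    rfl

end WordsA

open WordsA in
theorem words {A : Type} [Finite A] (X : Set (Conf 1 A)) (hX : IsSFT X) (hne : X.Nonempty) :
    ∃ (W q : ℕ) (B : Matrix (Fin q) (Fin q) ℕ), 0 < q ∧
      (∀ n : ℕ, numPatterns X (n + W) = ∑ v, ∑ w, (B ^ n) v w) ∧
      (StronglyIrreducible X → ∃ r0 : ℕ, ∀ r, r0 ≤ r → ∀ v w, 0 < (B ^ r) v w) := by
  classical
  obtain ⟨W, hW, hmk⟩ := markov X hX
  let Y : Set (ℤ → A) := {u | cf u ∈ X}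
  have H : Hyp Y W := ⟨hW, hmk, fun x hx k => shift X hX x hx k⟩
  let e : St Y W ≃ Fin (Fintype.card (St Y W)) := Fintype.equivFin _
  have hpow : ∀ n v w, (((Matrix.reindexAlgEquiv ℕ ℕ e) (Bm Y W)) ^ n) v w =
      (Bm Y W ^ n) (e.symm v) (e.symm w) := by
    intro n v w
    rw [← map_pow]
    rfl
  refine ⟨W, Fintype.card (St Y W), Matrix.reindexAlgEquiv ℕ ℕ e (Bm Y W), ?_, ?_, ?_⟩
  · obtain ⟨x, hx⟩ := hne
    have hx' : (fun m : ℤ => x (fun _ => m)) ∈ Y := by
      show cf _ ∈ X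
      rw [cf_surj]
      exact hx
    exact Fintype.card_pos_iff.2 ⟨⟨fun i => x (fun _ => ((i : ℕ) : ℤ)), _, hx', fun i => rfl⟩⟩
  · intro n
    rw [numPatterns_eq, lang_card Y W H n]
    simp only [hpow]
    rw [← e.sum_comp]
    apply Finset.sum_congr rfl
    intro v _
    rw [← e.sum_comp]
    apply Finset.sum_congr rfl
    intro w _
    simp
  · rintro ⟨M, hM, hSI⟩
    refine ⟨M + W, fun r hr v w => ?_⟩
    rw [hpow, pow_eq Y W H, Set.ncard_pos (Set.toFinite _)]
    obtain ⟨x, hx, hxv⟩ := (e.symm v).2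
    obtain ⟨y, hy, hyw⟩ := (e.symm w).2
    have hy' : cf (fun m => y (m + -r)) ∈ X := H.sh y hy (-r)
    obtain ⟨z, hz, hz1, hz2⟩ := hSI {s | 0 ≤ s 0 ∧ s 0 < W} {s | (r : ℤ) ≤ s 0 ∧ s 0 < r + W} (by
      rintro s ⟨hs1, hs2⟩ t ⟨ht1, ht2⟩
      refine ⟨0, ?_⟩
      rw [abs_sub_comm]
      apply le_trans _ (le_abs_self _)
      omega) (cf x) hx (cf (fun m => y (m + -r))) hy'
    have hz' : (fun m : ℤ => z (fun _ => m)) ∈ Y := by
      show cf _ ∈ X
      rw [cf_surj]
      exact hz
    refine ⟨fun i => z (fun _ => ((i : ℕ) : ℤ)), ⟨_, hz', fun i => rfl⟩, ?_, ?_⟩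
    · funext i
      have hi := i.2
      rw [hxv i]
      show z (fun _ => ((0 + (i : ℕ) : ℕ) : ℤ)) = _
      rw [hz1 (fun _ => ((0 + (i : ℕ) : ℕ) : ℤ)) (by
        show 0 ≤ ((0 + (i : ℕ) : ℕ) : ℤ) ∧ ((0 + (i : ℕ) : ℕ) : ℤ) < (W : ℤ)
        constructor <;> omega)]
      show x _ = x _
      congr 1
      push_cast
      ring
    · funext i
      have hi := i.2
      rw [hyw i]
      show z (fun _ => ((r + (i : ℕ) : ℕ) : ℤ)) = _
      rw [hz2 (fun _ => ((r + (i : ℕ) : ℕ) : ℤ)) (by
        show (r : ℤ) ≤ ((r + (i : ℕ) : ℕ) : ℤ) ∧ ((r + (i : ℕ) : ℕ) : ℤ) < (r : ℤ) + W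
        constructor <;> omega)]
      show y _ = y _
      congr 1
      push_cast
      ring

end SIE
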