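import Pool.Agent.SIE.Sys
import Pool.Agent.SIE.Glue2
import Pool.Agent.SIE.Count
import Pool.Agent.SIE.Transfer
import Pool.Agent.SIE.Decomp
import Pool.Agent.SIE.Grow
import Pool.Agent.SIE.WordsA
import Pool.Agent.SIE.NonnegEig

/-!
# Assembly (MP_7034eb_an)
-/

set_option autoImplicit false

namespace SIE

open Filter Topology

/-- the explicit system realises `log λ` whenever `A φ = λ ^ k φ` -/
theorem sys_mem (d : ℕ) {q : ℕ} (k : ℕ) (A : Matrix (Fin q) (Fin q) ℕ) (hk : 1 ≤ k) (hq : 0 < q)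
    (hA : ∀ v w, 2 * k ≤ A v w) (φ : Fin q → ℝ) (hφ : ∀ v, 0 < φ v) (lam : ℝ) (hlam : 0 < lam)
    (hAφ : ∀ v, ∑ w, (A v w : ℝ) * φ w = lam ^ k * φ v) : Real.log lam ∈ E (d + 2) := by
  have := finite_Al k A hk
  have := Fintype.ofFinite (Al k A)
  obtain ⟨W, T, hW, hT, hst⟩ := sys_weights k A hk φ hφ lam hlam hAφ
  have hne := sys_nonempty k A hk hq hA
  obtain ⟨C, hC, hb⟩ := count_bounds (HA k A) (VA k A) W T hW hT lam hlam hst hne
  exact transfer d (HA k A) (VA k A) hne (sys_SI k A hk hq hA) lam hlam C hC hb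

theorem zero_mem (d : ℕ) : (0 : ℝ) ∈ E (d + 2) := by
  have hne : (Sys2 (fun _ _ : Unit => True) (fun _ _ : Unit => True)).Nonempty :=
    ⟨fun _ _ => (), fun _ _ => ⟨trivial, trivial⟩⟩
  have hSI : SI2 (Sys2 (fun _ _ : Unit => True) (fun _ _ : Unit => True)) :=
    ⟨1, le_rfl, fun F G _ x hx y _ => ⟨x, hx, fun _ _ => rfl, fun _ _ => rfl⟩⟩
  obtain ⟨C, hC, hb⟩ := count_bounds (S := Unit) (fun _ _ => True) (fun _ _ => True)
    (fun _ => 1) (fun _ => 1) (fun _ => one_pos) (fun _ => one_pos) 1 one_pos (by simp) hne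
  simpa using transfer d (S := Unit) (fun _ _ => True) (fun _ _ => True) hne hSI 1 one_pos C hC hb

/-- walks of the transition matrix grow like `exp h` -/
theorem tendsto_walks {A : Type} (X : Set (Conf 1 A)) (h : ℝ) (hh : HasEntropy X h) (W : ℕ)
    (S : ℕ → ℕ) (hS : ∀ n : ℕ, numPatterns X (n + W) = S n) :
    Tendsto (fun n : ℕ => Real.log (S n : ℝ) / (n : ℝ)) atTop (𝓝 h) := by
  have h1 : Tendsto (fun n : ℕ => Real.log (numPatterns X (n + W)) / ((n + W : ℕ) : ℝ) ^ 1)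
      atTop (𝓝 h) := hh.comp (tendsto_add_atTop_nat W)
  have h2 : Tendsto (fun n : ℕ => 1 + (W : ℝ) / (n : ℝ)) atTop (𝓝 (1 + 0)) :=
    tendsto_const_nhds.add (tendsto_const_div_atTop_nhds_zero_nat (W : ℝ))
  have h3 := h1.mul h2
  rw [add_zero, mul_one] at h3
  refine h3.congr' ?_
  filter_upwards [eventually_gt_atTop 0] with n hn
  have hn' : (n : ℝ) ≠ 0 := by positivity
  have hnW : ((n : ℝ) + W) ≠ 0 := by positivity
  rw [hS n]
  push_cast
  field_simp

/-- **Main theorem.** For every `d ≥ 2` and `K ≥ 1`, if `h` is the entropy of a nonempty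
`ℤ`-SFT then `h / K ∈ E d`. -/
theorem div_mem (d : ℕ) (hd : 2 ≤ d) {A : Type} [Finite A] (X : Set (Conf 1 A)) (hX : IsSFT X)
    (hne : X.Nonempty) (h : ℝ) (hh : HasEntropy X h) (K : ℕ) (hK : 1 ≤ K) :
    h / K ∈ E d := by
  obtain ⟨d, rfl⟩ : ∃ d', d = d' + 2 := ⟨d - 2, by omega⟩
  obtain ⟨W, q, B, hq, hB, -⟩ := words X hX hne
  have ht := tendsto_walks X h hh W _ hB
  have hpos : ∀ n : ℕ, 0 < ∑ v, ∑ w, (B ^ n) v w := by
    intro n
    rw [← hB n]
    unfold numPatterns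
    have : Finite (cube 1 (n + W)) := by
      have : (cube 1 (n + W)) ⊆ Set.pi Set.univ (fun _ => Set.Icc (0 : ℤ) ((n + W : ℕ) : ℤ)) := by
        intro s hs i _
        exact ⟨(hs i).1, (hs i).2.le⟩
      exact ((Set.Finite.pi' (fun _ => Set.finite_Icc _ _)).subset
        (fun s hs => by intro i; exact ⟨(hs i).1, (hs i).2.le⟩)).to_subtype
    exact (Set.ncard_pos (Set.toFinite _)).2 (hne.image _)
  have hh0 : 0 ≤ h := by
    refine ge_of_tendsto' ht fun n => ?_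
    have : (1 : ℝ) ≤ ((∑ v, ∑ w, (B ^ n) v w : ℕ) : ℝ) := by exact_mod_cast hpos n
    exact div_nonneg (Real.log_nonneg this) (Nat.cast_nonneg n)
  rcases hh0.eq_or_lt with h0 | h0
  · rw [← h0, zero_div]; exact zero_mem d
  obtain ⟨φ, hφ0, hφ1, hBφ⟩ := nonneg_eig B h hpos ht
  obtain ⟨k, p, P, ψ, hk, hp, hψ, hPψ, hprim⟩ := exists_primitive B h φ hφ0 hφ1 hBφ
  have hkh : 0 < (k : ℝ) * h := by positivity
  obtain ⟨r, hr, hPr⟩ := grow hp P ψ ((k : ℝ) * h) hkh hψ hPψ hprim (2 * (k * K))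
  have hpow : ∀ (n : ℕ) (v : Fin p), ∑ w, ((P ^ n) v w : ℝ) * ψ w =
      Real.exp ((k : ℝ) * h) ^ n * ψ v := by
    intro n
    induction n with
    | zero => intro v; simp [Matrix.one_apply]
    | succ n ih =>
      intro v
      have h1 : ∀ w, (((P ^ (n + 1)) v w : ℕ) : ℝ) * ψ w =
          ∑ u, ((P v u : ℕ) : ℝ) * (((P ^ n) u w : ℕ) : ℝ) * ψ w := by
        intro w
        rw [pow_succ', Matrix.mul_apply]
        push_cast
        rw [Finset.sum_mul]
      simp_rw [h1]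
      rw [Finset.sum_comm]
      have h2 : ∀ u, ∑ w, ((P v u : ℕ) : ℝ) * (((P ^ n) u w : ℕ) : ℝ) * ψ w =
          ((P v u : ℕ) : ℝ) * (Real.exp ((k : ℝ) * h) ^ n * ψ u) := by
        intro u
        rw [← ih u, Finset.mul_sum]
        exact Finset.sum_congr rfl fun w _ => by ring
      simp_rw [h2]
      have h3 : ∀ u, ((P v u : ℕ) : ℝ) * (Real.exp ((k : ℝ) * h) ^ n * ψ u) =
          Real.exp ((k : ℝ) * h) ^ n * (((P v u : ℕ) : ℝ) * ψ u) := fun u => by ring
      simp_rw [h3]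
      rw [← Finset.mul_sum, hPψ v, pow_succ]
      ring
  have hlam : Real.exp (h / K) ^ (k * K * r) = Real.exp ((k : ℝ) * h) ^ r := by
    rw [← Real.exp_nat_mul, ← Real.exp_nat_mul]
    congr 1
    have hK' : (K : ℝ) ≠ 0 := by positivity
    push_cast
    field_simp
  have key := sys_mem d (k * K * r) (P ^ r) (Nat.mul_pos (Nat.mul_pos hk hK) hr) hp (fun v w => by
    have := hPr v w
    calc 2 * (k * K * r) = 2 * (k * K) * r := by ring
      _ ≤ _ := this) ψ hψ (Real.exp (h / K)) (Real.exp_pos _) (fun v => by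
        rw [hlam]; exact hpow r v)
  rwa [Real.log_exp] at key

/-- `E 1` divided by any positive integer is contained in `E d` -/
theorem div_mem_of_E1 (d : ℕ) (hd : 2 ≤ d) (h : ℝ) (hh : h ∈ E 1) (K : ℕ) (hK : 1 ≤ K) :
    h / K ∈ E d := by
  obtain ⟨A, hA, X, hX, hne, -, hent⟩ := hh
  exact div_mem d hd X hX hne h hent K hK

end SIE
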