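import Pool.Agent.SIE.Defs

/-!
# Perron's theorem for entrywise positive matrices (module of MP_7034eb_an)

PAPER PROOF.
`perron_exists` (Collatz-Wielandt).  Let `Δ` be the standard simplex of `n → ℝ`
(`stdSimplex ℝ n`, compact, nonempty).  Let `K = {(c, x) : x ∈ Δ, 0 ≤ c ≤ ∑ i j A i j,
∀ i, c * x i ≤ (A x) i}`; it is a closed subset of a compact set and nonempty (`c = 0`).  The
bound `c ≤ ∑ i j, A i j` is automatic: summing `c x_i ≤ (A x)_i ≤ ∑_j A i j` over `i` gives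
`c ≤ ∑ A i j`.  Choose `(c, x) ∈ K` with `c` maximal.  Put `y = A x`, so `y ≥ c x` and `y i > 0`
for all `i` (`x ≥ 0`, `x ≠ 0`).  If `y ≠ c x` then `A (y - c x)` has only positive entries, so
`(A y) i > c y i` for all `i`; with `x' = y / ∑ y ∈ Δ` we get `(A x') i > c x' i` for all `i`,
hence (finitely many `i`) `(A x') i ≥ (c + ε) x' i` for some `ε > 0` - contradiction.  So
`A x = c x`, and `c x i = y i > 0` gives `c > 0`, `x i > 0`.

`perron_unique`.  Let `c = min_i ψ i / φ i`, attained at `i₀`.  `χ = ψ - c φ ≥ 0`, `χ i₀ = 0`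
and `A χ = μ χ`.  If `χ ≠ 0` then `(A χ) i₀ > 0` while `μ χ i₀ = 0` - contradiction.
-/

set_option autoImplicit false

namespace SIE

theorem perron_exists {n : Type} [Fintype n] [Nonempty n] (A : n → n → ℝ)
    (hA : ∀ i j, 0 < A i j) :
    ∃ (μ : ℝ) (φ : n → ℝ), 0 < μ ∧ (∀ i, 0 < φ i) ∧ ∀ i, ∑ j, A i j * φ j = μ * φ i := by
  classical
  obtain ⟨S, hS⟩ : ∃ S : ℝ, S = ∑ i, ∑ j, A i j := ⟨_, rfl⟩
  have hS0 : 0 ≤ S := by
    rw [hS]
    exact Finset.sum_nonneg fun i _ => Finset.sum_nonneg fun j _ => (hA i j).le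
  let K : Set (ℝ × (n → ℝ)) :=
    {p | p.1 ∈ Set.Icc 0 S ∧ p.2 ∈ stdSimplex ℝ n ∧ ∀ i, p.1 * p.2 i ≤ ∑ j, A i j * p.2 j}
  have hKc : IsCompact K := by
    have h1 : K = (Set.Icc 0 S ×ˢ stdSimplex ℝ n) ∩
        {p | ∀ i, p.1 * p.2 i ≤ ∑ j, A i j * p.2 j} := by
      ext p
      simp only [K, Set.mem_setOf_eq, Set.mem_inter_iff, Set.mem_prod, and_assoc]
    rw [h1]
    refine (isCompact_Icc.prod (isCompact_stdSimplex ℝ n)).inter_right ?_
    rw [Set.setOf_forall]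
    refine isClosed_iInter fun i => isClosed_le ?_ ?_
    · fun_prop
    · fun_prop
  have hKne : K.Nonempty := by
    obtain ⟨i₀⟩ := ‹Nonempty n›
    refine ⟨(0, Pi.single i₀ 1), ⟨le_refl _, hS0⟩, single_mem_stdSimplex ℝ i₀, ?_⟩
    intro i
    simp only [zero_mul]
    refine Finset.sum_nonneg fun j _ => mul_nonneg (hA i j).le ?_
    exact (single_mem_stdSimplex ℝ i₀).1 j
  obtain ⟨⟨c, x⟩, hcx, hmax⟩ := hKc.exists_isMaxOn hKne continuous_fst.continuousOn
  obtain ⟨⟨hc0, hcS⟩, ⟨hx0, hx1⟩, hle⟩ := hcx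
  simp only at hc0 hcS hx0 hx1 hle
  obtain ⟨y, hy⟩ : ∃ y : n → ℝ, y = fun i => ∑ j, A i j * x j := ⟨_, rfl⟩
  have hle' : ∀ i, c * x i ≤ y i := by
    intro i
    rw [hy]
    exact hle i
  obtain ⟨j₀, hj₀⟩ : ∃ j, 0 < x j := by
    by_contra hcon
    push Not at hcon
    have h1 : ∑ j, x j ≤ 0 := Finset.sum_nonpos fun j _ => hcon j
    rw [hx1] at h1
    linarith
  have hypos : ∀ i, 0 < y i := by
    intro i
    rw [hy]
    refine Finset.sum_pos' (fun j _ => mul_nonneg (hA i j).le (hx0 j)) ⟨j₀, Finset.mem_univ _, ?_⟩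
    exact mul_pos (hA i j₀) hj₀
  have heq : ∀ i, c * x i = y i := by
    by_contra hcon
    push Not at hcon
    obtain ⟨i₁, hi₁⟩ := hcon
    have hi₁' : 0 < y i₁ - c * x i₁ := sub_pos.2 (lt_of_le_of_ne (hle' i₁) hi₁)
    have h1 : ∀ i, c * y i < ∑ j, A i j * y j := by
      intro i
      have h2 : 0 < ∑ j, A i j * (y j - c * x j) := by
        refine Finset.sum_pos' (fun j _ => mul_nonneg (hA i j).le (sub_nonneg.2 (hle' j)))
          ⟨i₁, Finset.mem_univ _, mul_pos (hA i i₁) hi₁'⟩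
      have h3 : ∑ j, A i j * (y j - c * x j) = ∑ j, A i j * y j - c * y i := by
        have h4 : y i = ∑ j, A i j * x j := by rw [hy]
        rw [h4, Finset.mul_sum, ← Finset.sum_sub_distrib]
        exact Finset.sum_congr rfl fun j _ => by ring
      rw [h3] at h2
      linarith
    obtain ⟨s, hs⟩ : ∃ s : ℝ, s = ∑ j, y j := ⟨_, rfl⟩
    have hspos : 0 < s := by
      rw [hs]
      exact Finset.sum_pos (fun j _ => hypos j) Finset.univ_nonempty
    obtain ⟨x', hx'⟩ : ∃ x' : n → ℝ, x' = fun i => y i / s := ⟨_, rfl⟩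
    have hx'0 : ∀ i, 0 ≤ x' i := fun i => by
      rw [hx']
      exact (div_pos (hypos i) hspos).le
    have hx'1 : ∑ i, x' i = 1 := by
      rw [hx', ← Finset.sum_div, ← hs, div_self hspos.ne']
    have hx'le : ∀ i, x' i ≤ 1 := fun i => by
      rw [← hx'1]
      exact Finset.single_le_sum (fun j _ => hx'0 j) (Finset.mem_univ i)
    have h2 : ∀ i, 0 < ∑ j, A i j * x' j - c * x' i := by
      intro i
      have h3 : ∑ j, A i j * x' j = (∑ j, A i j * y j) / s := by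
        rw [Finset.sum_div]
        exact Finset.sum_congr rfl fun j _ => by rw [hx']; ring
      have h4 : c * x' i = (c * y i) / s := by rw [hx']; ring
      rw [h3, h4, ← sub_div]
      exact div_pos (sub_pos.2 (h1 i)) hspos
    obtain ⟨i₂, hi₂⟩ := Finite.exists_min fun i => ∑ j, A i j * x' j - c * x' i
    obtain ⟨ε, hε⟩ : ∃ ε : ℝ, ε = ∑ j, A i₂ j * x' j - c * x' i₂ := ⟨_, rfl⟩
    have hεpos : 0 < ε := hε ▸ h2 i₂
    have h5 : ∀ i, (c + ε) * x' i ≤ ∑ j, A i j * x' j := by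
      intro i
      have h6 := hi₂ i
      have h7 : ε * x' i ≤ ε := by nlinarith [hx'le i, hεpos]

      rw [← hε] at h6
      linarith [h7, add_mul c ε (x' i)]
    have h8 : c + ε ≤ S := by
      have h9 : ∑ i, (c + ε) * x' i ≤ ∑ i, ∑ j, A i j * x' j :=
        Finset.sum_le_sum fun i _ => h5 i
      rw [← Finset.mul_sum, hx'1, mul_one] at h9
      refine h9.trans ?_
      rw [hS]
      refine Finset.sum_le_sum fun i _ => Finset.sum_le_sum fun j _ => ?_
      have := mul_le_mul_of_nonneg_left (hx'le j) (hA i j).le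
      linarith
    have h10 : (c + ε, x') ∈ K := ⟨⟨by linarith, h8⟩, ⟨hx'0, hx'1⟩, h5⟩
    have h11 := hmax h10
    simp only [Set.mem_setOf_eq] at h11
    linarith
  have hpos : ∀ i, 0 < c * x i := fun i => by rw [heq i]; exact hypos i
  have hc : 0 < c := by
    rcases hc0.lt_or_eq with h | h
    · exact h
    · have := hpos j₀
      rw [← h, zero_mul] at this
      exact absurd this (lt_irrefl _)
  refine ⟨c, x, hc, fun i => ?_, fun i => ?_⟩
  · exact (mul_pos_iff_of_pos_left hc).1 (hpos i)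
  · rw [heq i, hy]

theorem perron_unique {n : Type} [Fintype n] [Nonempty n] (A : n → n → ℝ)
    (hA : ∀ i j, 0 < A i j) (μ : ℝ) (φ : n → ℝ) (hφ : ∀ i, 0 < φ i)
    (hAφ : ∀ i, ∑ j, A i j * φ j = μ * φ i) (ψ : n → ℝ)
    (hψ : ∀ i, ∑ j, A i j * ψ j = μ * ψ i) : ∃ c : ℝ, ∀ i, ψ i = c * φ i := by
  obtain ⟨i₀, hi₀⟩ := Finite.exists_min fun i => ψ i / φ i
  obtain ⟨c, hc⟩ : ∃ c : ℝ, c = ψ i₀ / φ i₀ := ⟨_, rfl⟩
  have h0 : ∀ i, 0 ≤ ψ i - c * φ i := by
    intro i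
    have h1 := hi₀ i

    rw [← hc, le_div_iff₀ (hφ i)] at h1
    linarith
  have h1 : ψ i₀ - c * φ i₀ = 0 := by
    rw [hc, div_mul_cancel₀ _ (hφ i₀).ne', sub_self]
  have h2 : ∑ j, A i₀ j * (ψ j - c * φ j) = 0 := by
    have h3 : ∑ j, A i₀ j * (ψ j - c * φ j) =
        ∑ j, A i₀ j * ψ j - c * ∑ j, A i₀ j * φ j := by
      rw [Finset.mul_sum, ← Finset.sum_sub_distrib]
      exact Finset.sum_congr rfl fun j _ => by ring
    rw [h3, hψ, hAφ]
    have h4 : μ * ψ i₀ - c * (μ * φ i₀) = μ * (ψ i₀ - c * φ i₀) := by ring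
    rw [h4, h1, mul_zero]
  refine ⟨c, fun i => ?_⟩
  have h3 := (Finset.sum_eq_zero_iff_of_nonneg
    (fun j _ => mul_nonneg (hA i₀ j).le (h0 j))).1 h2 i (Finset.mem_univ i)
  have h4 := (mul_eq_zero.1 h3).resolve_left (hA i₀ i).ne'
  linarith

end SIE
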