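import Pool.Agent.SIE.WordsA
import Pool.Agent.SIE.NonnegEig
import Pool.Agent.SIE.Perron

/-!
# `(log 2) / 2` is not the entropy of a strongly irreducible `ℤ`-SFT (module of MP_7034eb_an)

PAPER PROOF of `half_log_two_notMem`.  Suppose `h = (log 2)/2 ∈ E 1`.  By `words` there are `B`
(`q ≥ 1`) with `numPatterns X (n + W) = ∑ B^n` and `B^r > 0` for `r ≥ r0`.  Then
`log (∑ B^n) / n = (log numPatterns X (n+W) / (n+W)) * ((n+W)/n) → h`, so `nonneg_eig` gives
`φ ≥ 0`, `φ ≠ 0` with `B φ = exp h φ = √2 φ`; as `B^r0 φ = √2^r0 φ` and `B^r0 > 0`, `φ > 0`.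
Now `B² φ = 2 φ`, so the integer matrix `B² - 2` is singular over `ℝ`, hence over `ℚ`
(determinant!), so there is a rational vector `u ≠ 0` with `B² u = 2 u`.  Put
`ψ = B u - √2 u` (a real vector).  `ψ ≠ 0`: choose `i` with `u i ≠ 0`, then `(B u) i = √2 u i`
is impossible as `√2` is irrational.  `B ψ = 2 u - √2 B u = -√2 ψ`.
With `r = 2 * (r0 + 1)`: `B^r ψ = (√2)^r ψ` and `B^r φ = (√2)^r φ`, `B^r > 0`, so
`ψ = c φ` by `perron_unique`.  Then `-√2 ψ = B ψ = √2 ψ`, so `ψ = 0`, a contradiction.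

PAPER PROOF of `log_two_mem`.  The full shift `X = univ` on `Bool`: forbidden set `∅`, `M = 1`,
`numPatterns X k = 2 ^ k` (the cube `cube 1 k` has `k` points).
-/

set_option autoImplicit false

namespace SIE

open Filter Topology

theorem mulVec_pow_eq {q : ℕ} (B : Matrix (Fin q) (Fin q) ℝ) (φ : Fin q → ℝ) (c : ℝ)
    (h : B.mulVec φ = c • φ) (n : ℕ) : (B ^ n).mulVec φ = c ^ n • φ := by
  induction n with
  | zero => simp
  | succ n ih =>
    rw [pow_succ, ← Matrix.mulVec_mulVec, h, Matrix.mulVec_smul, ih, smul_smul, pow_succ, mul_comm]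

theorem numPatterns_pos {A : Type} [Finite A] (X : Set (Conf 1 A)) (hne : X.Nonempty) (k : ℕ) :
    0 < numPatterns X k := by
  rw [WordsA.numPatterns_eq, Set.ncard_pos (Set.toFinite _)]
  obtain ⟨x, hx⟩ := hne
  refine ⟨fun i => x (fun _ => ((i : ℕ) : ℤ)), fun m => x (fun _ => m), ?_, fun i => rfl⟩
  show WordsA.cf _ ∈ X
  rw [WordsA.cf_surj]
  exact hx

theorem tendsto_words {A : Type} (X : Set (Conf 1 A)) (h : ℝ) (hX : HasEntropy X h) (W : ℕ)
    (f : ℕ → ℕ) (hf : ∀ n, numPatterns X (n + W) = f n) :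
    Tendsto (fun n : ℕ => Real.log (f n : ℝ) / (n : ℝ)) atTop (𝓝 h) := by
  have h1 : Tendsto (fun n : ℕ => Real.log (f n : ℝ) / ((n : ℝ) + W)) atTop (𝓝 h) := by
    have h2 := hX.comp (tendsto_add_atTop_nat W)
    refine h2.congr fun n => ?_
    simp only [Function.comp_apply, pow_one, Nat.cast_add]
    rw [hf n]
  have h3 : Tendsto (fun n : ℕ => ((n : ℝ) + W) / (n : ℝ)) atTop (𝓝 1) := by
    have h4 : Tendsto (fun n : ℕ => 1 + (W : ℝ) / (n : ℝ)) atTop (𝓝 (1 + 0)) :=
      tendsto_const_nhds.add (tendsto_const_div_atTop_nhds_zero_nat (W : ℝ))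
    rw [add_zero] at h4
    refine h4.congr' ?_
    filter_upwards [eventually_gt_atTop 0] with n hn
    have hn' : (n : ℝ) ≠ 0 := by positivity
    field_simp
  have h5 := h1.mul h3
  rw [mul_one] at h5
  refine h5.congr' ?_
  filter_upwards [eventually_gt_atTop 0] with n hn
  have hn' : (n : ℝ) ≠ 0 := by positivity
  have hn2 : (n : ℝ) + W ≠ 0 := by positivity
  field_simp

theorem half_log_two_notMem : Real.log 2 / 2 ∉ E 1 := by
  rintro ⟨A, hA, X, hSFT, hne, hSI, hent⟩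
  have _ := hA
  obtain ⟨W, q, B, hq, hB, hprim⟩ := words X hSFT hne
  obtain ⟨r0, hr0⟩ := hprim hSI
  have hS : ∀ n : ℕ, 0 < ∑ v, ∑ w, (B ^ n) v w := fun n => by
    rw [← hB n]
    exact numPatterns_pos X hne _
  have ht := tendsto_words X _ hent W (fun n => ∑ v, ∑ w, (B ^ n) v w) hB
  obtain ⟨φ, hφ0, ⟨v0, hv0⟩, hφ⟩ := nonneg_eig B (Real.log 2 / 2) hS ht
  have hexp : Real.exp (Real.log 2 / 2) = Real.sqrt 2 := by
    rw [Real.sqrt_eq_rpow, Real.rpow_def_of_pos two_pos]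
    congr 1
    ring
  rw [hexp] at hφ
  set Br : Matrix (Fin q) (Fin q) ℝ := B.map (Nat.castRingHom ℝ) with hBr
  set Bz : Matrix (Fin q) (Fin q) ℤ := B.map (Nat.castRingHom ℤ) with hBz
  have hBrz : Bz.map (Int.castRingHom ℝ) = Br := by
    ext i j
    simp [hBr, hBz]
  have hpow : ∀ n, (Br ^ n) = (B ^ n).map (Nat.castRingHom ℝ) := fun n => by
    rw [hBr]
    exact (Matrix.map_pow B (Nat.castRingHom ℝ) n).symm
  have hs2 : Real.sqrt 2 * Real.sqrt 2 = 2 := Real.mul_self_sqrt (by norm_num)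
  have hs0 : 0 < Real.sqrt 2 := Real.sqrt_pos.2 two_pos
  have hφ' : Br.mulVec φ = Real.sqrt 2 • φ := by
    funext v
    simp only [Matrix.mulVec, dotProduct, Pi.smul_apply, smul_eq_mul]
    exact hφ v
  have hφ2 : (Br ^ 2).mulVec φ = (2 : ℝ) • φ := by
    rw [mulVec_pow_eq Br φ _ hφ' 2, pow_two, hs2]
  -- an integer eigenvector of the square
  have hdet : (Bz ^ 2 - 2).det = 0 := by
    have h1 : ((Bz ^ 2 - 2).map (Int.castRingHom ℝ)).det = 0 := by
      rw [← Matrix.exists_mulVec_eq_zero_iff]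
      refine ⟨φ, fun h => ?_, ?_⟩
      · rw [h] at hv0
        simp at hv0
      · have h2 : (Bz ^ 2 - 2).map (Int.castRingHom ℝ) = Br ^ 2 - (2 : ℝ) • 1 := by
          rw [Matrix.map_sub _ (by simp), Matrix.map_pow, hBrz]
          congr 1
          ext i j
          simp only [Matrix.map_apply, Matrix.smul_apply, smul_eq_mul]
          by_cases hij : i = j
          · subst hij
            rw [show (2 : Matrix (Fin q) (Fin q) ℤ) = ((2 : ℕ) : Matrix (Fin q) (Fin q) ℤ) from rfl,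
              Matrix.natCast_apply, if_pos rfl]
            simp
          · rw [Matrix.one_apply_ne hij]
            rw [show (2 : Matrix (Fin q) (Fin q) ℤ) = ((2 : ℕ) : Matrix (Fin q) (Fin q) ℤ) from rfl,
              Matrix.natCast_apply, if_neg hij]
            simp
        rw [h2, Matrix.sub_mulVec, hφ2, Matrix.smul_mulVec, Matrix.one_mulVec, sub_self]
    have h3 := (Int.castRingHom ℝ).map_det (Bz ^ 2 - 2)
    rw [RingHom.mapMatrix_apply, h1] at h3
    have h4 : (((Bz ^ 2 - 2).det : ℤ) : ℝ) = 0 := h3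
    exact_mod_cast h4
  obtain ⟨u, hu0, hu⟩ := Matrix.exists_mulVec_eq_zero_iff.2 hdet
  have hu2 : (Bz ^ 2).mulVec u = (2 : ℤ) • u := by
    rw [Matrix.sub_mulVec, sub_eq_zero] at hu
    rw [hu]
    rw [show (2 : Matrix (Fin q) (Fin q) ℤ) = (2 : ℤ) • (1 : Matrix (Fin q) (Fin q) ℤ) by
      rw [two_smul, one_add_one_eq_two], Matrix.smul_mulVec, Matrix.one_mulVec]
  set y : Fin q → ℤ := Bz.mulVec u with hy
  have hBy : Bz.mulVec y = (2 : ℤ) • u := by
    rw [hy, Matrix.mulVec_mulVec, ← pow_two, hu2]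
  have hcast : ∀ x : Fin q → ℤ, Br.mulVec (fun i => (x i : ℝ)) = fun i => ((Bz.mulVec x i : ℤ) : ℝ) := by
    intro x
    funext i
    simp [Matrix.mulVec, dotProduct, hBr, hBz]
  set ψ : Fin q → ℝ := fun i => (y i : ℝ) - Real.sqrt 2 * (u i : ℝ) with hψ
  have hψe : ψ = (fun i => (y i : ℝ)) - Real.sqrt 2 • (fun i => (u i : ℝ)) := by
    funext i
    simp [hψ]
  have hψ0 : ψ ≠ 0 := by
    intro h
    apply hu0
    funext i
    by_contra hui
    have h1 : ψ i = 0 := by rw [h]; rfl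
    simp only [hψ] at h1
    have hui' : (u i : ℝ) ≠ 0 := by exact_mod_cast hui
    have h2 : Real.sqrt 2 = ((y i : ℚ) / (u i : ℚ) : ℚ) := by
      push_cast
      rw [eq_div_iff hui']
      linarith
    exact irrational_sqrt_two ⟨_, h2.symm⟩
  have hBψ : Br.mulVec ψ = (-Real.sqrt 2) • ψ := by
    rw [hψe, Matrix.mulVec_sub, Matrix.mulVec_smul, hcast, hcast, hBy]
    funext i
    simp only [Pi.sub_apply, Pi.smul_apply, smul_eq_mul, hy]
    push_cast
    linear_combination (-(u i : ℝ)) * hs2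
  -- the Perron vector is unique
  set r := 2 * (r0 + 1) with hr
  have hrr : r0 ≤ r := by omega
  have hApos : ∀ i j, 0 < ((B ^ r) i j : ℝ) := fun i j => by exact_mod_cast hr0 r hrr i j
  have hAr : ∀ (x : Fin q → ℝ) (i : Fin q), ∑ j, ((B ^ r) i j : ℝ) * x j = (Br ^ r).mulVec x i := by
    intro x i
    rw [hpow]
    simp [Matrix.mulVec, dotProduct]
  have hφr : (Br ^ r).mulVec φ = (2 : ℝ) ^ (r0 + 1) • φ := by
    rw [mulVec_pow_eq Br φ _ hφ' r, hr, pow_mul, pow_two, hs2]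
  have hψr : (Br ^ r).mulVec ψ = (2 : ℝ) ^ (r0 + 1) • ψ := by
    rw [mulVec_pow_eq Br ψ _ hBψ r, hr, pow_mul, pow_two, neg_mul_neg, hs2]
  have hφpos : ∀ i, 0 < φ i := by
    intro i
    have h1 : 0 < ∑ j, ((B ^ r) i j : ℝ) * φ j := by
      apply Finset.sum_pos'
      · intro j _
        exact mul_nonneg (hApos i j).le (hφ0 j)
      · exact ⟨v0, Finset.mem_univ _, mul_pos (hApos i v0) hv0⟩
    rw [hAr, hφr, Pi.smul_apply, smul_eq_mul] at h1
    have h2 : (0 : ℝ) < 2 ^ (r0 + 1) := by positivity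
    exact (pos_iff_pos_of_mul_pos h1).1 h2
  have : Nonempty (Fin q) := ⟨v0⟩
  obtain ⟨c, hc⟩ := perron_unique (fun i j => ((B ^ r) i j : ℝ)) hApos (2 ^ (r0 + 1)) φ hφpos
    (fun i => by rw [hAr, hφr]; rfl) ψ (fun i => by rw [hAr, hψr]; rfl)
  have hψφ : ψ = c • φ := by
    funext i
    rw [hc i]
    rfl
  have h1 : Br.mulVec ψ = Real.sqrt 2 • ψ := by
    rw [hψφ, Matrix.mulVec_smul, hφ', smul_smul, smul_smul, mul_comm]
  rw [h1] at hBψ
  apply hψ0
  funext i
  have h2 := congrFun hBψ i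
  simp only [Pi.smul_apply, smul_eq_mul] at h2
  have h3 : Real.sqrt 2 * ψ i = 0 := by linarith
  rcases mul_eq_zero.1 h3 with h4 | h4
  · exact absurd h4 hs0.ne'
  · exact h4

theorem log_two_mem : Real.log 2 ∈ E 1 := by
  refine ⟨Bool, inferInstance, Set.univ, ⟨∅, Set.finite_empty, ?_⟩, ⟨fun _ => true, trivial⟩,
    ⟨1, le_rfl, ?_⟩, ?_⟩
  · ext x
    simp
  · intro F G hFG x _ y _
    classical
    refine ⟨fun s => if s ∈ F then x s else y s, trivial, fun s hs => if_pos hs, fun t ht => ?_⟩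
    refine if_neg fun htF => ?_
    obtain ⟨i, hi⟩ := hFG t htF t ht
    simp at hi
  · have h1 : ∀ k : ℕ, numPatterns (Set.univ : Set (Conf 1 Bool)) k = 2 ^ k := by
      intro k
      rw [WordsA.numPatterns_eq]
      have h2 : WordsA.Lang {u : ℤ → Bool | WordsA.cf u ∈ (Set.univ : Set (Conf 1 Bool))} k =
          Set.univ := by
        ext w
        refine ⟨fun _ => trivial, fun _ => ?_⟩
        refine ⟨fun m => if h : m.toNat < k then w ⟨m.toNat, h⟩ else true, trivial, fun i => ?_⟩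
        have hi := i.2
        simp [hi]
      rw [h2, Set.ncard_univ]
      simp
    refine Tendsto.congr' ?_ tendsto_const_nhds
    filter_upwards [eventually_gt_atTop 0] with k hk
    rw [h1 k]
    have hk' : (k : ℝ) ≠ 0 := by positivity
    push_cast
    rw [Real.log_pow, pow_one]
    field_simp

end SIE
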