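import Pool.Agent.SIE.SysDefs

set_option autoImplicit false

/-!
# The explicit system: finite alphabet, weights, a point (module of MP_7034eb_an)

PAPER PROOF.  `finite_Al`: all components are bounded: `τ < 2k`, `s < len τ ≤ 2k + 1`,
`J < k * (2k + 2)`, `b < k`, and `a = 0` or `a < (A ^ e) v w` with
`e = stp p ≤ J + 1 + b ≤ k * (2k + 3)`, so `a` is less than the sum of all
`(A ^ e) v w`, `e ≤ k (2k+3)`.

`sys_weights`.  Put `T p = λ ^ emit p.τ p.s` and
`W p = φ p.v * λ ^ (p.J + 1 + p.b)` if `p` is not the last symbol of its packet,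
`W p = (∑ w, if p.a < (A ^ stp p) p.v w then φ w else 0) * λ ^ ((p.J + 1 + p.b - em p.τ) % k)` if it
is.  Both are positive on the alphabet.  Given `p` (left) and `q` (below), the symbols `s` with
`HA p s`, `VA q s` are determined by `v = s.v`, which must be `p.v` (resp. satisfy
`p.a < (A ^ stp p) p.v v`), and by `a`; their `J, τ, s, b` are fixed, call them `J', τ', s', b'`.
For fixed `v` the sum over the admissible `a` of `W * T` is `λ ^ (1 + b') * φ v * λ ^ J'`:
* not the last symbol: only `a = 0`, `T = 1`, `W = φ v * λ ^ (J' + 1 + b')`;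
* last symbol, `E = J' + 1 + b' - em τ'`, `e = E / k`, `j = E % k`: the sum over `a` of
  `∑ w, [a < (A^e) v w] φ w` is `∑ w, (A^e) v w * φ w = (λ^k)^e * φ v`, so the total is
  `λ^(k e) φ v λ^j λ^(em τ') = φ v λ^(E + em τ') = φ v λ^(J' + 1 + b')`
  (`em τ' ≤ J' + 1 + b'` as `J' ≥ s' = len τ' - 1 ≥ 2k - 1`).
Sum over `v`: `∑ (allowed v) φ v * λ ^ J' = W p` by the definition of `W p`, and
`λ ^ (1 + b') = λ * T q` by `b' = emit q`.

`sys_nonempty`: `x m n = ⟨v₀, m % (2k), 0, m % (2k), 0, 0⟩` (type `0`: length `2k`, no emission; at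
the end `E = 2k`, `e = 2`, `j = 0`, choice `a = 0`).
-/

namespace SIE

lemma len_lt {k τ : ℕ} (hτ : τ < 2 * k) : len k τ ≤ 2 * k + 1 := by
  unfold len
  have hk : 0 < k := by omega
  have : τ / k < 2 := by
    rw [Nat.div_lt_iff_lt_mul hk]; omega
  omega

lemma le_len (k τ : ℕ) : 2 * k ≤ len k τ := Nat.le_add_right _ _

lemma em_lt {k : ℕ} (hk : 1 ≤ k) (τ : ℕ) : em k τ < k := Nat.mod_lt _ hk

lemma emit_lt {k : ℕ} (hk : 1 ≤ k) (τ s : ℕ) : emit k τ s < k := by
  unfold emit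
  split_ifs
  · exact em_lt hk τ
  · exact hk

section
variable {q : ℕ} (k : ℕ) (A : Matrix (Fin q) (Fin q) ℕ)

/-- a bound for all copy indices -/
def bnd : ℕ := (∑ e ∈ Finset.range (k * (2 * k + 3) + 1), ∑ v, ∑ w, (A ^ e) v w) + 1

lemma entry_lt_bnd {e : ℕ} (he : e ≤ k * (2 * k + 3)) (v w : Fin q) :
    (A ^ e) v w < bnd k A := by
  have h1 : (A ^ e) v w ≤ ∑ w, (A ^ e) v w :=
    Finset.single_le_sum (f := fun w => (A ^ e) v w) (fun _ _ => Nat.zero_le _)
      (Finset.mem_univ w)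
  have h2 : ∑ w, (A ^ e) v w ≤ ∑ v, ∑ w, (A ^ e) v w :=
    Finset.single_le_sum (f := fun v => ∑ w, (A ^ e) v w) (fun _ _ => Nat.zero_le _)
      (Finset.mem_univ v)
  have h3 : ∑ v, ∑ w, (A ^ e) v w ≤
      ∑ e ∈ Finset.range (k * (2 * k + 3) + 1), ∑ v, ∑ w, (A ^ e) v w :=
    Finset.single_le_sum (f := fun e => ∑ v, ∑ w, (A ^ e) v w) (fun _ _ => Nat.zero_le _)
      (Finset.mem_range.2 (Nat.lt_succ_of_le he))
  unfold bnd
  omega

/-- the part of `Good` which does not concern the copy index -/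
def GoodL (p : Sym q) : Prop :=
  p.τ < 2 * k ∧ p.s < len k p.τ ∧ p.s ≤ p.J ∧ p.J < k * (p.s + 1) ∧ p.b < k

variable {k A}

lemma Good.l {p : Sym q} (h : Good k A p) : GoodL k p :=
  ⟨h.1, h.2.1, h.2.2.1, h.2.2.2.1, h.2.2.2.2.1⟩

lemma GoodL.J_lt {p : Sym q} (h : GoodL k p) : p.J < k * (2 * k + 1) := by
  obtain ⟨h1, h2, h3, h4, h5⟩ := h
  have := len_lt h1
  calc p.J < k * (p.s + 1) := h4
    _ ≤ k * (2 * k + 1) := Nat.mul_le_mul_left _ (by omega)

lemma GoodL.stp_le {p : Sym q} (h : GoodL k p) : stp k p ≤ k * (2 * k + 3) := by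
  have h1 := h.J_lt
  have h5 := h.2.2.2.2
  unfold stp
  refine (Nat.div_le_self _ _).trans ?_
  have : k * (2 * k + 3) = k * (2 * k + 1) + 2 * k := by ring
  omega

lemma Good.a_lt {p : Sym q} (h : Good k A p) : p.a < bnd k A := by
  by_cases hs : p.s + 1 = len k p.τ
  · obtain ⟨w, hw⟩ := h.2.2.2.2.2.2 hs
    exact hw.trans (entry_lt_bnd k A h.l.stp_le _ _)
  · rw [h.2.2.2.2.2.1 hs]
    unfold bnd
    omega

end

variable {q : ℕ} (k : ℕ) (A : Matrix (Fin q) (Fin q) ℕ)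

theorem finite_Al (_hk : 1 ≤ k) : Finite (Al k A) := by
  have hJ : ∀ p : Al k A, p.1.J < k * (2 * k + 1) := fun p => p.2.l.J_lt
  have hs : ∀ p : Al k A, p.1.s < 2 * k + 1 := fun p => by
    have := len_lt p.2.1
    have := p.2.2.1
    omega
  let f : Al k A → Fin q × Fin (k * (2 * k + 1)) × Fin (2 * k) × Fin (2 * k + 1) × Fin k ×
      Fin (bnd k A) := fun p => (p.1.v, ⟨p.1.J, hJ p⟩, ⟨p.1.τ, p.2.1⟩, ⟨p.1.s, hs p⟩,
        ⟨p.1.b, p.2.l.2.2.2.2⟩, ⟨p.1.a, p.2.a_lt⟩)
  apply Finite.of_injective f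
  intro p p' h
  simp only [f, Prod.mk.injEq, Fin.mk.injEq] at h
  obtain ⟨h1, h2, h3, h4, h5, h6⟩ := h
  apply Subtype.ext
  rcases p with ⟨⟨v, J, τ, s, b, a⟩, hp⟩
  rcases p' with ⟨⟨v', J', τ', s', b', a'⟩, hp'⟩
  simp only at h1 h2 h3 h4 h5 h6
  subst h1 h2 h3 h4 h5 h6
  rfl

variable {k A} in
lemma pow_eig (φ : Fin q → ℝ) (L : ℝ) (hA : ∀ v, ∑ w, (A v w : ℝ) * φ w = L * φ v) (n : ℕ) :
    ∀ v, ∑ w, ((A ^ n) v w : ℝ) * φ w = L ^ n * φ v := by
  induction n with
  | zero => intro v; simp [Matrix.one_apply]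
  | succ n ih =>
    intro v
    have h1 : ∀ w, (((A ^ (n + 1)) v w : ℕ) : ℝ) * φ w =
        ∑ u, ((A v u : ℕ) : ℝ) * (((A ^ n) u w : ℕ) : ℝ) * φ w := by
      intro w
      rw [pow_succ', Matrix.mul_apply]
      push_cast
      rw [Finset.sum_mul]
    simp_rw [h1]
    rw [Finset.sum_comm]
    have h2 : ∀ u, ∑ w, ((A v u : ℕ) : ℝ) * (((A ^ n) u w : ℕ) : ℝ) * φ w =
        ((A v u : ℕ) : ℝ) * (L ^ n * φ u) := by
      intro u
      rw [← ih u, Finset.mul_sum]
      exact Finset.sum_congr rfl fun w _ => by ring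
    simp_rw [h2]
    have h3 : ∀ u, ((A v u : ℕ) : ℝ) * (L ^ n * φ u) = L ^ n * (((A v u : ℕ) : ℝ) * φ u) :=
      fun u => by ring
    simp_rw [h3]
    rw [← Finset.mul_sum, hA v, pow_succ]
    ring

open Classical in
/-- the weight of the right exit of a symbol -/
noncomputable def Wt (φ : Fin q → ℝ) (lam : ℝ) (p : Sym q) : ℝ :=
  if p.s + 1 = len k p.τ then
    (∑ w, if p.a < (A ^ stp k p) p.v w then φ w else 0) *
      lam ^ ((p.J + 1 + p.b - em k p.τ) % k)
  else φ p.v * lam ^ (p.J + 1 + p.b)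

open Classical in
/-- the sum over the copy indices -/
lemma site_sum (hk : 1 ≤ k) (φ : Fin q → ℝ) (lam : ℝ)
    (hA : ∀ v, ∑ w, (A v w : ℝ) * φ w = lam ^ k * φ v) (w : Fin q) (J τ s b : ℕ)
    (hg : GoodL k (⟨w, J, τ, s, b, 0⟩ : Sym q)) :
    ∑ a ∈ Finset.range (bnd k A), (if Good k A ⟨w, J, τ, s, b, a⟩ then
      Wt k A φ lam ⟨w, J, τ, s, b, a⟩ * lam ^ emit k τ s else 0) =
      lam ^ (1 + b) * (φ w * lam ^ J) := by
  have hstp := hg.stp_le
  obtain ⟨h1, h2, h3, h4, h5⟩ := hg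
  simp only at h1 h2 h3 h4 h5
  by_cases hs : s + 1 = len k τ
  · -- last symbol
    have hemit : emit k τ s = em k τ := by unfold emit; rw [if_pos hs]
    have hem := em_lt hk τ
    have hle : em k τ ≤ J + 1 + b := by
      have := le_len k τ
      omega
    set e := (J + 1 + b - em k τ) / k with he
    have hstp' : ∀ a, stp k (⟨w, J, τ, s, b, a⟩ : Sym q) = e := fun a => rfl
    have hterm : ∀ a, (if Good k A ⟨w, J, τ, s, b, a⟩ then
        Wt k A φ lam ⟨w, J, τ, s, b, a⟩ * lam ^ emit k τ s else 0) =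
        ∑ w', (if a < (A ^ e) w w' then φ w' * (lam ^ ((J + 1 + b - em k τ) % k) *
          lam ^ em k τ) else 0) := by
      intro a
      by_cases hG : ∃ w', a < (A ^ e) w w'
      · have hGood : Good k A ⟨w, J, τ, s, b, a⟩ :=
          ⟨h1, h2, h3, h4, h5, fun h => absurd hs h, fun _ => by
            rw [hstp']; exact hG⟩
        rw [if_pos hGood]
        unfold Wt
        rw [if_pos hs, hemit]
        simp only [hstp']
        rw [Finset.sum_mul, Finset.sum_mul]
        refine Finset.sum_congr rfl fun w' _ => ?_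
        by_cases hw : a < (A ^ e) w w'
        · rw [if_pos hw, if_pos hw]; ring
        · rw [if_neg hw, if_neg hw]; ring
      · have hnG : ¬ Good k A ⟨w, J, τ, s, b, a⟩ := by
          intro hGood
          apply hG
          have := hGood.2.2.2.2.2.2 hs
          rw [hstp'] at this
          exact this
        rw [if_neg hnG]
        push Not at hG
        symm
        apply Finset.sum_eq_zero
        intro w' _
        rw [if_neg (not_lt.2 (hG w'))]
    simp_rw [hterm]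
    rw [Finset.sum_comm]
    have hin : ∀ w', ∑ a ∈ Finset.range (bnd k A), (if a < (A ^ e) w w' then
        φ w' * (lam ^ ((J + 1 + b - em k τ) % k) * lam ^ em k τ) else 0) =
        ((A ^ e) w w' : ℝ) * φ w' * (lam ^ ((J + 1 + b - em k τ) % k) * lam ^ em k τ) := by
      intro w'
      rw [← Finset.sum_filter, Finset.sum_const, nsmul_eq_mul]
      have hcard : (Finset.filter (fun a => a < (A ^ e) w w')
          (Finset.range (bnd k A))).card = (A ^ e) w w' := by
        have : Finset.filter (fun a => a < (A ^ e) w w') (Finset.range (bnd k A)) =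
            Finset.range ((A ^ e) w w') := by
          ext a
          simp only [Finset.mem_filter, Finset.mem_range]
          have h6 : (A ^ e) w w' < bnd k A := entry_lt_bnd k A hstp w w'
          omega
        rw [this, Finset.card_range]
      rw [hcard]
      ring
    simp_rw [hin]
    rw [← Finset.sum_mul, pow_eig φ (lam ^ k) hA e w]
    have hexp : k * e + ((J + 1 + b - em k τ) % k) + em k τ = 1 + b + J := by
      have := Nat.div_add_mod (J + 1 + b - em k τ) k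
      rw [← he] at this
      omega
    calc (lam ^ k) ^ e * φ w * (lam ^ ((J + 1 + b - em k τ) % k) * lam ^ em k τ)
        = lam ^ (k * e + ((J + 1 + b - em k τ) % k) + em k τ) * φ w := by
          rw [← pow_mul, pow_add, pow_add]; ring
      _ = lam ^ (1 + b) * (φ w * lam ^ J) := by
          rw [hexp, pow_add]; ring
  · -- not the last symbol
    have hemit : emit k τ s = 0 := by unfold emit; rw [if_neg hs]
    have hterm : ∀ a, (if Good k A ⟨w, J, τ, s, b, a⟩ then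
        Wt k A φ lam ⟨w, J, τ, s, b, a⟩ * lam ^ emit k τ s else 0) =
        if a = 0 then φ w * lam ^ (J + 1 + b) else 0 := by
      intro a
      by_cases ha : a = 0
      · have hGood : Good k A ⟨w, J, τ, s, b, a⟩ :=
          ⟨h1, h2, h3, h4, h5, fun _ => ha, fun h => absurd h hs⟩
        rw [if_pos hGood, if_pos ha, hemit, pow_zero, mul_one]
        unfold Wt
        rw [if_neg hs]
      · have hnG : ¬ Good k A ⟨w, J, τ, s, b, a⟩ := fun hGood => ha (hGood.2.2.2.2.2.1 hs)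
        rw [if_neg hnG, if_neg ha]
    simp_rw [hterm]
    rw [Finset.sum_ite_eq' (Finset.range (bnd k A)) 0, if_pos]
    · rw [show J + 1 + b = 1 + b + J by ring, pow_add]; ring
    · rw [Finset.mem_range]; unfold bnd; omega

variable {k A} in
lemma Wt_pos (φ : Fin q → ℝ) (hφ : ∀ v, 0 < φ v) (lam : ℝ) (hlam : 0 < lam) (p : Sym q)
    (hp : Good k A p) : 0 < Wt k A φ lam p := by
  classical
  unfold Wt
  split_ifs with hs
  · obtain ⟨w, hw⟩ := hp.2.2.2.2.2.2 hs
    refine mul_pos ?_ (pow_pos hlam _)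
    refine Finset.sum_pos' (fun w _ => ?_) ⟨w, Finset.mem_univ w, ?_⟩
    · split_ifs
      · exact (hφ w).le
      · exact le_rfl
    · rw [if_pos hw]; exact hφ w
  · exact mul_pos (hφ _) (pow_pos hlam _)

open Classical in
theorem sys_weights (hk : 1 ≤ k) [Fintype (Al k A)] (φ : Fin q → ℝ) (hφ : ∀ v, 0 < φ v)
    (lam : ℝ) (hlam : 0 < lam) (hA : ∀ v, ∑ w, (A v w : ℝ) * φ w = lam ^ k * φ v) :
    ∃ W T : Al k A → ℝ, (∀ s, 0 < W s) ∧ (∀ s, 0 < T s) ∧
      ∀ p q, ∑ s, (if HA k A p s ∧ VA k A q s then W s * T s else 0) = lam * (W p * T q) := by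
  refine ⟨fun p => Wt k A φ lam p.1, fun p => lam ^ emit k p.1.τ p.1.s,
    fun s => Wt_pos φ hφ lam hlam _ s.2, fun s => pow_pos hlam _, ?_⟩
  rintro ⟨p, hp⟩ ⟨u, hu⟩
  simp only
  -- the label of the new symbol
  set nb := emit k u.τ u.s with hnb
  have hnbk : nb < k := emit_lt hk _ _
  have hpl := hp.l
  obtain ⟨g1, g2, g3, g4, g5⟩ := hpl
  obtain ⟨nJ, nτ, ns, ok, hlab, hH, hWp⟩ : ∃ (nJ nτ ns : ℕ) (ok : Fin q → Prop),
      (nτ < 2 * k ∧ ns < len k nτ ∧ ns ≤ nJ ∧ nJ < k * (ns + 1)) ∧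
      (∀ s' : Sym q, Hr k A p s' ↔ (s'.s = ns ∧ s'.J = nJ ∧ s'.τ = nτ ∧ ok s'.v)) ∧
      Wt k A φ lam p = (∑ w, if ok w then φ w else 0) * lam ^ nJ := by
    by_cases hs : p.s + 1 = len k p.τ
    · refine ⟨(p.J + 1 + p.b - em k p.τ) % k, p.a % (2 * k), 0,
        fun w => p.a < (A ^ stp k p) p.v w, ⟨?_, ?_, Nat.zero_le _, ?_⟩, ?_, ?_⟩
      · exact Nat.mod_lt _ (by omega)
      · have := le_len k (p.a % (2 * k)); omega
      · simpa using Nat.mod_lt _ (by omega)
      · intro s'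
        unfold Hr
        constructor
        · rintro ⟨-, h⟩; exact h hs
        · intro h; exact ⟨fun h' => absurd hs h', fun _ => h⟩
      · unfold Wt; rw [if_pos hs]
        congr 1
        refine Finset.sum_congr rfl fun w _ => ?_
        by_cases h : p.a < (A ^ stp k p) p.v w
        · simp [h]
        · simp [h]
    · refine ⟨p.J + 1 + p.b, p.τ, p.s + 1, fun w => w = p.v, ⟨g1, by omega, by omega, ?_⟩,
        ?_, ?_⟩
      · calc p.J + 1 + p.b < k * (p.s + 1) + k := by omega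
          _ = k * (p.s + 1 + 1) := by ring
      · intro s'
        unfold Hr
        constructor
        · rintro ⟨h, -⟩; exact h hs
        · intro h; exact ⟨fun _ => h, fun h' => absurd h' hs⟩
      · unfold Wt; rw [if_neg hs]
        congr 1
        rw [Finset.sum_eq_single p.v]
        · simp
        · intro b _ hb; simp [hb]
        · intro h; exact absurd (Finset.mem_univ _) h
  have hlab' : ∀ (w : Fin q) (a : ℕ), GoodL k (⟨w, nJ, nτ, ns, nb, a⟩ : Sym q) :=
    fun w a => ⟨hlab.1, hlab.2.1, hlab.2.2.1, hlab.2.2.2, hnbk⟩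
  -- the sum as a sum over pairs (w, a)
  have hkey : ∑ s : Al k A, (if HA k A ⟨p, hp⟩ s ∧ VA k A ⟨u, hu⟩ s then
        Wt k A φ lam s.1 * lam ^ emit k s.1.τ s.1.s else 0) =
      ∑ x ∈ ((Finset.univ : Finset (Fin q)) ×ˢ Finset.range (bnd k A)).filter
        (fun x => ok x.1 ∧ Good k A ⟨x.1, nJ, nτ, ns, nb, x.2⟩),
        Wt k A φ lam ⟨x.1, nJ, nτ, ns, nb, x.2⟩ * lam ^ emit k nτ ns := by
    rw [← Finset.sum_filter]
    refine Finset.sum_bij' (fun s _ => (s.1.v, s.1.a))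
      (fun x hx => ⟨⟨x.1, nJ, nτ, ns, nb, x.2⟩, (Finset.mem_filter.1 hx).2.2⟩) ?_ ?_ ?_ ?_ ?_
    · rintro ⟨⟨v, J, τ, s, b, a⟩, hs⟩ hmem
      obtain ⟨h1, h2⟩ := (Finset.mem_filter.1 hmem).2
      have h1' := (hH _).1 h1
      simp only at h1'
      obtain ⟨e1, e2, e3, e4⟩ := h1'
      have h2' : b = nb := h2
      subst e1 e2 e3 h2'
      simp only [Finset.mem_filter, Finset.mem_product, Finset.mem_univ, true_and,
        Finset.mem_range]
      exact ⟨hs.a_lt, e4, hs⟩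
    · intro x hx
      rw [Finset.mem_filter] at hx ⊢
      refine ⟨Finset.mem_univ _, (hH _).2 ⟨rfl, rfl, rfl, hx.2.1⟩, rfl⟩
    · rintro ⟨⟨v, J, τ, s, b, a⟩, hs⟩ hmem
      obtain ⟨h1, h2⟩ := (Finset.mem_filter.1 hmem).2
      have h1' := (hH _).1 h1
      simp only at h1'
      obtain ⟨e1, e2, e3, e4⟩ := h1'
      have h2' : b = nb := h2
      subst e1 e2 e3 h2'
      rfl
    · intro x hx
      rfl
    · rintro ⟨⟨v, J, τ, s, b, a⟩, hs⟩ hmem
      obtain ⟨h1, h2⟩ := (Finset.mem_filter.1 hmem).2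
      have h1' := (hH _).1 h1
      simp only at h1'
      obtain ⟨e1, e2, e3, e4⟩ := h1'
      have h2' : b = nb := h2
      subst e1 e2 e3 h2'
      rfl
  rw [hkey, Finset.sum_filter, Finset.sum_product]
  have hin : ∀ w : Fin q, ∑ a ∈ Finset.range (bnd k A),
      (if ok w ∧ Good k A ⟨w, nJ, nτ, ns, nb, a⟩ then
        Wt k A φ lam ⟨w, nJ, nτ, ns, nb, a⟩ * lam ^ emit k nτ ns else 0) =
      (if ok w then φ w else 0) * (lam ^ (1 + nb) * lam ^ nJ) := by
    intro w
    by_cases hw : ok w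
    · simp only [hw, true_and, if_true]
      rw [site_sum k A hk φ lam hA w nJ nτ ns nb (hlab' w 0)]
      ring
    · simp [hw]
  simp_rw [hin]
  rw [← Finset.sum_mul, hWp, pow_add]
  ring

theorem sys_nonempty (hk : 1 ≤ k) (hq : 0 < q) (hA : ∀ v w, 2 * k ≤ A v w) :
    (Sys2 (HA k A) (VA k A)).Nonempty := by
  have hpos : ∀ (e : ℕ), 1 ≤ e → ∀ v w, 0 < (A ^ e) v w := by
    intro e he
    induction e, he using Nat.le_induction with
    | base => intro v w; rw [pow_one]; have := hA v w; omega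
    | succ n hn ih =>
      intro v w
      rw [pow_succ, Matrix.mul_apply]
      refine Finset.sum_pos (fun u _ => ?_) ⟨⟨0, hq⟩, Finset.mem_univ _⟩
      exact Nat.mul_pos (ih v u) (by have := hA u w; omega)
  have hlen : len k 0 = 2 * k := by unfold len; simp
  have hem : em k 0 = 0 := by unfold em; simp
  have hstp : ∀ j : ℕ, j + 1 = 2 * k → stp k (⟨⟨0, hq⟩, j, 0, j, 0, 0⟩ : Sym q) = 2 := by
    intro j hj
    unfold stp
    simp only [hem]
    rw [show j + 1 + 0 - 0 = 2 * k by omega, Nat.mul_div_cancel _ (by omega)]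
  have hgood : ∀ j : ℕ, j < 2 * k → Good k A (⟨⟨0, hq⟩, j, 0, j, 0, 0⟩ : Sym q) := by
    intro j hj
    refine ⟨by simp only; omega, by simp only [hlen]; exact hj, le_rfl, ?_, by simp only; omega,
      fun _ => rfl, ?_⟩
    · simp only
      nlinarith
    · intro h
      simp only [hlen] at h
      refine ⟨⟨0, hq⟩, ?_⟩
      rw [hstp j h]
      exact hpos 2 (by norm_num) _ _
  have hmod : ∀ m : ℤ, (m % ((2 * k : ℕ) : ℤ)).toNat < 2 * k := by
    intro m
    have h1 := Int.emod_nonneg m (show ((2 * k : ℕ) : ℤ) ≠ 0 by omega)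
    have h2 := Int.emod_lt_of_pos m (show (0 : ℤ) < ((2 * k : ℕ) : ℤ) by omega)
    omega
  refine ⟨fun m n => ⟨_, hgood _ (hmod m)⟩, fun m n => ⟨?_, ?_⟩⟩
  · have h1 := Int.emod_nonneg m (show ((2 * k : ℕ) : ℤ) ≠ 0 by omega)
    have h2 := Int.emod_lt_of_pos m (show (0 : ℤ) < ((2 * k : ℕ) : ℤ) by omega)
    have h3 : (m + 1) % ((2 * k : ℕ) : ℤ) =
        (m % ((2 * k : ℕ) : ℤ) + 1) % ((2 * k : ℕ) : ℤ) := by
      rw [Int.emod_add_emod]
    unfold HA Hr
    simp only [hlen, hem]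
    constructor
    · intro h
      have h4 : (m + 1) % ((2 * k : ℕ) : ℤ) = m % ((2 * k : ℕ) : ℤ) + 1 := by
        rw [h3]; exact Int.emod_eq_of_lt (by omega) (by omega)
      have h5 : ((m + 1) % ((2 * k : ℕ) : ℤ)).toNat = (m % ((2 * k : ℕ) : ℤ)).toNat + 1 := by
        rw [h4]; omega
      refine ⟨h5, by omega, trivial, trivial⟩
    · intro h
      have h4 : m % ((2 * k : ℕ) : ℤ) + 1 = ((2 * k : ℕ) : ℤ) := by omega
      have h5 : (m + 1) % ((2 * k : ℕ) : ℤ) = 0 := by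
        rw [h3, h4]; exact Int.emod_self
      have h6 : ((m + 1) % ((2 * k : ℕ) : ℤ)).toNat = 0 := by rw [h5]; rfl
      refine ⟨h6, ?_, by simp, ?_⟩
      · rw [h6, show (m % ((2 * k : ℕ) : ℤ)).toNat + 1 + 0 - 0 = 2 * k by omega]
        rw [Nat.mul_mod_left]
      · rw [hstp _ h]
        exact hpos 2 (by norm_num) _ _
  · unfold VA Vr emit
    simp only [hem]
    split_ifs <;> rfl

end SIE
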