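import Pool.Agent.SIE.Defs

/-!
# The explicit system (MP_7034eb_an)

Parameters: `k ≥ 1` and a matrix `A` over `ℕ` (in the application all entries are `≥ 2 k`) with
`A φ = λ^k φ`, `φ > 0`.

Every row of a configuration is a concatenation of *packets*.  A packet has a type `τ < 2k`, which
determines its length `len τ = 2k + τ / k ∈ {2k, 2k + 1}` and the charge `em τ = τ % k` which its
last site emits upwards.  The symbol at a site consists of
* `v`, the state of the row, constant during a packet,
* `J`, the weight exponent the row has accumulated: the label `(v, J)` has weight `φ v * λ^J`,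
* `τ`, the type of the packet, `s` the position inside the packet (`0 ≤ s < len τ`),
* `b < k`, the charge entering the site from below (`= ` the charge emitted by the site below),
* `a`, at the last site of a packet, the index of the choice made for the next packet.
Each site increases `J` by `1 + b`.  At the last site of a packet the total
`E = J + 1 + b - em τ` is divided by `k`: `E = k * e + j`; the next packet starts with `J = j`,
an arbitrary state `w` and the type `a % (2k)`, where `a < (A^e) v w`.
-/

set_option autoImplicit false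

namespace SIE

/-- a symbol -/
structure Sym (q : ℕ) where
  v : Fin q
  J : ℕ
  τ : ℕ
  s : ℕ
  b : ℕ
  a : ℕ

/-- the length of a packet of type `τ` -/
def len (k τ : ℕ) : ℕ := 2 * k + τ / k

/-- the charge emitted at the end of a packet of type `τ` -/
def em (k τ : ℕ) : ℕ := τ % k

/-- the charge a site with packet type `τ` at position `s` emits upwards -/
def emit (k τ s : ℕ) : ℕ := if s + 1 = len k τ then em k τ else 0

section
variable {q : ℕ} (k : ℕ) (A : Matrix (Fin q) (Fin q) ℕ)

/-- the number of steps of the matrix made at the end of a packet -/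
def stp (p : Sym q) : ℕ := (p.J + 1 + p.b - em k p.τ) / k

/-- the symbols of the alphabet -/
def Good (p : Sym q) : Prop :=
  p.τ < 2 * k ∧ p.s < len k p.τ ∧ p.s ≤ p.J ∧ p.J < k * (p.s + 1) ∧ p.b < k ∧
  (p.s + 1 ≠ len k p.τ → p.a = 0) ∧
  (p.s + 1 = len k p.τ → ∃ w, p.a < (A ^ stp k p) p.v w)

/-- the horizontal relation -/
def Hr (p p' : Sym q) : Prop :=
  (p.s + 1 ≠ len k p.τ → p'.s = p.s + 1 ∧ p'.J = p.J + 1 + p.b ∧ p'.τ = p.τ ∧ p'.v = p.v) ∧
  (p.s + 1 = len k p.τ → p'.s = 0 ∧ p'.J = (p.J + 1 + p.b - em k p.τ) % k ∧
    p'.τ = p.a % (2 * k) ∧ p.a < (A ^ stp k p) p.v p'.v)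

/-- the vertical relation -/
def Vr (p p' : Sym q) : Prop := p'.b = emit k p.τ p.s

/-- the alphabet -/
abbrev Al : Type := {p : Sym q // Good k A p}

/-- the horizontal relation on the alphabet -/
def HA (p p' : Al k A) : Prop := Hr k A p.1 p'.1

/-- the vertical relation on the alphabet -/
def VA (p p' : Al k A) : Prop := Vr k p.1 p'.1

end

/-- the states of the skeleton of a row: type, position and potential -/
structure Sk (k : ℕ) where
  τ : ℕ
  s : ℕ
  κ : ZMod k
  hτ : τ < 2 * k
  hs : s < len k τ

/-- the transitions of the skeleton -/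
def SkR (k : ℕ) (g g' : Sk k) : Prop :=
  (g.s + 1 ≠ len k g.τ → g'.s = g.s + 1 ∧ g'.τ = g.τ) ∧
  (g.s + 1 = len k g.τ → g'.s = 0) ∧
  g'.κ = g.κ + (emit k g.τ g.s : ℕ)

end SIE
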